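import Pool.Agent.H564.LH.Noise

/-! The number of the integers of a sparse random sample. -/

set_option autoImplicit false

namespace Pool.Agent.H564.LH

open MeasureTheory Filter Topology Set Classical ProbabilityTheory
open Pool.Agent.H564.BSD

variable {δ : ℕ → ℝ} {η : ℝ}

theorem Dens.le (h : Dens δ η) (hδ1 : ∀ p, δ p ≤ 1) (hη : 0 ≤ η) {ε : ℝ} (hε : 0 < ε) :
    ∃ C : ℝ, 0 < C ∧ ∀ n : ℕ, 0 < n → δ n ≤ C * (n : ℝ) ^ (-(2 * η) + ε) := by
  obtain ⟨N, hN⟩ := eventually_atTop.1 (h ε hε)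
  refine ⟨1 + (N : ℝ) ^ (2 * η), by positivity, fun n hn => ?_⟩
  have hn1 : (1 : ℝ) ≤ n := by exact_mod_cast hn
  have hn0 : (0 : ℝ) < n := by linarith
  have hp0 : 0 < (n : ℝ) ^ (-(2 * η) + ε) := Real.rpow_pos_of_pos hn0 _
  have hN0 : 0 ≤ (N : ℝ) ^ (2 * η) := by positivity
  rcases lt_or_ge n N with h1 | h1
  · have h3 : (n : ℝ) ^ (2 * η) ≤ (N : ℝ) ^ (2 * η) :=
      Real.rpow_le_rpow hn0.le (by exact_mod_cast h1.le) (by linarith)
    have h4 : 1 ≤ (n : ℝ) ^ (2 * η) * (n : ℝ) ^ (-(2 * η) + ε) := by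
      rw [← Real.rpow_add hn0, show 2 * η + (-(2 * η) + ε) = ε by ring]
      exact Real.one_le_rpow hn1 hε.le
    calc δ n ≤ 1 := hδ1 n
      _ ≤ (n : ℝ) ^ (2 * η) * (n : ℝ) ^ (-(2 * η) + ε) := h4
      _ ≤ (1 + (N : ℝ) ^ (2 * η)) * (n : ℝ) ^ (-(2 * η) + ε) :=
          mul_le_mul_of_nonneg_right (by linarith) hp0.le
  · have h2 := (hN n h1).2
    exact h2.trans (le_mul_of_one_le_left hp0.le (by linarith))

variable {Ω : Type*} [mΩ : MeasurableSpace Ω] {μ : Measure Ω} [IsProbabilityMeasure μ]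
  {A : ℕ → Set Ω}

/-- few integers are used -/
theorem count_up (hA : ∀ p, MeasurableSet (A p)) (hind : iIndepSet A μ)
    (hδ0 : ∀ p, 0 < δ p) (hδ1 : ∀ p, δ p ≤ 1) (hμ : ∀ p, μ (A p) = ENNReal.ofReal (δ p))
    (hη : 0 ≤ η) (hη1 : η < 1 / 2) (hd : Dens δ η) :
    ∀ᵐ ω ∂μ, ∀ ε : ℝ, 0 < ε → ∀ᶠ x : ℝ in atTop,
      (((Finset.range (⌊x⌋₊ + 1)).filter fun p => 0 < p ∧ ω ∈ A p).card : ℝ) ≤
        x ^ (1 - 2 * η + ε) := by
  have key : ∀ q : ℕ, ∀ᵐ ω ∂μ, ∃ C : ℝ, ∀ x : ℝ, 1 ≤ x →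
      (((Finset.range (⌊x⌋₊ + 1)).filter fun p => 0 < p ∧ ω ∈ A p).card : ℝ) ≤
        C * x ^ (1 - 2 * η + 1 / ((q : ℝ) + 1)) := by
    intro q
    set e : ℝ := 1 / ((q : ℝ) + 1) with he
    have he0 : 0 < e := by positivity
    set s : ℝ := 1 - 2 * η + e with hs
    have hs0 : 0 < s := by linarith
    obtain ⟨C, hC0, hC⟩ := hd.le hδ1 hη (half_pos he0)
    set y : ℕ → ℝ := fun n => if 0 < n then δ n * (n : ℝ) ^ (-s) else 0 with hy
    have hbd : ∀ n : ℕ, 0 < n → δ n * (n : ℝ) ^ (-s) ≤ C * (n : ℝ) ^ (-1 - e / 2) := by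
      intro n hn
      have hn0 : (0 : ℝ) < n := by exact_mod_cast hn
      calc δ n * (n : ℝ) ^ (-s) ≤ C * (n : ℝ) ^ (-(2 * η) + e / 2) * (n : ℝ) ^ (-s) :=
            mul_le_mul_of_nonneg_right (hC n hn) (by positivity)
        _ = C * (n : ℝ) ^ (-1 - e / 2) := by
            rw [mul_assoc, ← Real.rpow_add hn0]
            congr 2
            rw [hs]
            ring
    have hsum1 : Summable y := by
      refine Summable.of_nonneg_of_le (fun n => ?_) (fun n => ?_)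
        ((Real.summable_nat_rpow.2 (show -1 - e / 2 < -1 by linarith)).mul_left C)
      · simp only [hy]
        have := hδ0 n
        split_ifs <;> positivity
      · simp only [hy]
        split_ifs with hn
        · exact hbd n hn
        · positivity
    have hsum2 : Summable fun n : ℕ => y n ^ 2 / (δ n * (1 : ℝ) ^ 2) := by
      refine Summable.of_nonneg_of_le (fun n => ?_) (fun n => ?_) hsum1
      · have := hδ0 n
        positivity
      · simp only [hy]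
        split_ifs with hn
        · have h1 : (1 : ℝ) ≤ n := by exact_mod_cast hn
          have h2 : (n : ℝ) ^ (-s) ≤ 1 := Real.rpow_le_one_of_one_le_of_nonpos h1 (by linarith)
          have h3 : 0 ≤ (n : ℝ) ^ (-s) := by positivity
          have h4 := hδ0 n
          have e1 : (δ n * (n : ℝ) ^ (-s)) ^ 2 / (δ n * 1 ^ 2) =
              δ n * (n : ℝ) ^ (-s) * (n : ℝ) ^ (-s) := by
            field_simp
          rw [e1]
          exact mul_le_of_le_one_right (by positivity) h2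
        · simp
    filter_upwards [noise hA hind hδ0 hδ1 hμ (b := fun _ => 1) monotone_const (fun _ => one_pos)
      hsum2] with ω hω
    obtain ⟨C', hC'⟩ := hω 1 one_pos
    refine ⟨(∑' n, y n) + 1 + C', fun x hx => ?_⟩
    have hx0 : 0 < x := by linarith
    have h1 := (abs_le.1 (hC' (⌊x⌋₊ + 1))).2
    have h2 : ∑ i ∈ Finset.range (⌊x⌋₊ + 1), y i ≤ ∑' n, y n :=
      hsum1.sum_le_tsum _ fun i _ => by
        simp only [hy]
        have := hδ0 i
        split_ifs <;> positivity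
    have h3 : ∑ i ∈ Finset.range (⌊x⌋₊ + 1), wt A δ ω i * y i ≤ (∑' n, y n) + 1 + C' := by
      have e1 : ∑ i ∈ Finset.range (⌊x⌋₊ + 1), wt A δ ω i * y i =
          ∑ i ∈ Finset.range (⌊x⌋₊ + 1), (wt A δ ω i - 1) * y i +
            ∑ i ∈ Finset.range (⌊x⌋₊ + 1), y i := by
        rw [← Finset.sum_add_distrib]
        exact Finset.sum_congr rfl fun i _ => by ring
      rw [e1]
      linarith
    have h4 : (((Finset.range (⌊x⌋₊ + 1)).filter fun p => 0 < p ∧ ω ∈ A p).card : ℝ) =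
        ∑ i ∈ Finset.range (⌊x⌋₊ + 1), (if 0 < i ∧ ω ∈ A i then 1 else 0 : ℝ) := by
      rw [Finset.sum_boole]
    rw [h4]
    have h5 : ∑ i ∈ Finset.range (⌊x⌋₊ + 1), (if 0 < i ∧ ω ∈ A i then 1 else 0 : ℝ) ≤
        (∑ i ∈ Finset.range (⌊x⌋₊ + 1), wt A δ ω i * y i) * x ^ s := by
      rw [Finset.sum_mul]
      refine Finset.sum_le_sum fun i hi => ?_
      rw [Finset.mem_range] at hi
      unfold wt
      simp only [hy]
      by_cases h6 : 0 < i ∧ ω ∈ A i
      · rw [if_pos h6, if_pos h6.2, if_pos h6.1]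
        have hi0 : (0 : ℝ) < i := by exact_mod_cast h6.1
        have hix : (i : ℝ) ≤ x := (Nat.cast_le.2 (Nat.lt_succ_iff.1 hi)).trans (Nat.floor_le hx0.le)
        have h7 : (i : ℝ) ^ s ≤ x ^ s := Real.rpow_le_rpow hi0.le hix hs0.le
        have e1 : 1 / δ i * (δ i * (i : ℝ) ^ (-s)) * x ^ s = (i : ℝ) ^ (-s) * x ^ s := by
          have := (hδ0 i).ne'
          field_simp
        rw [e1]
        calc (1 : ℝ) = (i : ℝ) ^ (-s) * (i : ℝ) ^ s := by
              rw [← Real.rpow_add hi0, neg_add_cancel, Real.rpow_zero]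
          _ ≤ _ := mul_le_mul_of_nonneg_left h7 (by positivity)
      · rw [if_neg h6]
        have := hδ0 i
        split_ifs <;> positivity
    exact h5.trans (mul_le_mul_of_nonneg_right h3 (by positivity))
  have key2 : ∀ᵐ ω ∂μ, ∀ q : ℕ, ∃ C : ℝ, ∀ x : ℝ, 1 ≤ x →
      (((Finset.range (⌊x⌋₊ + 1)).filter fun p => 0 < p ∧ ω ∈ A p).card : ℝ) ≤
        C * x ^ (1 - 2 * η + 1 / ((q : ℝ) + 1)) := by
    rw [ae_all_iff]; intro q
    exact key q
  filter_upwards [key2] with ω hω ε hε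
  obtain ⟨q, hq⟩ := exists_nat_one_div_lt hε
  obtain ⟨C, hC⟩ := hω q
  set e : ℝ := 1 / ((q : ℝ) + 1) with he
  filter_upwards [eventually_ge_atTop 1,
    (tendsto_rpow_atTop (show 0 < ε - e by linarith)).eventually_ge_atTop C] with x hx h1
  refine (hC x hx).trans ?_
  calc C * x ^ (1 - 2 * η + e) ≤ x ^ (ε - e) * x ^ (1 - 2 * η + e) :=
        mul_le_mul_of_nonneg_right h1 (by positivity)
    _ = x ^ (1 - 2 * η + ε) := by
        rw [← Real.rpow_add (by linarith)]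
        congr 1
        ring

end Pool.Agent.H564.LH
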