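import Pool.Agent.H564.LH.Up

/-! Sums of functions continued by partial summation; truncation. -/

set_option autoImplicit false

open MeasureTheory Filter Topology Set Complex

namespace Pool.Agent.H564.LH

open Pool.Agent.H564.SC (cont cont_diff cont_le cont_eq psum psum_meas psum_le)

theorem cont_int {f : ℕ → ℂ} {r C : ℝ} (hr : 0 ≤ r) (hC0 : 0 ≤ C)
    (hC : ∀ n : ℕ, ‖∑ k ∈ Finset.Icc 1 n, f k‖ ≤ C * (n : ℝ) ^ r) {s : ℂ} (hs : r < s.re) :
    IntegrableOn (fun t : ℝ => (∑ k ∈ Finset.Icc 1 ⌊t⌋₊, f k) * (t : ℂ) ^ (-(s + 1))) (Ioi 1) := by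
  have hi : IntegrableOn (fun t : ℝ => C * t ^ (r - (s.re + 1))) (Ioi 1) :=
    (integrableOn_Ioi_rpow_of_lt (by linarith) one_pos).const_mul C
  refine Integrable.mono' hi ?_ ?_
  · have h1 : Measurable fun t : ℝ => (t : ℂ) ^ (-(s + 1)) :=
      Complex.measurable_ofReal.pow_const _
    exact ((psum_meas f).mul h1).aestronglyMeasurable
  · rw [ae_restrict_iff' measurableSet_Ioi]
    refine ae_of_all _ fun t ht => ?_
    have ht1 : (1 : ℝ) < t := ht
    have ht0 : 0 < t := by linarith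
    rw [norm_mul, Complex.norm_cpow_eq_rpow_re_of_pos ht0]
    have h1 : (-(s + 1)).re = -(s.re + 1) := by simp
    rw [h1]
    calc _ ≤ (C * t ^ r) * t ^ (-(s.re + 1)) :=
          mul_le_mul_of_nonneg_right (psum_le hr hC0 hC ht0.le) (by positivity)
      _ = C * t ^ (r - (s.re + 1)) := by
          rw [mul_assoc, ← Real.rpow_add ht0]
          congr 2

theorem cont_add {f g h : ℕ → ℂ} {r C D : ℝ} (hr : 0 ≤ r) (hC0 : 0 ≤ C) (hD0 : 0 ≤ D)
    (hf : ∀ n : ℕ, ‖∑ k ∈ Finset.Icc 1 n, f k‖ ≤ C * (n : ℝ) ^ r)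
    (hg : ∀ n : ℕ, ‖∑ k ∈ Finset.Icc 1 n, g k‖ ≤ D * (n : ℝ) ^ r)
    (hh : ∀ n, h n = f n + g n) {s : ℂ} (hs : r < s.re) : cont h s = cont f s + cont g s := by
  unfold cont
  rw [← mul_add, ← integral_add (cont_int hr hC0 hf hs) (cont_int hr hD0 hg hs)]
  congr 1
  refine integral_congr_ae (ae_of_all _ fun t => ?_)
  simp only [hh, Finset.sum_add_distrib, add_mul]

/-- truncation -/
noncomputable def tr (N : ℕ) (f : ℕ → ℂ) (n : ℕ) : ℂ := if n ≤ N then f n else 0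

theorem tr_sum (N : ℕ) (f : ℕ → ℂ) (n : ℕ) :
    ∑ k ∈ Finset.Icc 1 n, tr N f k = ∑ k ∈ Finset.Icc 1 (min n N), f k := by
  unfold tr
  rw [← Finset.sum_filter]
  refine Finset.sum_congr ?_ fun _ _ => rfl
  ext k
  simp only [Finset.mem_filter, Finset.mem_Icc, le_min_iff]
  tauto

theorem tr_summable (N : ℕ) (f : ℕ → ℂ) (s : ℂ) : LSeriesSummable (tr N f) s := by
  refine summable_of_ne_finset_zero (s := Finset.range (N + 1)) fun n hn => ?_
  rw [Finset.mem_range, not_lt] at hn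
  rcases Nat.eq_zero_or_pos n with rfl | h
  · simp
  · rw [LSeries.term_of_ne_zero h.ne']
    unfold tr
    rw [if_neg (by omega), zero_div]

end Pool.Agent.H564.LH
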