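import Pool.Agent.H564.LH.Grid

/-! The theorem of Kusmin and Landau for `(-1)^(n+1) n^(-it)`, `n ≥ |t|`. -/

set_option autoImplicit false

namespace Pool.Agent.H564.LH

open Finset

/-- the phase increments -/
noncomputable def ph (t : ℝ) (n : ℕ) : ℝ := t * (Real.log (n + 1) - Real.log n)

/-- `-1 / (1 + e^(-iφ))` -/
noncomputable def gg (φ : ℝ) : ℂ := -(1 + Complex.exp (((-φ : ℝ) : ℂ) * Complex.I))⁻¹

theorem one_add_norm {φ : ℝ} (h : |φ| ≤ 1) : 3 / 2 ≤ ‖1 + Complex.exp (((-φ : ℝ) : ℂ) * Complex.I)‖ := by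
  have h1 := (le_abs_self _).trans
    (Complex.abs_re_le_norm (1 + Complex.exp (((-φ : ℝ) : ℂ) * Complex.I)))
  rw [Complex.add_re, Complex.one_re, Complex.exp_ofReal_mul_I_re, Real.cos_neg] at h1
  have h2 := Real.one_sub_sq_div_two_le_cos (x := φ)
  have h3 : φ ^ 2 ≤ 1 := by
    rw [← sq_abs]
    exact pow_le_one₀ (abs_nonneg _) h
  linarith

theorem gg_norm {φ : ℝ} (h : |φ| ≤ 1) : ‖gg φ‖ ≤ 2 / 3 := by
  unfold gg
  rw [norm_neg, norm_inv]
  have := one_add_norm h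
  rw [inv_le_comm₀ (by linarith) (by norm_num)]
  linarith

theorem gg_sub {φ ψ : ℝ} (h : |φ| ≤ 1) (h' : |ψ| ≤ 1) : ‖gg φ - gg ψ‖ ≤ 4 / 9 * |φ - ψ| := by
  have a1 := one_add_norm h
  have a2 := one_add_norm h'
  set u : ℂ := 1 + Complex.exp (((-φ : ℝ) : ℂ) * Complex.I) with hu
  set v : ℂ := 1 + Complex.exp (((-ψ : ℝ) : ℂ) * Complex.I) with hv
  have hu0 : u ≠ 0 := norm_pos_iff.1 (by linarith)
  have hv0 : v ≠ 0 := norm_pos_iff.1 (by linarith)
  have e1 : gg φ - gg ψ = (u - v) / (u * v) := by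
    unfold gg
    rw [← hu, ← hv]
    field_simp
    ring
  have e2 : u - v = Complex.exp (((-ψ : ℝ) : ℂ) * Complex.I) *
      (Complex.exp (Complex.I * ((ψ - φ : ℝ) : ℂ)) - 1) := by
    rw [hu, hv, mul_sub, ← Complex.exp_add, mul_one]
    have : ((-ψ : ℝ) : ℂ) * Complex.I + Complex.I * ((ψ - φ : ℝ) : ℂ) =
        ((-φ : ℝ) : ℂ) * Complex.I := by
      push_cast
      ring
    rw [this]
    ring
  have e3 : ‖u - v‖ ≤ |φ - ψ| := by
    rw [e2, norm_mul, Complex.norm_exp_ofReal_mul_I, one_mul]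
    refine Real.norm_exp_I_mul_ofReal_sub_one_le.trans ?_
    rw [Real.norm_eq_abs, abs_sub_comm]
  rw [e1, norm_div, norm_mul, div_le_iff₀ (by positivity)]
  have h3 : 9 / 4 ≤ ‖u‖ * ‖v‖ := by nlinarith
  have h4 := abs_nonneg (φ - ψ)
  nlinarith

theorem cf_succ (t : ℝ) {n : ℕ} (hn : n ≠ 0) :
    cf t n = (cf t (n + 1) - cf t n) * gg (ph t n) ∨ 1 < |ph t n| := by
  rcases le_or_gt |ph t n| 1 with h | h
  swap
  · exact Or.inr h
  left
  have h1 := one_add_norm h
  set E : ℂ := Complex.exp (((-ph t n : ℝ) : ℂ) * Complex.I) with hE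
  have h2 : cf t (n + 1) = -(cf t n * E) := by
    unfold cf
    rw [if_neg (by omega), if_neg hn, cpow_eq t hn, cpow_eq t (Nat.succ_ne_zero n), hE,
      pow_succ (-1 : ℂ) (n + 1)]
    have : Complex.exp (-((t * Real.log ((n + 1 : ℕ) : ℝ) : ℝ) : ℂ) * Complex.I) =
        Complex.exp (-((t * Real.log n : ℝ) : ℂ) * Complex.I) *
          Complex.exp (((-ph t n : ℝ) : ℂ) * Complex.I) := by
      rw [← Complex.exp_add]
      congr 1
      unfold ph
      push_cast
      ring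
    rw [this]
    ring
  have h3 : (1 + E) ≠ 0 := norm_pos_iff.1 (by linarith)
  rw [h2]
  unfold gg
  rw [← hE]
  field_simp
  ring

theorem ph_abs (t : ℝ) {n : ℕ} (hn : n ≠ 0) : |ph t n| = |t| * Real.log (1 + 1 / n) := by
  have hn0 : (0 : ℝ) < n := by exact_mod_cast Nat.pos_of_ne_zero hn
  unfold ph
  rw [abs_mul]
  congr 1
  rw [← Real.log_div (by positivity) hn0.ne']
  have e : ((n : ℝ) + 1) / n = 1 + 1 / n := by field_simp
  rw [e, abs_of_nonneg (Real.log_nonneg (by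
    have : (0 : ℝ) < 1 / n := by positivity
    linarith))]

theorem ph_le {t : ℝ} {n : ℕ} (hn : n ≠ 0) (h : |t| ≤ n) : |ph t n| ≤ 1 := by
  have hn0 : (0 : ℝ) < n := by exact_mod_cast Nat.pos_of_ne_zero hn
  rw [ph_abs t hn]
  have h1 : Real.log (1 + 1 / (n : ℝ)) ≤ 1 / n := by
    have := Real.log_le_sub_one_of_pos (show (0 : ℝ) < 1 + 1 / n by positivity)
    linarith
  have h2 : 0 ≤ Real.log (1 + 1 / (n : ℝ)) := Real.log_nonneg (by
    have : (0 : ℝ) < 1 / n := by positivity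
    linarith)
  calc |t| * Real.log (1 + 1 / (n : ℝ)) ≤ n * (1 / n) := mul_le_mul h h1 h2 hn0.le
    _ = 1 := by field_simp

theorem ph_sub (t : ℝ) {n : ℕ} (hn : n ≠ 0) :
    |ph t n - ph t (n + 1)| = |ph t n| - |ph t (n + 1)| := by
  have hn0 : (0 : ℝ) < n := by exact_mod_cast Nat.pos_of_ne_zero hn
  have h1 : Real.log (1 + 1 / ((n + 1 : ℕ) : ℝ)) ≤ Real.log (1 + 1 / (n : ℝ)) := by
    refine Real.log_le_log (by positivity) ?_
    push_cast
    have : 1 / ((n : ℝ) + 1) ≤ 1 / n := one_div_le_one_div_of_le hn0 (by linarith)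
    linarith
  have h3 : ∀ m : ℕ, m ≠ 0 → ph t m = t * Real.log (1 + 1 / (m : ℝ)) := by
    intro m hm
    have hm0 : (0 : ℝ) < m := by exact_mod_cast Nat.pos_of_ne_zero hm
    unfold ph
    rw [← Real.log_div (by positivity) hm0.ne']
    congr 2
    field_simp
  rw [ph_abs t hn, ph_abs t (Nat.succ_ne_zero n), h3 n hn, h3 (n + 1) (Nat.succ_ne_zero n),
    ← mul_sub, abs_mul, abs_of_nonneg (sub_nonneg.2 h1), mul_sub]

/-- **the sums over `N < n ≤ m` are bounded, `N ≥ |t|`** -/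
theorem kl {t : ℝ} {N : ℕ} (hN : N ≠ 0) (h : |t| ≤ N) {m : ℕ} (hm : N ≤ m) :
    ‖∑ n ∈ Finset.Ico (N + 1) (m + 1), cf t n‖ ≤ 2 := by
  have key : ‖(∑ n ∈ Finset.Ico (N + 1) (m + 1), cf t n) - cf t (m + 1) * gg (ph t m)‖ ≤
      2 / 3 + 4 / 9 * (|ph t N| - |ph t m|) := by
    induction m, hm using Nat.le_induction with
    | base =>
      rw [Finset.Ico_self, Finset.sum_empty, zero_sub, norm_neg, norm_mul, sub_self, mul_zero,
        add_zero]
      have h1 := gg_norm (ph_le hN h)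
      calc ‖cf t (N + 1)‖ * ‖gg (ph t N)‖ ≤ 1 * (2 / 3) :=
            mul_le_mul (norm_cf_le _ _) h1 (norm_nonneg _) zero_le_one
        _ = _ := one_mul _
    | succ m hm ih =>
      have hm0 : m ≠ 0 := by omega
      have hmt : |t| ≤ m := h.trans (by exact_mod_cast hm)
      have hmt' : |t| ≤ ((m + 1 : ℕ) : ℝ) := h.trans (by exact_mod_cast (by omega : N ≤ m + 1))
      rw [Finset.sum_Ico_succ_top (by omega)]
      have h1 := (cf_succ t (Nat.succ_ne_zero m)).resolve_right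
        (not_lt.2 (ph_le (Nat.succ_ne_zero m) hmt'))
      have e : ∑ n ∈ Finset.Ico (N + 1) (m + 1), cf t n + cf t (m + 1) -
          cf t (m + 1 + 1) * gg (ph t (m + 1)) =
          (∑ n ∈ Finset.Ico (N + 1) (m + 1), cf t n - cf t (m + 1) * gg (ph t m)) +
            cf t (m + 1) * (gg (ph t m) - gg (ph t (m + 1))) := by
        have h2 : cf t (m + 1) - cf t (m + 1 + 1) * gg (ph t (m + 1)) =
            -(cf t (m + 1) * gg (ph t (m + 1))) := by
          nth_rewrite 1 [h1]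
          ring
        calc _ = ∑ n ∈ Finset.Ico (N + 1) (m + 1), cf t n +
              (cf t (m + 1) - cf t (m + 1 + 1) * gg (ph t (m + 1))) := by ring
          _ = _ := by rw [h2]; ring
      rw [e]
      have h5 : ‖cf t (m + 1) * (gg (ph t m) - gg (ph t (m + 1)))‖ ≤
          4 / 9 * (|ph t m| - |ph t (m + 1)|) := by
        rw [norm_mul]
        calc ‖cf t (m + 1)‖ * ‖gg (ph t m) - gg (ph t (m + 1))‖ ≤
            1 * (4 / 9 * |ph t m - ph t (m + 1)|) :=
              mul_le_mul (norm_cf_le _ _)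
                (gg_sub (ph_le hm0 hmt) (ph_le (Nat.succ_ne_zero m) hmt'))
                (norm_nonneg _) zero_le_one
          _ = _ := by rw [one_mul, ph_sub t hm0]
      refine (norm_add_le _ _).trans ?_
      linarith
  have hmt : |t| ≤ m := h.trans (by exact_mod_cast hm)
  have hm0 : m ≠ 0 := by omega
  have h1 : ‖cf t (m + 1) * gg (ph t m)‖ ≤ 2 / 3 := by
    rw [norm_mul]
    calc ‖cf t (m + 1)‖ * ‖gg (ph t m)‖ ≤ 1 * (2 / 3) :=
          mul_le_mul (norm_cf_le _ _) (gg_norm (ph_le hm0 hmt)) (norm_nonneg _) zero_le_one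
      _ = _ := one_mul _
  have h2 := ph_le hN h
  have h3 := abs_nonneg (ph t m)
  have h4 : ∑ n ∈ Finset.Ico (N + 1) (m + 1), cf t n =
      ((∑ n ∈ Finset.Ico (N + 1) (m + 1), cf t n) - cf t (m + 1) * gg (ph t m)) +
        cf t (m + 1) * gg (ph t m) := by ring
  rw [h4]
  refine (norm_add_le _ _).trans ?_
  linarith

end Pool.Agent.H564.LH
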