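import Pool.Agent.H564.LH.Down
import Pool.Agent.H564.LH.KL

/-! From the exponential sums up to `1 + |t|` to the size of zeta at one point. -/

set_option autoImplicit false

open MeasureTheory Filter Topology Set Complex

namespace Pool.Agent.H564.LH

open Pool.Agent.H564.SC (cont cont_diff cont_le cont_eq psum psum_meas psum_le)

/-- the length -/
noncomputable def len (t : ℝ) : ℕ := ⌊1 + |t|⌋₊

theorem len_pos (t : ℝ) : 1 ≤ len t :=
  (Nat.one_le_floor_iff _).2 (by linarith [abs_nonneg t])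

theorem abs_le_len (t : ℝ) : |t| ≤ len t := by
  have := Nat.lt_floor_add_one (1 + |t|)
  unfold len
  linarith

theorem len_le (t : ℝ) : (len t : ℝ) ≤ 1 + |t| := Nat.floor_le (by linarith [abs_nonneg t])

theorem icc_split {f : ℕ → ℂ} {N n : ℕ} (h : N ≤ n) : ∑ k ∈ Finset.Icc 1 n, f k =
    ∑ k ∈ Finset.Icc 1 N, f k + ∑ k ∈ Finset.Ico (N + 1) (n + 1), f k := by
  have e1 : Finset.Icc 1 n = Finset.Ico 1 (n + 1) := by
    ext k
    simp only [Finset.mem_Icc, Finset.mem_Ico]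
    omega
  have e2 : Finset.Icc 1 N = Finset.Ico 1 (N + 1) := by
    ext k
    simp only [Finset.mem_Icc, Finset.mem_Ico]
    omega
  rw [e1, e2, Finset.sum_Ico_consecutive _ (by omega) (by omega)]

theorem cf_partial (t : ℝ) (n : ℕ) :
    ‖∑ k ∈ Finset.Icc 1 n, cf t k‖ ≤ ((len t : ℝ) + 2) * (n : ℝ) ^ (0 : ℝ) := by
  rw [Real.rpow_zero, mul_one]
  have h1 : ∀ m : ℕ, m ≤ len t → ‖∑ k ∈ Finset.Icc 1 m, cf t k‖ ≤ len t := by
    intro m hm
    refine (norm_sum_le_of_le _ fun k _ => norm_cf_le t k).trans ?_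
    rw [Finset.sum_const, Nat.card_Icc, Nat.add_sub_cancel, nsmul_eq_mul, mul_one]
    exact_mod_cast hm
  rcases le_or_gt n (len t) with h | h
  · linarith [h1 n h]
  · rw [icc_split h.le]
    refine (norm_add_le _ _).trans (add_le_add (h1 _ le_rfl) ?_)
    exact kl (by have := len_pos t; omega) (abs_le_len t) h.le

theorem cf_summable (t : ℝ) {s : ℂ} (hs : 1 < s.re) : LSeriesSummable (cf t) s :=
  LSeriesSummable_of_bounded_of_one_lt_re (m := 1) (fun n _ => norm_cf_le t n) hs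

theorem cf_LSeries (t : ℝ) (s : ℂ) : LSeries (cf t) s = LSeries al (s + t * I) := by
  unfold LSeries
  refine tsum_congr fun n => ?_
  rcases Nat.eq_zero_or_pos n with rfl | hn
  · simp
  · rw [LSeries.term_of_ne_zero hn.ne', LSeries.term_of_ne_zero hn.ne']
    unfold cf al
    rw [if_neg hn.ne', div_eq_mul_inv, div_eq_mul_inv, ← Complex.cpow_neg, ← Complex.cpow_neg,
      mul_assoc]
    congr 1
    rw [← Complex.cpow_add _ _ (Nat.cast_ne_zero.2 hn.ne')]
    congr 1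
    ring

theorem E_shift (t : ℝ) {s : ℂ} (hs : 0 < s.re) : E (s + t * I) = cont (cf t) s := by
  have hre : ∀ z : ℂ, (z + t * I).re = z.re := fun z => by simp
  have ho : IsOpen {z : ℂ | 0 < z.re} := isOpen_lt continuous_const Complex.continuous_re
  have hB : 0 ≤ (len t : ℝ) + 2 := by positivity
  have h1 : AnalyticOnNhd ℂ (fun z : ℂ => E (z + t * I)) {z : ℂ | 0 < z.re} := by
    refine DifferentiableOn.analyticOnNhd (fun z hz => ?_) ho
    have h2 : DifferentiableAt ℂ E (z + t * I) := E_diff (by rw [hre]; exact hz)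
    exact (h2.comp z (differentiableAt_id.add_const _)).differentiableWithinAt
  have h2 : AnalyticOnNhd ℂ (cont (cf t)) {z : ℂ | 0 < z.re} :=
    DifferentiableOn.analyticOnNhd (fun z hz =>
      (cont_diff le_rfl hB (cf_partial t) hz).differentiableWithinAt) ho
  have hpre : IsPreconnected {z : ℂ | 0 < z.re} := (convex_halfSpace_re_gt 0).isPreconnected
  refine h1.eqOn_of_preconnected_of_eventuallyEq h2 hpre (z₀ := 2) (by simp) ?_ hs
  have ho1 : IsOpen {z : ℂ | 1 < z.re} := isOpen_lt continuous_const Complex.continuous_re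
  filter_upwards [ho1.mem_nhds (show (2 : ℂ) ∈ {z : ℂ | 1 < z.re} by simp)] with z hz
  have hz' : 1 < z.re := hz
  rw [← LSeries_al (by rw [hre]; exact hz'), ← cf_LSeries]
  exact cont_eq le_rfl hB (cf_partial t) (by linarith) (cf_summable t hz')

/-- **one point** -/
theorem point2 {y : ℝ} (hy0 : 0 ≤ y) (hy : y < 1 / 2) {e : ℝ} (he0 : 0 < e) (he2 : e ≤ 1 / 4)
    {t : ℝ} {K : ℝ} (hK0 : 0 ≤ K) (hC : ∀ x : ℝ, 1 ≤ x → x ≤ 1 + |t| →
      ‖∑ n ∈ Finset.range (⌊x⌋₊ + 1), cf t n‖ ≤ K * x ^ (1 / 2 + y + e)) :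
    ‖E (((1 / 2 + y : ℝ) : ℂ) + t * I)‖ ≤ (K + 2) / e * (1 + |t|) ^ (2 * e) := by
  set σ : ℝ := 1 / 2 + y with hσ
  have ha : 0 ≤ |t| := abs_nonneg t
  set N : ℕ := len t with hN
  have hN1 : 1 ≤ N := len_pos t
  have hN1' : (1 : ℝ) ≤ N := by exact_mod_cast hN1
  have hNX : (N : ℝ) ≤ 1 + |t| := len_le t
  have hr0 : 0 ≤ σ - e := by rw [hσ]; linarith
  have hg : ∀ n : ℕ, ‖∑ k ∈ Finset.Icc 1 n, tr N (cf t) k‖ ≤
      (K * (N : ℝ) ^ (2 * e)) * (n : ℝ) ^ (σ - e) := by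
    intro n
    rw [tr_sum]
    set m : ℕ := min n N with hm
    rcases Nat.eq_zero_or_pos m with h0 | h0
    · rw [h0]
      simp only [Finset.Icc_eq_empty_of_lt (show 0 < 1 by norm_num), Finset.sum_empty, norm_zero]
      positivity
    · have hm1 : (1 : ℝ) ≤ m := by exact_mod_cast h0
      have hmN : (m : ℝ) ≤ N := by exact_mod_cast min_le_right n N
      have hmn : (m : ℝ) ≤ n := by exact_mod_cast min_le_left n N
      have h2 := hC m hm1 (hmN.trans hNX)
      rw [Nat.floor_natCast] at h2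
      have e1 : ∑ k ∈ Finset.Icc 1 m, cf t k = ∑ k ∈ Finset.range (m + 1), cf t k := by
        rw [Finset.range_eq_Ico, Finset.sum_eq_sum_Ico_succ_bot (Nat.succ_pos m), cf_zero, zero_add]
        refine Finset.sum_congr ?_ fun _ _ => rfl
        ext k
        simp only [Finset.mem_Icc, Finset.mem_Ico]
        omega
      rw [e1]
      have e2 : (m : ℝ) ^ (σ + e) = (m : ℝ) ^ (2 * e) * (m : ℝ) ^ (σ - e) := by
        rw [← Real.rpow_add (by linarith)]
        congr 1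
        ring
      have h2' : ‖∑ n ∈ Finset.range (m + 1), cf t n‖ ≤
          K * ((m : ℝ) ^ (2 * e) * (m : ℝ) ^ (σ - e)) := by
        rw [← e2]
        exact h2
      refine h2'.trans ?_
      rw [mul_assoc K]
      refine mul_le_mul_of_nonneg_left ?_ hK0
      exact mul_le_mul (Real.rpow_le_rpow (by linarith) hmN (by linarith))
        (Real.rpow_le_rpow (by linarith) hmn (by linarith)) (by positivity) (by positivity)
  have hσ0 : 0 < σ := by rw [hσ]; linarith
  have h1 := cont_le hr0 (by positivity) hg (s := ((σ : ℝ) : ℂ)) (by rw [Complex.ofReal_re]; linarith)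
  have hq : ∀ n : ℕ, ‖∑ k ∈ Finset.Icc 1 n, (cf t k - tr N (cf t) k)‖ ≤
      2 * (n : ℝ) ^ (σ - e) := by
    intro n
    rw [Finset.sum_sub_distrib, tr_sum]
    rcases le_or_gt n N with h3 | h3
    · rw [min_eq_left h3, sub_self, norm_zero]
      positivity
    · rw [min_eq_right h3.le, icc_split h3.le, add_sub_cancel_left]
      have h4 := kl (t := t) (by omega) (abs_le_len t) h3.le
      have h5 : (1 : ℝ) ≤ n := by exact_mod_cast (by omega : 1 ≤ n)
      have h6 : 1 ≤ (n : ℝ) ^ (σ - e) := Real.one_le_rpow h5 hr0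
      exact h4.trans (by linarith)
  have h3 := cont_le hr0 (by norm_num) hq (s := ((σ : ℝ) : ℂ)) (by rw [Complex.ofReal_re]; linarith)
  rw [Complex.ofReal_re, Complex.norm_real, Real.norm_of_nonneg hσ0.le, sub_sub_cancel] at h1 h3
  have h4 : cont (cf t) ((σ : ℝ) : ℂ) = cont (tr N (cf t)) ((σ : ℝ) : ℂ) +
      cont (fun k => cf t k - tr N (cf t) k) ((σ : ℝ) : ℂ) :=
    cont_add hr0 (by positivity) (by norm_num) hg hq (fun n => by ring)
      (by rw [Complex.ofReal_re]; linarith)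
  rw [E_shift t (by rw [Complex.ofReal_re]; exact hσ0), h4]
  refine (norm_add_le _ _).trans ((add_le_add h1 h3).trans ?_)
  have ht1 : (1 : ℝ) ≤ 1 + |t| := by linarith
  have b1 : (N : ℝ) ^ (2 * e) ≤ (1 + |t|) ^ (2 * e) :=
    Real.rpow_le_rpow (by linarith) hNX (by linarith)
  have b2 : 1 ≤ (1 + |t|) ^ (2 * e) := Real.one_le_rpow ht1 (by linarith)
  have b3 : σ ≤ 1 := by rw [hσ]; linarith
  calc σ * (K * (N : ℝ) ^ (2 * e) / e) + σ * (2 / e) ≤
      1 * (K * (1 + |t|) ^ (2 * e) / e) + 1 * (2 * (1 + |t|) ^ (2 * e) / e) := by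
        refine add_le_add (mul_le_mul b3 ?_ (by positivity) zero_le_one)
          (mul_le_mul b3 ?_ (by positivity) zero_le_one)
        · exact div_le_div_of_nonneg_right (mul_le_mul_of_nonneg_left b1 hK0) he0.le
        · exact div_le_div_of_nonneg_right (by linarith) he0.le
    _ = _ := by ring

theorem down {y κ : ℝ} (hy0 : 0 ≤ y) (hy : y < 1 / 2) (hκ : 0 ≤ κ)
    (h : ∀ ε : ℝ, 0 < ε → ∃ C : ℝ, 0 ≤ C ∧ ∀ t x : ℝ, 1 ≤ x → x ≤ 1 + |t| →
      ‖∑ n ∈ Finset.range (⌊x⌋₊ + 1), cf t n‖ ≤ C * (1 + |t|) ^ (κ + ε) * x ^ (1 / 2 + y + ε)) :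
    GrowthE y κ := by
  intro ε hε
  set e : ℝ := min (ε / 3) (1 / 4) with he
  have he0 : 0 < e := lt_min (by positivity) (by norm_num)
  have he1 : e ≤ ε / 3 := min_le_left _ _
  have he2 : e ≤ 1 / 4 := min_le_right _ _
  obtain ⟨C, hC0, hC⟩ := h e he0
  refine ⟨(C + 2) / e, by positivity, fun s hs => ?_⟩
  have h1 := point2 hy0 hy he0 he2 (t := s.im) (K := C * (1 + |s.im|) ^ (κ + e)) (by positivity)
    (hC s.im)
  have e1 : (((1 / 2 + y : ℝ) : ℂ) + (s.im : ℂ) * I) = s := by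
    apply Complex.ext
    · simp [hs]
    · simp
  rw [e1] at h1
  have ht1 : (1 : ℝ) ≤ 1 + |s.im| := by linarith [abs_nonneg s.im]
  have h2 : 1 ≤ (1 + |s.im|) ^ (κ + e) := Real.one_le_rpow ht1 (by linarith)
  refine h1.trans ?_
  calc (C * (1 + |s.im|) ^ (κ + e) + 2) / e * (1 + |s.im|) ^ (2 * e) ≤
      ((C + 2) * (1 + |s.im|) ^ (κ + e)) / e * (1 + |s.im|) ^ (2 * e) := by
        refine mul_le_mul_of_nonneg_right (div_le_div_of_nonneg_right ?_ he0.le) (by positivity)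
        linarith
    _ = (C + 2) / e * ((1 + |s.im|) ^ (κ + e) * (1 + |s.im|) ^ (2 * e)) := by ring
    _ = (C + 2) / e * (1 + |s.im|) ^ (κ + 3 * e) := by
        rw [← Real.rpow_add (by linarith)]
        congr 2
        ring
    _ ≤ _ := by
        refine mul_le_mul_of_nonneg_left ?_ (by positivity)
        exact Real.rpow_le_rpow_of_exponent_le ht1 (by linarith)

/-- the sums up to `x > 1 + |t|` -/
theorem long {t x K y ε : ℝ} (hx : 1 + |t| < x) (hε : 0 < ε) (hy0 : 0 ≤ y) (hK : 0 ≤ K)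
    (h : ∀ x : ℝ, 1 ≤ x → x ≤ 1 + |t| →
      ‖∑ n ∈ Finset.range (⌊x⌋₊ + 1), cf t n‖ ≤ K * x ^ (1 / 2 + y + ε)) :
    ‖∑ n ∈ Finset.range (⌊x⌋₊ + 1), cf t n‖ ≤ (K + 2) * x ^ (1 / 2 + y + ε) := by
  have ht := abs_nonneg t
  have h1 := h (1 + |t|) (by linarith) le_rfl
  have hle : len t ≤ ⌊x⌋₊ := Nat.floor_le_floor hx.le
  have e1 : ∑ n ∈ Finset.range (⌊x⌋₊ + 1), cf t n = ∑ n ∈ Finset.range (len t + 1), cf t n +
      ∑ n ∈ Finset.Ico (len t + 1) (⌊x⌋₊ + 1), cf t n :=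
    (Finset.sum_range_add_sum_Ico _ (by omega)).symm
  rw [e1]
  have h2 := kl (t := t) (N := len t) (by have := len_pos t; omega) (abs_le_len t) hle
  have h3 : (1 + |t|) ^ (1 / 2 + y + ε) ≤ x ^ (1 / 2 + y + ε) :=
    Real.rpow_le_rpow (by linarith) hx.le (by linarith)
  have h4 : 1 ≤ x ^ (1 / 2 + y + ε) := Real.one_le_rpow (by linarith) (by linarith)
  refine (norm_add_le _ _).trans ((add_le_add h1 h2).trans ?_)
  have h5 := mul_le_mul_of_nonneg_left h3 hK
  calc K * (1 + |t|) ^ (1 / 2 + y + ε) + 2 ≤ K * x ^ (1 / 2 + y + ε) + 2 * x ^ (1 / 2 + y + ε) := by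
        linarith
    _ = _ := by ring

end Pool.Agent.H564.LH
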