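import Pool.Agent.H564.SC.Cont

/-! The alternating zeta function. -/

set_option autoImplicit false

open MeasureTheory Filter Topology Set Complex

namespace Pool.Agent.H564.LH

open Pool.Agent.H564.SC (cont cont_diff cont_le cont_eq)

/-- the alternating coefficients -/
noncomputable def al (n : ℕ) : ℂ := (-1) ^ (n + 1)

/-- the alternating zeta function -/
noncomputable def E : ℂ → ℂ := cont al

theorem al_sum (n : ℕ) : ∑ k ∈ Finset.Icc 1 n, al k = if Even n then 0 else 1 := by
  induction n with
  | zero => simp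
  | succ n ih =>
    rw [Finset.sum_Icc_succ_top (by omega), ih]
    unfold al
    rcases Nat.even_or_odd n with h | h
    · have h2 : ¬ Even (n + 1) := by
        rw [Nat.not_even_iff_odd]
        exact h.add_one
      have h3 : Even (n + 1 + 1) := by
        rw [Nat.even_add_one, Nat.even_add_one]
        simpa using h
      rw [if_pos h, if_neg h2, h3.neg_one_pow]
      ring
    · have h1 : ¬ Even n := Nat.not_even_iff_odd.2 h
      have h2 : Even (n + 1) := h.add_one
      have h3 : Odd (n + 1 + 1) := h2.add_one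
      rw [if_neg h1, if_pos h2, h3.neg_one_pow]
      ring

theorem al_partial (n : ℕ) : ‖∑ k ∈ Finset.Icc 1 n, al k‖ ≤ 1 * (n : ℝ) ^ (0 : ℝ) := by
  rw [al_sum, Real.rpow_zero, mul_one]
  split_ifs <;> simp

theorem E_diff {s : ℂ} (hs : 0 < s.re) : DifferentiableAt ℂ E s :=
  cont_diff le_rfl zero_le_one al_partial hs

theorem E_le {s : ℂ} (hs : 0 < s.re) : ‖E s‖ ≤ ‖s‖ * (1 / s.re) := by
  have := cont_le le_rfl zero_le_one al_partial hs
  rwa [sub_zero] at this

theorem al_norm (n : ℕ) : ‖al n‖ = 1 := by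
  unfold al
  rw [norm_pow, norm_neg, norm_one, one_pow]

theorem al_summable {s : ℂ} (hs : 1 < s.re) : LSeriesSummable al s :=
  LSeriesSummable_of_bounded_of_one_lt_re (m := 1) (fun n _ => (al_norm n).le) hs

theorem LSeries_al {s : ℂ} (hs : 1 < s.re) : LSeries al s = E s :=
  cont_eq le_rfl zero_le_one al_partial (by linarith) (al_summable hs)

theorem LSeries_al_zeta {s : ℂ} (hs : 1 < s.re) :
    LSeries al s = (1 - 2 ^ (1 - s)) * riemannZeta s := by
  have hs1 : LSeriesSummable 1 s := LSeriesSummable_one_iff.2 hs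
  have h1 : LSeries 1 s = riemannZeta s := LSeries_one_eq_riemannZeta hs
  set f : ℕ → ℂ := fun n => LSeries.term 1 s n with hf
  set g : ℕ → ℂ := fun n => if Even n then LSeries.term 1 s n else 0 with hg
  have hfs : Summable f := hs1
  have hgs : HasSum g ((2 : ℂ) ^ (-s) * riemannZeta s) := by
    have hinj : Function.Injective fun m : ℕ => 2 * m := fun a b h => by
      simp only at h
      omega
    have h2 : ∀ m : ℕ, g (2 * m) = (2 : ℂ) ^ (-s) * f m := by
      intro m
      simp only [hg, hf]
      rw [if_pos (even_two_mul m)]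
      rcases Nat.eq_zero_or_pos m with rfl | hm
      · simp
      · rw [LSeries.term_of_ne_zero (by omega), LSeries.term_of_ne_zero hm.ne']
        rw [Nat.cast_mul, Complex.natCast_mul_natCast_cpow, Complex.cpow_neg]
        simp only [Pi.one_apply, Nat.cast_ofNat]
        rw [one_div, mul_inv, one_div]
    have h3 : HasSum (fun m : ℕ => g (2 * m)) ((2 : ℂ) ^ (-s) * riemannZeta s) := by
      simp only [h2]
      rw [← h1]
      exact hfs.hasSum.mul_left _
    refine (hinj.hasSum_iff ?_).1 h3
    intro n hn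
    simp only [hg]
    rw [if_neg]
    rintro ⟨k, hk⟩
    exact hn ⟨k, by simp only; omega⟩
  have h4 : ∀ n, LSeries.term al s n = f n - 2 * g n := by
    intro n
    simp only [hf, hg]
    rcases Nat.eq_zero_or_pos n with rfl | hn
    · simp
    · rw [LSeries.term_of_ne_zero hn.ne', LSeries.term_of_ne_zero hn.ne']
      unfold al
      split_ifs with h
      · have h3 : Odd (n + 1) := h.add_one
        rw [h3.neg_one_pow]
        simp only [Pi.one_apply]
        ring
      · have h3 : Even (n + 1) := (Nat.not_even_iff_odd.1 h).add_one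
        rw [h3.neg_one_pow]
        simp only [Pi.one_apply]
        ring
  unfold LSeries
  rw [tsum_congr h4, hfs.tsum_sub (hgs.summable.mul_left 2), tsum_mul_left, hgs.tsum_eq]
  have h5 : ∑' n, f n = riemannZeta s := h1
  rw [h5, show (1 : ℂ) - s = 1 + -s by ring, Complex.cpow_add _ _ two_ne_zero, Complex.cpow_one]
  ring

/-- the function on `ℤ/2` -/
noncomputable def Phi (j : ZMod 2) : ℂ := if j = 0 then -1 else 1

theorem Phi_sum : ∑ j : ZMod 2, Phi j = 0 := by
  have : (Finset.univ : Finset (ZMod 2)) = {0, 1} := by decide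
  rw [this, Finset.sum_pair (by decide)]
  simp [Phi]

theorem Phi_cast (n : ℕ) : Phi (n : ZMod 2) = al n := by
  unfold Phi al
  rcases Nat.even_or_odd n with h | h
  · rw [if_pos ((ZMod.natCast_eq_zero_iff_even).2 h), (h.add_one).neg_one_pow]
  · rw [if_neg, (h.add_one).neg_one_pow]
    intro h2
    exact (Nat.not_even_iff_odd.2 h) ((ZMod.natCast_eq_zero_iff_even).1 h2)

theorem LF_eq_E {s : ℂ} (hs : 0 < s.re) : ZMod.LFunction Phi s = E s := by
  have ho : IsOpen {z : ℂ | 0 < z.re} := isOpen_lt continuous_const Complex.continuous_re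
  have h1 : AnalyticOnNhd ℂ (ZMod.LFunction Phi) {z : ℂ | 0 < z.re} :=
    (ZMod.differentiable_LFunction_of_sum_zero Phi_sum).differentiableOn.analyticOnNhd ho
  have h2 : AnalyticOnNhd ℂ E {z : ℂ | 0 < z.re} :=
    DifferentiableOn.analyticOnNhd (fun z hz => (E_diff hz).differentiableWithinAt) ho
  have hpre : IsPreconnected {z : ℂ | 0 < z.re} := (convex_halfSpace_re_gt 0).isPreconnected
  refine h1.eqOn_of_preconnected_of_eventuallyEq h2 hpre (z₀ := 2) (by simp) ?_ hs
  have ho1 : IsOpen {z : ℂ | 1 < z.re} := isOpen_lt continuous_const Complex.continuous_re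
  filter_upwards [ho1.mem_nhds (show (2 : ℂ) ∈ {z : ℂ | 1 < z.re} by simp)] with z hz
  have hz' : 1 < z.re := hz
  rw [ZMod.LFunction_eq_LSeries Phi hz', ← LSeries_al hz']
  congr 1
  funext n
  exact Phi_cast n

theorem LF_eq_zeta {s : ℂ} (hs : s ≠ 1) :
    ZMod.LFunction Phi s = (1 - 2 ^ (1 - s)) * riemannZeta s := by
  have ho : IsOpen ({1}ᶜ : Set ℂ) := isOpen_compl_singleton
  have h1 : AnalyticOnNhd ℂ (ZMod.LFunction Phi) ({1}ᶜ : Set ℂ) :=
    (ZMod.differentiable_LFunction_of_sum_zero Phi_sum).differentiableOn.analyticOnNhd ho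
  have h2 : AnalyticOnNhd ℂ (fun s => (1 - 2 ^ (1 - s)) * riemannZeta s) ({1}ᶜ : Set ℂ) := by
    refine DifferentiableOn.analyticOnNhd (fun z hz => ?_) ho
    have h3 : DifferentiableAt ℂ riemannZeta z := differentiableAt_riemannZeta hz
    have h4 : DifferentiableAt ℂ (fun s : ℂ => (1 : ℂ) - 2 ^ (1 - s)) z := by
      refine (differentiableAt_const _).sub ?_
      exact (differentiableAt_id.const_sub 1).const_cpow (Or.inl two_ne_zero)
    exact (h4.mul h3).differentiableWithinAt
  have hpre : IsPreconnected ({1}ᶜ : Set ℂ) :=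
    (isConnected_compl_singleton_of_one_lt_rank (by simp) 1).isPreconnected
  refine h1.eqOn_of_preconnected_of_eventuallyEq h2 hpre (z₀ := 2) (by simp) ?_ hs
  have ho1 : IsOpen {z : ℂ | 1 < z.re} := isOpen_lt continuous_const Complex.continuous_re
  filter_upwards [ho1.mem_nhds (show (2 : ℂ) ∈ {z : ℂ | 1 < z.re} by simp)] with z hz
  have hz' : 1 < z.re := hz
  rw [← LSeries_al_zeta hz', LSeries_al hz', LF_eq_E (by linarith)]

/-- **the alternating zeta function** -/
theorem E_zeta {s : ℂ} (hs : 0 < s.re) (h1 : s ≠ 1) : E s = (1 - 2 ^ (1 - s)) * riemannZeta s := by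
  rw [← LF_eq_E hs, LF_eq_zeta h1]

end Pool.Agent.H564.LH
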