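import Pool.Agent.H564.LH.Grid

/-! The noise of a sparse random sample of the integers is large infinitely often. -/

set_option autoImplicit false

namespace Pool.Agent.H564.LH

open Finset Filter Topology MeasureTheory ProbabilityTheory
open Pool.Agent.H564.BSD (wt)
open Pool.Agent.H564.SP (noise_lower)

variable {Ω : Type*} [mΩ : MeasurableSpace Ω] {μ : Measure Ω} [IsProbabilityMeasure μ]
  {A : ℕ → Set Ω} {δ : ℕ → ℝ} {η : ℝ}

theorem core (hA : ∀ p, MeasurableSet (A p)) (hind : iIndepSet A μ)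
    (hδ0 : ∀ p, 0 < δ p) (hδ1 : ∀ p, δ p ≤ 1) (hμ : ∀ p, μ (A p) = ENNReal.ofReal (δ p))
    (hη : 0 < η) (hd : Dens δ η) {v : ℕ → ℝ} (hv : ∀ i, |v i| ≤ 1)
    (hvp : v 0 = 0) {a : ℕ → ℝ} {e : ℝ} (he : 0 < e) (he1 : 16 * e ≤ 1 - 2 * η)
    (heη : e ≤ η)
    (h : ∃ᶠ n : ℕ in atTop, (n : ℝ) ^ (1 - e) / 2 ≤ ∑ i ∈ range n, v i ^ 2 ∧ 0 ≤ a n) :
    ∀ᵐ ω ∂μ, ∃ᶠ n : ℕ in atTop, 1 / 2 * (n : ℝ) ^ (1 / 2 + η - 3 * e) ≤
      a n + ∑ i ∈ range n, (wt A δ ω i - 1) * v i := by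
  obtain ⟨m, hm, hmP⟩ := exists_seq_forall_of_frequently h
  have hmR : Tendsto (fun j => (m j : ℝ)) atTop atTop := tendsto_natCast_atTop_atTop.comp hm
  obtain ⟨C, hC0, hC⟩ := hd.inv_le hδ0 hη.le he
  obtain ⟨N, hN⟩ := eventually_atTop.1 (hd e he)
  have hη2 : η < 1 / 2 := by linarith
  have hvar : ∀ᶠ j in atTop, 100 * (m j : ℝ) ^ (1 + 2 * η - 6 * e) ≤
      ∑ i ∈ range (m j), v i ^ 2 * (1 / δ i - 1) := by
    have hg1 : 0 < (1 - 3 * e) * (2 * η - e) := by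
      have : 0 < 1 - 3 * e := by linarith
      have : 0 < 2 * η - e := by linarith
      positivity
    filter_upwards [(tendsto_rpow_atTop (show 0 < 1 - 3 * e by linarith)).comp hmR |>.eventually_ge_atTop
        (N + 2 : ℝ), ((tendsto_rpow_atTop hg1).comp hmR).eventually_ge_atTop 2,
      ((tendsto_rpow_atTop he).comp hmR).eventually_ge_atTop 800,
      hmR.eventually_ge_atTop 16] with j h1 h2 h3 h4
    simp only [Function.comp_apply] at h1 h2 h3
    have hn0 : (0 : ℝ) < m j := by linarith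
    have hn1 : (1 : ℝ) ≤ m j := by linarith
    have hterm : ∀ i ∈ range (m j), (m j : ℝ) ^ (1 - 3 * e) ≤ i →
        v i ^ 2 * (1 / 2 * (m j : ℝ) ^ ((1 - 3 * e) * (2 * η - e))) ≤ v i ^ 2 * (1 / δ i - 1) := by
      intro i hi hi2
      rcases Nat.eq_zero_or_pos i with rfl | hp
      · rw [hvp]; norm_num
      have hi0 : (0 : ℝ) < i := by exact_mod_cast hp
      have hNi : N ≤ i := by
        have : (N : ℝ) ≤ i := by linarith
        exact_mod_cast this
      have h8 := (hN i hNi).2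
      have h9 : (m j : ℝ) ^ ((1 - 3 * e) * (2 * η - e)) ≤ 1 / δ i := by
        rw [le_div_iff₀ (hδ0 i)]
        have h10 : (m j : ℝ) ^ ((1 - 3 * e) * (2 * η - e)) ≤ (i : ℝ) ^ (2 * η - e) := by
          rw [Real.rpow_mul hn0.le]
          exact Real.rpow_le_rpow (by positivity) hi2 (by linarith)
        calc (m j : ℝ) ^ ((1 - 3 * e) * (2 * η - e)) * δ i
            ≤ (i : ℝ) ^ (2 * η - e) * (i : ℝ) ^ (-(2 * η) + e) :=
              mul_le_mul h10 h8 (hδ0 i).le (by positivity)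
          _ = 1 := by
              rw [← Real.rpow_add hi0, show 2 * η - e + (-(2 * η) + e) = 0 by ring,
                Real.rpow_zero]
      exact mul_le_mul_of_nonneg_left (by linarith) (sq_nonneg _)
    have hterm0 : ∀ i ∈ range (m j), 0 ≤ v i ^ 2 * (1 / δ i - 1) := by
      intro i _
      refine mul_nonneg (sq_nonneg _) ?_
      have h5 : 1 ≤ 1 / δ i := by rw [le_div_iff₀ (hδ0 i)]; linarith [hδ1 i]
      linarith
    set s₁ := (range (m j)).filter fun i : ℕ => (m j : ℝ) ^ (1 - 3 * e) ≤ i with hs₁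
    have h5 : ∑ i ∈ range (m j), v i ^ 2 ≤ ∑ i ∈ s₁, v i ^ 2 + ((m j : ℝ) ^ (1 - 3 * e) + 1) := by
      rw [← sum_filter_add_sum_filter_not (range (m j)) (fun i : ℕ => (m j : ℝ) ^ (1 - 3 * e) ≤ i)]
      refine add_le_add le_rfl ?_
      have h6 : ∀ i ∈ (range (m j)).filter (fun i : ℕ => ¬ (m j : ℝ) ^ (1 - 3 * e) ≤ i),
          v i ^ 2 ≤ 1 := by
        intro i _
        rw [← sq_abs]
        exact pow_le_one₀ (abs_nonneg _) (hv i)
      refine (sum_le_card_nsmul _ _ _ h6).trans ?_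
      rw [nsmul_eq_mul, mul_one]
      have h7 : (range (m j)).filter (fun i : ℕ => ¬ (m j : ℝ) ^ (1 - 3 * e) ≤ i) ⊆
          range (⌊(m j : ℝ) ^ (1 - 3 * e)⌋₊ + 1) := by
        intro i hi
        rw [mem_filter, not_le] at hi
        rw [mem_range]
        exact Nat.lt_succ_iff.2 (Nat.le_floor hi.2.le)
      have h8 := card_le_card h7
      rw [card_range] at h8
      have h9 : (((range (m j)).filter (fun i : ℕ => ¬ (m j : ℝ) ^ (1 - 3 * e) ≤ i)).card : ℝ) ≤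
          ((⌊(m j : ℝ) ^ (1 - 3 * e)⌋₊ + 1 : ℕ) : ℝ) := by exact_mod_cast h8
      push_cast at h9
      linarith [Nat.floor_le (show 0 ≤ (m j : ℝ) ^ (1 - 3 * e) by positivity)]
    have h6 : (m j : ℝ) ^ (1 - 3 * e) + 1 ≤ (m j : ℝ) ^ (1 - e) / 4 := by
      have a1 : (m j : ℝ) ^ (1 - e) = (m j : ℝ) ^ (1 - 3 * e) * ((m j : ℝ) ^ e * (m j : ℝ) ^ e) := by
        rw [← Real.rpow_add hn0, ← Real.rpow_add hn0]
        congr 1
        ring
      have a2 : 1 ≤ (m j : ℝ) ^ (1 - 3 * e) := Real.one_le_rpow hn1 (by linarith)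
      have a3 : 8 ≤ (m j : ℝ) ^ e * (m j : ℝ) ^ e := by nlinarith
      have a4 : (m j : ℝ) ^ (1 - 3 * e) * 8 ≤
          (m j : ℝ) ^ (1 - 3 * e) * ((m j : ℝ) ^ e * (m j : ℝ) ^ e) :=
        mul_le_mul_of_nonneg_left a3 (by linarith)
      rw [a1]
      linarith
    have h7 : (m j : ℝ) ^ (1 - e) / 4 ≤ ∑ i ∈ s₁, v i ^ 2 := by
      have := (hmP j).1
      linarith
    calc 100 * (m j : ℝ) ^ (1 + 2 * η - 6 * e)
        ≤ ((m j : ℝ) ^ e / 8) * (m j : ℝ) ^ (1 + 2 * η - 6 * e) :=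
          mul_le_mul_of_nonneg_right (by linarith) (by positivity)
      _ = 1 / 8 * (m j : ℝ) ^ (1 + 2 * η - 5 * e) := by
          have : (m j : ℝ) ^ (1 + 2 * η - 5 * e) = (m j : ℝ) ^ e * (m j : ℝ) ^ (1 + 2 * η - 6 * e) := by
            rw [← Real.rpow_add hn0]
            congr 1
            ring
          rw [this]
          ring
      _ ≤ 1 / 8 * (m j : ℝ) ^ ((1 - e) + (1 - 3 * e) * (2 * η - e)) := by
          refine mul_le_mul_of_nonneg_left ?_ (by norm_num)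
          refine Real.rpow_le_rpow_of_exponent_le hn1 ?_
          nlinarith
      _ = ((m j : ℝ) ^ (1 - e) / 4) * (1 / 2 * (m j : ℝ) ^ ((1 - 3 * e) * (2 * η - e))) := by
          rw [Real.rpow_add hn0]
          ring
      _ ≤ (∑ i ∈ s₁, v i ^ 2) * (1 / 2 * (m j : ℝ) ^ ((1 - 3 * e) * (2 * η - e))) :=
          mul_le_mul_of_nonneg_right h7 (by positivity)
      _ = ∑ i ∈ s₁, v i ^ 2 * (1 / 2 * (m j : ℝ) ^ ((1 - 3 * e) * (2 * η - e))) := by
          rw [sum_mul]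
      _ ≤ ∑ i ∈ s₁, v i ^ 2 * (1 / δ i - 1) := by
          refine sum_le_sum fun i hi => ?_
          rw [hs₁, mem_filter] at hi
          exact hterm i hi.1 hi.2
      _ ≤ _ := sum_le_sum_of_subset_of_nonneg (filter_subset _ _) fun i hi _ => hterm0 i hi
  have hfour : ∀ᶠ j in atTop, ∑ i ∈ range (m j), v i ^ 4 / δ i ^ 3 ≤
      (100 * (m j : ℝ) ^ (1 + 2 * η - 6 * e)) ^ 2 := by
    have hg : 0 < 1 - 2 * η - 15 * e := by linarith
    filter_upwards [((tendsto_rpow_atTop hg).comp hmR).eventually_ge_atTop (C ^ 3),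
      hmR.eventually_ge_atTop 1] with j h1 h2
    simp only [Function.comp_apply] at h1
    have hn0 : (0 : ℝ) < m j := by linarith
    have hterm : ∀ i ∈ range (m j), v i ^ 4 / δ i ^ 3 ≤ C ^ 3 * (m j : ℝ) ^ (3 * (2 * η + e)) := by
      intro i hi
      rw [mem_range] at hi
      have h3 : (1 / δ i) ^ 3 ≤ (C * ((i : ℝ) + 1) ^ (2 * η + e)) ^ 3 :=
        pow_le_pow_left₀ (one_div_pos.2 (hδ0 i)).le (hC i) 3
      have h4 : ((i : ℝ) + 1) ^ (2 * η + e) ≤ (m j : ℝ) ^ (2 * η + e) :=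
        Real.rpow_le_rpow (by positivity) (by exact_mod_cast hi) (by linarith)
      have h5 : v i ^ 4 ≤ 1 := by
        have := pow_le_one₀ (n := 4) (abs_nonneg _) (hv i)
        rwa [show |v i| ^ 4 = v i ^ 4 by
          rw [show (4 : ℕ) = 2 * 2 by norm_num, pow_mul, pow_mul, sq_abs]] at this
      calc v i ^ 4 / δ i ^ 3 = v i ^ 4 * (1 / δ i) ^ 3 := by rw [one_div, inv_pow, div_eq_mul_inv]
        _ ≤ 1 * (C * ((i : ℝ) + 1) ^ (2 * η + e)) ^ 3 :=
            mul_le_mul h5 h3 (by have := hδ0 i; positivity) zero_le_one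
        _ ≤ (C * (m j : ℝ) ^ (2 * η + e)) ^ 3 := by
            rw [one_mul]
            exact pow_le_pow_left₀ (by positivity) (mul_le_mul_of_nonneg_left h4 hC0.le) 3
        _ = C ^ 3 * (m j : ℝ) ^ (3 * (2 * η + e)) := by
            rw [mul_pow, ← Real.rpow_natCast ((m j : ℝ) ^ (2 * η + e)) 3, ← Real.rpow_mul hn0.le]
            congr 2
            push_cast
            ring
    refine (sum_le_card_nsmul _ _ _ hterm).trans ?_
    rw [card_range, nsmul_eq_mul]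
    calc (m j : ℝ) * (C ^ 3 * (m j : ℝ) ^ (3 * (2 * η + e)))
        = C ^ 3 * ((m j : ℝ) ^ (1 : ℝ) * (m j : ℝ) ^ (3 * (2 * η + e))) := by
          rw [Real.rpow_one]; ring
      _ = C ^ 3 * (m j : ℝ) ^ (1 + 3 * (2 * η + e)) := by rw [Real.rpow_add hn0]
      _ ≤ (m j : ℝ) ^ (1 - 2 * η - 15 * e) * (m j : ℝ) ^ (1 + 3 * (2 * η + e)) :=
          mul_le_mul_of_nonneg_right h1 (by positivity)
      _ = ((m j : ℝ) ^ (1 + 2 * η - 6 * e)) ^ 2 := by
          rw [← Real.rpow_add hn0, ← Real.rpow_natCast, ← Real.rpow_mul hn0.le]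
          congr 1
          push_cast
          ring
      _ ≤ (100 * (m j : ℝ) ^ (1 + 2 * η - 6 * e)) ^ 2 := by
          rw [mul_pow]
          have : 0 ≤ ((m j : ℝ) ^ (1 + 2 * η - 6 * e)) ^ 2 := by positivity
          linarith
  have hb : Tendsto (fun j => (m j : ℝ) ^ (1 / 2 + η - 3 * e)) atTop atTop :=
    (tendsto_rpow_atTop (by linarith)).comp hmR
  have h1 := noise_lower (μ := μ) (m := m) (c := fun _ i => v i) (C := fun _ => 1) (κ := 1)
    hA hind hδ0 hδ1 hμ (fun _ i => hv i) hb one_pos ?_ ?_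
  · filter_upwards [h1] with ω hω
    have h2 := hω (1 / 2) (by norm_num)
    refine hm.frequently (p := fun n : ℕ => 1 / 2 * (n : ℝ) ^ (1 / 2 + η - 3 * e) ≤
      a n + ∑ i ∈ range n, (wt A δ ω i - 1) * v i) (h2.mono fun j hj => ?_)
    have := (hmP j).2
    linarith
  · filter_upwards [hvar, hmR.eventually_gt_atTop 0] with j h2 h3
    refine le_trans (le_of_eq ?_) h2
    rw [one_pow, mul_one, ← Real.rpow_natCast, ← Real.rpow_mul h3.le]
    congr 2
    push_cast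
    ring
  · filter_upwards [hvar, hfour, hmR.eventually_gt_atTop 0] with j h2 h4 h3
    exact h4.trans (pow_le_pow_left₀ (by positivity) h2 2)

/-- the signs -/
noncomputable def sg (i : ℕ) : ℝ := if i = 0 then 0 else (-1) ^ (i + 1)

theorem sg_sq (i : ℕ) : sg i ^ 2 = if i = 0 then 0 else 1 := by
  unfold sg
  split_ifs
  · norm_num
  · rw [← pow_mul, mul_comm, pow_mul]
    norm_num

theorem sg_sum (n : ℕ) : ∑ i ∈ range n, sg i ^ 2 = (n : ℝ) - 1 ∨ n = 0 := by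
  rcases Nat.eq_zero_or_pos n with h | h
  · exact Or.inr h
  left
  obtain ⟨m, rfl⟩ : ∃ m, n = m + 1 := ⟨n - 1, by omega⟩
  rw [sum_range_succ', sg_sq, if_pos rfl, add_zero]
  simp only [sg_sq]
  rw [sum_congr rfl fun i _ => if_neg (Nat.succ_ne_zero i)]
  simp

/-- **The noise is large**, whatever is added to it. -/
theorem noise_low (hA : ∀ p, MeasurableSet (A p)) (hind : iIndepSet A μ)
    (hδ0 : ∀ p, 0 < δ p) (hδ1 : ∀ p, δ p ≤ 1) (hμ : ∀ p, μ (A p) = ENNReal.ofReal (δ p))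
    (hη : 0 < η) (hη1 : η < 1 / 2) (hd : Dens δ η) (a : ℕ → ℝ) :
    ∀ᵐ ω ∂μ, ∀ ε : ℝ, 0 < ε → ∃ᶠ n : ℕ in atTop, (n : ℝ) ^ (1 / 2 + η - ε) ≤
      |a n + ∑ i ∈ range n, (wt A δ ω i - 1) * sg i| := by
  have hs1 : ∀ i, |sg i| ≤ 1 := by
    intro i
    have := sg_sq i
    rw [← sq_le_one_iff₀ (abs_nonneg _), sq_abs, this]
    split_ifs <;> norm_num
  have hs0 : sg 0 = 0 := if_pos rfl
  have key : ∀ e : ℝ, 0 < e → 16 * e ≤ 1 - 2 * η → e ≤ η → ∀ᵐ ω ∂μ, ∃ᶠ n : ℕ in atTop,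
      1 / 2 * (n : ℝ) ^ (1 / 2 + η - 3 * e) ≤
      |a n + ∑ i ∈ range n, (wt A δ ω i - 1) * sg i| := by
    intro e he he1 heη
    have hbig : ∀ᶠ n : ℕ in atTop, (n : ℝ) ^ (1 - e) / 2 ≤ ∑ i ∈ range n, sg i ^ 2 := by
      filter_upwards [eventually_ge_atTop 2] with n hn
      have hn2 : (2 : ℝ) ≤ n := by exact_mod_cast hn
      rw [(sg_sum n).resolve_right (by omega)]
      have h1 : (n : ℝ) ^ (1 - e) ≤ (n : ℝ) ^ (1 : ℝ) :=
        Real.rpow_le_rpow_of_exponent_le (by linarith) (by linarith)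
      rw [Real.rpow_one] at h1
      linarith
    have hcases : ∃ᶠ n : ℕ in atTop,
        ((n : ℝ) ^ (1 - e) / 2 ≤ ∑ i ∈ range n, sg i ^ 2 ∧ 0 ≤ a n) ∨
        ((n : ℝ) ^ (1 - e) / 2 ≤ ∑ i ∈ range n, (-sg i) ^ 2 ∧ 0 ≤ -a n) := by
      refine (hbig.mono fun n hn => ?_).frequently
      simp only [neg_sq]
      rcases le_total 0 (a n) with h2 | h2
      · exact Or.inl ⟨hn, h2⟩
      · exact Or.inr ⟨hn, by linarith⟩
    have hneg : ∀ (ω : Ω) (n : ℕ), ∑ i ∈ range n, (wt A δ ω i - 1) * (-sg i) =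
        -∑ i ∈ range n, (wt A δ ω i - 1) * sg i := by
      intro ω n
      rw [← sum_neg_distrib]
      exact sum_congr rfl fun i _ => by ring
    rw [frequently_or_distrib] at hcases
    rcases hcases with h | h
    · filter_upwards [core (μ := μ) hA hind hδ0 hδ1 hμ hη hd hs1 hs0 (a := a) he he1 heη h] with ω hω
      exact hω.mono fun n hn => hn.trans (le_abs_self _)
    · filter_upwards [core (μ := μ) hA hind hδ0 hδ1 hμ hη hd (v := fun i => -sg i)
        (fun i => by rw [abs_neg]; exact hs1 i) (by rw [hs0, neg_zero])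
        (a := fun n => -a n) he he1 heη h] with ω hω
      refine hω.mono fun n hn => hn.trans ?_
      rw [hneg ω n, ← neg_add]
      exact neg_le_abs _
  set e₀ : ℝ := min η ((1 - 2 * η) / 16) with he₀
  have he₀0 : 0 < e₀ := lt_min hη (by linarith)
  have he₀η : e₀ ≤ η := min_le_left _ _
  have he₀1 : e₀ ≤ (1 - 2 * η) / 16 := min_le_right _ _
  have key2 : ∀ᵐ ω ∂μ, ∀ k : ℕ, ∃ᶠ n : ℕ in atTop,
      1 / 2 * (n : ℝ) ^ (1 / 2 + η - 3 * (e₀ / ((k : ℝ) + 1))) ≤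
      |a n + ∑ i ∈ range n, (wt A δ ω i - 1) * sg i| := by
    rw [ae_all_iff]
    intro k
    have hk : e₀ / ((k : ℝ) + 1) ≤ e₀ :=
      div_le_self he₀0.le (by linarith [Nat.cast_nonneg (α := ℝ) k])
    exact key _ (by positivity) (by linarith) (by linarith)
  filter_upwards [key2] with ω hω ε hε
  obtain ⟨k, hk⟩ := exists_nat_one_div_lt (show 0 < ε / (6 * e₀) by positivity)
  have h1 : e₀ / ((k : ℝ) + 1) < ε / 6 := by
    have h2 : 1 / ((k : ℝ) + 1) * e₀ < ε / (6 * e₀) * e₀ := mul_lt_mul_of_pos_right hk he₀0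
    have e1 : ε / (6 * e₀) * e₀ = ε / 6 := by field_simp
    rw [e1] at h2
    have e2 : e₀ / ((k : ℝ) + 1) = 1 / ((k : ℝ) + 1) * e₀ := by ring
    rwa [e2]
  have hlarge : ∀ᶠ n : ℕ in atTop, (n : ℝ) ^ (1 / 2 + η - ε) ≤
      1 / 2 * (n : ℝ) ^ (1 / 2 + η - 3 * (e₀ / ((k : ℝ) + 1))) := by
    have t1 : Tendsto (fun n : ℕ => (n : ℝ) ^ (ε - 3 * (e₀ / ((k : ℝ) + 1)))) atTop atTop :=
      (tendsto_rpow_atTop (by linarith)).comp tendsto_natCast_atTop_atTop
    filter_upwards [t1.eventually_ge_atTop 2, eventually_gt_atTop 0] with n h2 h3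
    have hn0 : (0 : ℝ) < n := by exact_mod_cast h3
    have e1 : (n : ℝ) ^ (1 / 2 + η - 3 * (e₀ / ((k : ℝ) + 1))) =
        (n : ℝ) ^ (1 / 2 + η - ε) * (n : ℝ) ^ (ε - 3 * (e₀ / ((k : ℝ) + 1))) := by
      rw [← Real.rpow_add hn0]
      congr 1
      ring
    rw [e1]
    have : 0 ≤ (n : ℝ) ^ (1 / 2 + η - ε) := by positivity
    nlinarith
  exact ((hω k).and_eventually hlarge).mono fun n hn => hn.2.trans hn.1

end Pool.Agent.H564.LH
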