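import Pool.Agent.H564.LH.Opt
import Pool.Agent.H564.LH.NoiseLow
import Pool.Agent.H564.SC.Exist

/-! Sparse samples of the integers and the growth of zeta. -/

set_option autoImplicit false

open MeasureTheory Filter Topology Set Complex ProbabilityTheory

namespace Pool.Agent.H564.LH

open Pool.Agent.H564.BSD (wt)

/-- the weight of the sample -/
noncomputable def ws {Ω : Type*} (A : ℕ → Set Ω) (δ : ℕ → ℝ) (ω : Ω) (p : ℕ) : ℂ :=
  ((wt A δ ω p : ℝ) : ℂ)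

section deterministic

variable {Ω : Type*} {A : ℕ → Set Ω} {δ : ℕ → ℝ} {η : ℝ} {ω : Ω}

theorem split (f : ℕ → ℂ) (n : ℕ) : ∑ p ∈ Finset.range n, ws A δ ω p * f p =
    ∑ p ∈ Finset.range n, ((wt A δ ω p : ℂ) - 1) * f p + ∑ p ∈ Finset.range n, f p := by
  rw [← Finset.sum_add_distrib]
  refine Finset.sum_congr rfl fun p _ => ?_
  unfold ws
  ring

theorem log_le {t e : ℝ} (he : 0 < e) :
    1 + Real.log (1 + |t|) ≤ (1 + 1 / e) * (1 + |t|) ^ e := by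
  have h0 := abs_nonneg t
  have h1 : Real.log (1 + |t|) ≤ (1 + |t|) ^ e / e := Real.log_le_rpow_div (by linarith) he
  have h2 : 1 ≤ (1 + |t|) ^ e := Real.one_le_rpow (by linarith) he.le
  calc 1 + Real.log (1 + |t|) ≤ (1 + |t|) ^ e + (1 + |t|) ^ e / e := add_le_add h2 h1
    _ = _ := by ring

/-- the bound of the noise of the sums up to `x` -/
theorem NoiseUp.le (h : NoiseUp A δ η ω) {ε : ℝ} (hη : 0 ≤ η) (hε : 0 < ε) :
    ∃ C : ℝ, 0 ≤ C ∧ ∀ t x : ℝ, 1 ≤ x →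
      ‖∑ p ∈ Finset.range (⌊x⌋₊ + 1), ((wt A δ ω p : ℂ) - 1) * cf t p‖ ≤
        C * (1 + |t|) ^ ε * x ^ (1 / 2 + η + ε) := by
  obtain ⟨C, hC0, hC⟩ := h ε hε
  refine ⟨C * (1 + 1 / ε) * 3 ^ (1 / 2 + η + ε), by positivity, fun t x hx => ?_⟩
  refine (hC t (⌊x⌋₊ + 1)).trans ?_
  have h3 : (((⌊x⌋₊ + 1 : ℕ) : ℝ) + 1) ^ (1 / 2 + η + ε) ≤
      3 ^ (1 / 2 + η + ε) * x ^ (1 / 2 + η + ε) := by
    have e1 : ((⌊x⌋₊ + 1 : ℕ) : ℝ) + 1 ≤ 3 * x := by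
      push_cast
      linarith [Nat.floor_le (show 0 ≤ x by linarith)]
    calc _ ≤ (3 * x) ^ (1 / 2 + η + ε) := Real.rpow_le_rpow (by positivity) e1 (by linarith)
      _ = _ := Real.mul_rpow (by norm_num) (by linarith)
  calc _ ≤ C * ((1 + 1 / ε) * (1 + |t|) ^ ε) * (3 ^ (1 / 2 + η + ε) * x ^ (1 / 2 + η + ε)) := by
        have h4 := log_le (t := t) hε
        refine mul_le_mul (mul_le_mul_of_nonneg_left h4 hC0) h3 (by positivity) (by positivity)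
    _ = _ := by ring

/-- the bound of the noise of the short sums -/
theorem noise_short {t x y κ ε : ℝ} (hx : 1 ≤ x) (hxt : x ≤ 1 + |t|) (hκ : 0 ≤ κ)
    (h : η ≤ y + κ) : (1 + |t|) ^ ε * x ^ (1 / 2 + η + ε) ≤
      (1 + |t|) ^ (κ + ε) * x ^ (1 / 2 + y + ε) := by
  have hx0 : 0 < x := by linarith
  have ht : 0 < 1 + |t| := by linarith [abs_nonneg t]
  have h1 : x ^ (1 / 2 + η + ε) ≤ x ^ κ * x ^ (1 / 2 + y + ε) := by
    rw [← Real.rpow_add hx0]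
    exact Real.rpow_le_rpow_of_exponent_le hx (by linarith)
  have h2 : x ^ κ ≤ (1 + |t|) ^ κ := Real.rpow_le_rpow hx0.le hxt hκ
  rw [Real.rpow_add ht]
  calc (1 + |t|) ^ ε * x ^ (1 / 2 + η + ε) ≤ (1 + |t|) ^ ε * (x ^ κ * x ^ (1 / 2 + y + ε)) := by
        gcongr
    _ ≤ (1 + |t|) ^ ε * ((1 + |t|) ^ κ * x ^ (1 / 2 + y + ε)) := by gcongr
    _ = _ := by ring

/-- the bound of the noise, all sums -/
theorem noise_long {t x y κ ε : ℝ} (hx : 1 ≤ x) (hκ : 0 ≤ κ)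
    (h : η ≤ y) : (1 + |t|) ^ ε * x ^ (1 / 2 + η + ε) ≤
      (1 + |t|) ^ (κ + ε) * x ^ (1 / 2 + y + ε) := by
  have ht : 1 ≤ 1 + |t| := by linarith [abs_nonneg t]
  exact mul_le_mul (Real.rpow_le_rpow_of_exponent_le ht (by linarith))
    (Real.rpow_le_rpow_of_exponent_le hx (by linarith)) (by positivity) (by positivity)

theorem mono_e {t x y κ a b : ℝ} (hx : 1 ≤ x) (hab : a ≤ b) :
    (1 + |t|) ^ (κ + a) * x ^ (1 / 2 + y + a) ≤ (1 + |t|) ^ (κ + b) * x ^ (1 / 2 + y + b) := by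
  have h0 := abs_nonneg t
  exact mul_le_mul (Real.rpow_le_rpow_of_exponent_le (by linarith) (by linarith))
    (Real.rpow_le_rpow_of_exponent_le hx (by linarith)) (by positivity) (by positivity)

/-- all sums without the sample -/
theorem sums_all {y κ : ℝ} (hy0 : 0 ≤ y) (hy : y < 1 / 2) (hκ0 : 0 ≤ κ) (hκ : κ ≤ 1 / 4)
    (h : GrowthE y κ) {ε : ℝ} (hε : 0 < ε) (hε2 : ε ≤ 1 / 4) :
    ∃ C : ℝ, 0 ≤ C ∧ ∀ t x : ℝ, 1 ≤ x →
      ‖∑ n ∈ Finset.range (⌊x⌋₊ + 1), cf t n‖ ≤ C * (1 + |t|) ^ (κ + ε) * x ^ (1 / 2 + y + ε) := by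
  obtain ⟨C, hC0, hC⟩ := sums_up hy0 hy hκ0 hκ h hε hε2
  refine ⟨C + 2, by positivity, fun t x hx => ?_⟩
  have ht := abs_nonneg t
  have h1 : 1 ≤ (1 + |t|) ^ (κ + ε) := Real.one_le_rpow (by linarith) (by linarith)
  have h2 : 0 ≤ x ^ (1 / 2 + y + ε) := by positivity
  rcases le_or_gt x (1 + |t|) with h3 | h3
  · refine (hC t x hx h3).trans ?_
    refine mul_le_mul_of_nonneg_right ?_ h2
    nlinarith
  · refine (long h3 hε hy0 (K := C * (1 + |t|) ^ (κ + ε)) (by positivity) (hC t)).trans ?_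
    refine mul_le_mul_of_nonneg_right ?_ h2
    nlinarith

/-- **from zeta to the sample**, all sums -/
theorem up_all (h : NoiseUp A δ η ω) (hη : 0 ≤ η) {y κ : ℝ} (hy0 : 0 ≤ y) (hy : y < 1 / 2)
    (hκ0 : 0 ≤ κ) (hκ : κ ≤ 1 / 4) (hηy : η ≤ y) (hl : Growth y κ) : Bound (ws A δ ω) y κ := by
  intro ε hε
  set e : ℝ := min ε (1 / 4) with he
  have he0 : 0 < e := lt_min hε (by norm_num)
  have he1 : e ≤ ε := min_le_left _ _
  obtain ⟨C₁, hC₁0, hC₁⟩ := h.le hη he0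
  obtain ⟨C₂, hC₂0, hC₂⟩ := sums_all hy0 hy hκ0 hκ ((growth_iff hy0 hy κ).1 hl) he0
    (min_le_right _ _)
  refine ⟨C₁ + C₂, fun t x hx => ?_⟩
  rw [S_eq, split]
  refine (norm_add_le _ _).trans ((add_le_add (hC₁ t x hx) (hC₂ t x hx)).trans ?_)
  have h1 := mono_e (t := t) (y := y) (κ := κ) hx he1
  have h2 := noise_long (η := η) (t := t) (y := y) (ε := e) hx hκ0 hηy
  calc C₁ * (1 + |t|) ^ e * x ^ (1 / 2 + η + e) + C₂ * (1 + |t|) ^ (κ + e) * x ^ (1 / 2 + y + e) =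
        C₁ * ((1 + |t|) ^ e * x ^ (1 / 2 + η + e)) +
        C₂ * ((1 + |t|) ^ (κ + e) * x ^ (1 / 2 + y + e)) := by ring
    _ ≤ C₁ * ((1 + |t|) ^ (κ + ε) * x ^ (1 / 2 + y + ε)) +
        C₂ * ((1 + |t|) ^ (κ + ε) * x ^ (1 / 2 + y + ε)) :=
        add_le_add (mul_le_mul_of_nonneg_left (h2.trans h1) hC₁0)
          (mul_le_mul_of_nonneg_left h1 hC₂0)
    _ = _ := by ring

/-- **from zeta to the sample**, short sums -/
theorem up_short (h : NoiseUp A δ η ω) (hη : 0 ≤ η) {y κ : ℝ} (hy0 : 0 ≤ y) (hy : y < 1 / 2)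
    (hκ0 : 0 ≤ κ) (hκ : κ ≤ 1 / 4) (hηy : η ≤ y + κ) (hl : Growth y κ) :
    BoundShort (ws A δ ω) y κ := by
  intro ε hε
  set e : ℝ := min ε (1 / 4) with he
  have he0 : 0 < e := lt_min hε (by norm_num)
  have he1 : e ≤ ε := min_le_left _ _
  obtain ⟨C₁, hC₁0, hC₁⟩ := h.le hη he0
  obtain ⟨C₂, hC₂0, hC₂⟩ := sums_up hy0 hy hκ0 hκ ((growth_iff hy0 hy κ).1 hl) he0
    (min_le_right _ _)
  refine ⟨C₁ + C₂, fun t x hx hxt => ?_⟩
  rw [S_eq, split]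
  refine (norm_add_le _ _).trans ((add_le_add (hC₁ t x hx) (hC₂ t x hx hxt)).trans ?_)
  have h1 := mono_e (t := t) (y := y) (κ := κ) hx he1
  have h2 := noise_short (η := η) (y := y) (ε := e) hx hxt hκ0 hηy
  calc C₁ * (1 + |t|) ^ e * x ^ (1 / 2 + η + e) + C₂ * (1 + |t|) ^ (κ + e) * x ^ (1 / 2 + y + e) =
        C₁ * ((1 + |t|) ^ e * x ^ (1 / 2 + η + e)) +
        C₂ * ((1 + |t|) ^ (κ + e) * x ^ (1 / 2 + y + e)) := by ring
    _ ≤ C₁ * ((1 + |t|) ^ (κ + ε) * x ^ (1 / 2 + y + ε)) +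
        C₂ * ((1 + |t|) ^ (κ + ε) * x ^ (1 / 2 + y + ε)) :=
        add_le_add (mul_le_mul_of_nonneg_left (h2.trans h1) hC₁0)
          (mul_le_mul_of_nonneg_left h1 hC₂0)
    _ = _ := by ring

/-- the sums without the sample from the sums of the sample -/
theorem remove (t x : ℝ) : ‖∑ p ∈ Finset.range (⌊x⌋₊ + 1), cf t p‖ ≤ ‖S (ws A δ ω) t x‖ +
    ‖∑ p ∈ Finset.range (⌊x⌋₊ + 1), ((wt A δ ω p : ℂ) - 1) * cf t p‖ := by
  rw [S_eq, split]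
  have h3 := norm_sub_norm_le (∑ p ∈ Finset.range (⌊x⌋₊ + 1), cf t p)
    (-∑ p ∈ Finset.range (⌊x⌋₊ + 1), ((wt A δ ω p : ℂ) - 1) * cf t p)
  rw [sub_neg_eq_add, norm_neg, add_comm (∑ p ∈ Finset.range (⌊x⌋₊ + 1), cf t p)] at h3
  linarith

/-- **from the sample to zeta** -/
theorem sample_down (h : NoiseUp A δ η ω) (hη : 0 ≤ η) {y κ : ℝ} (hy0 : 0 ≤ y) (hy : y < 1 / 2)
    (hκ0 : 0 ≤ κ) (hηy : η ≤ y + κ) (hb : BoundShort (ws A δ ω) y κ) : Growth y κ := by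
  refine (growth_iff hy0 hy κ).2 (down hy0 hy hκ0 fun ε hε => ?_)
  obtain ⟨C₁, hC₁0, hC₁⟩ := h.le hη hε
  obtain ⟨C₂, hC₂⟩ := hb ε hε
  refine ⟨C₁ + |C₂|, by positivity, fun t x hx hxt => ?_⟩
  have h1 := hC₂ t x hx hxt
  have h2 := hC₁ t x hx
  have h3 := remove (A := A) (δ := δ) (ω := ω) t x
  have h6 := noise_short (η := η) (y := y) (ε := ε) hx hxt hκ0 hηy
  have h4 : 0 ≤ (1 + |t|) ^ (κ + ε) * x ^ (1 / 2 + y + ε) := by positivity
  have h5 : C₂ * ((1 + |t|) ^ (κ + ε) * x ^ (1 / 2 + y + ε)) ≤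
      |C₂| * ((1 + |t|) ^ (κ + ε) * x ^ (1 / 2 + y + ε)) :=
    mul_le_mul_of_nonneg_right (le_abs_self C₂) h4
  have h7 := mul_le_mul_of_nonneg_left h6 hC₁0
  calc _ ≤ C₁ * ((1 + |t|) ^ (κ + ε) * x ^ (1 / 2 + y + ε)) +
        |C₂| * ((1 + |t|) ^ (κ + ε) * x ^ (1 / 2 + y + ε)) := by linarith
    _ = _ := by ring

/-- every large value is seen by the sample, at the same height -/
def Local (w : ℕ → ℂ) (η y : ℝ) : Prop := ∀ ε : ℝ, 0 < ε → ∃ C : ℝ, ∀ t M : ℝ, 0 ≤ M →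
  (∀ x : ℝ, 1 ≤ x → x ≤ 1 + |t| → ‖S w t x‖ ≤ M * x ^ (1 / 2 + y)) →
    ‖riemannZeta (1 / 2 + y + t * I)‖ ≤ C * (1 + |t|) ^ ε * (M + (1 + |t|) ^ max (η - y) 0)

/-- **the local law** -/
theorem sample_local (h : NoiseUp A δ η ω) (hη : 0 ≤ η) {y : ℝ} (hy0 : 0 ≤ y) (hy : y < 1 / 2) :
    Local (ws A δ ω) η y := by
  intro ε hε
  set e : ℝ := min (ε / 3) (1 / 4) with he
  have he0 : 0 < e := lt_min (by positivity) (by norm_num)
  have he1 : e ≤ ε / 3 := min_le_left _ _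
  have he2 : e ≤ 1 / 4 := min_le_right _ _
  obtain ⟨C₁, hC₁0, hC₁⟩ := h.le hη he0
  have h6 := two_pos hy
  refine ⟨(C₁ + 3) / e / (2 ^ (1 / 2 - y) - 1), fun t M hM hS => ?_⟩
  set m : ℝ := max (η - y) 0 with hm
  have hm0 : 0 ≤ m := le_max_right _ _
  have hm1 : η ≤ y + m := by linarith [le_max_left (η - y) 0]
  have ht1 : (1 : ℝ) ≤ 1 + |t| := by linarith [abs_nonneg t]
  set D : ℝ := (1 + |t|) ^ m with hD
  have hD1 : 1 ≤ D := Real.one_le_rpow ht1 hm0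
  have hU1 : 1 ≤ (1 + |t|) ^ e := Real.one_le_rpow ht1 he0.le
  have h1 := point2 hy0 hy he0 he2 (t := t) (K := M + C₁ * ((1 + |t|) ^ e * D)) (by positivity)
    fun x hx hxt => by
      have a1 := hS x hx hxt
      have a2 := hC₁ t x hx
      have a3 := remove (A := A) (δ := δ) (ω := ω) t x
      have a4 := noise_short (η := η) (y := y) (ε := e) hx hxt hm0 hm1
      have a5 : x ^ (1 / 2 + y) ≤ x ^ (1 / 2 + y + e) :=
        Real.rpow_le_rpow_of_exponent_le hx (by linarith)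
      have a6 : (1 + |t|) ^ (m + e) = (1 + |t|) ^ e * D := by
        rw [Real.rpow_add (by linarith), hD, mul_comm]
      rw [a6] at a4
      have a7 := mul_le_mul_of_nonneg_left a4 hC₁0
      have a8 := mul_le_mul_of_nonneg_left a5 hM
      calc _ ≤ M * x ^ (1 / 2 + y + e) + C₁ * ((1 + |t|) ^ e * D * x ^ (1 / 2 + y + e)) := by
            linarith
        _ = _ := by ring
  have e1 : (((1 / 2 + y : ℝ) : ℂ) + (t : ℂ) * I) = 1 / 2 + (y : ℂ) + (t : ℂ) * I := by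
    push_cast
    ring
  rw [e1] at h1
  refine (zeta_le_E hy0 hy (line_re y t)).trans ?_
  have h2 : (M + C₁ * ((1 + |t|) ^ e * D) + 2) ≤ (C₁ + 3) * ((1 + |t|) ^ e * (M + D)) := by
    have b1 : M + D ≤ (1 + |t|) ^ e * (M + D) := le_mul_of_one_le_left (by positivity) hU1
    have b2 : C₁ * ((1 + |t|) ^ e * D) ≤ C₁ * ((1 + |t|) ^ e * (M + D)) := by gcongr; linarith
    nlinarith
  have h3 : (M + C₁ * ((1 + |t|) ^ e * D) + 2) / e * (1 + |t|) ^ (2 * e) ≤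
      (C₁ + 3) / e * (1 + |t|) ^ ε * (M + D) := by
    calc _ ≤ ((C₁ + 3) * ((1 + |t|) ^ e * (M + D))) / e * (1 + |t|) ^ (2 * e) :=
          mul_le_mul_of_nonneg_right (div_le_div_of_nonneg_right h2 he0.le) (by positivity)
      _ = (C₁ + 3) / e * ((1 + |t|) ^ e * (1 + |t|) ^ (2 * e)) * (M + D) := by ring
      _ = (C₁ + 3) / e * (1 + |t|) ^ (3 * e) * (M + D) := by
          rw [← Real.rpow_add (by linarith)]
          congr 3
          ring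
      _ ≤ _ := by
          refine mul_le_mul_of_nonneg_right (mul_le_mul_of_nonneg_left ?_ (by positivity))
            (by positivity)
          exact Real.rpow_le_rpow_of_exponent_le ht1 (by linarith)
  calc _ ≤ ((C₁ + 3) / e * (1 + |t|) ^ ε * (M + D)) / (2 ^ (1 / 2 - y) - 1) :=
        div_le_div_of_nonneg_right (h1.trans h3) h6.le
    _ = _ := by ring

theorem short_of_bound {w : ℕ → ℂ} {y κ : ℝ} (h : Bound w y κ) : BoundShort w y κ := fun ε hε => by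
  obtain ⟨C, hC⟩ := h ε hε
  exact ⟨C, fun t x hx _ => hC t x hx⟩

theorem S_zero (n : ℕ) : ‖S (ws A δ ω) 0 n‖ = |∑ i ∈ Finset.range (n + 1), sg i +
    ∑ i ∈ Finset.range (n + 1), (wt A δ ω i - 1) * sg i| := by
  rw [S_eq, Nat.floor_natCast, ← Finset.sum_add_distrib, ← Real.norm_eq_abs, ← Complex.norm_real,
    Complex.ofReal_sum]
  congr 1
  refine Finset.sum_congr rfl fun i _ => ?_
  unfold ws cf sg
  split_ifs
  · simp
  · push_cast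
    rw [zero_mul, neg_zero, Complex.cpow_zero]
    ring

/-- the lower bound of the sums of the sample gives `η ≤ y` -/
theorem sample_res {y κ : ℝ} (hy : 0 ≤ y) (hlow : 0 < η → ∀ ε : ℝ, 0 < ε → ∃ᶠ n : ℕ in atTop,
      (n : ℝ) ^ (1 / 2 + η - ε) ≤ |∑ i ∈ Finset.range n, sg i +
        ∑ i ∈ Finset.range n, (wt A δ ω i - 1) * sg i|)
    (hb : Bound (ws A δ ω) y κ) : η ≤ y := by
  by_contra hcon
  push Not at hcon
  set e : ℝ := (η - y) / 3 with he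
  have he0 : 0 < e := by rw [he]; linarith
  have h1 := hlow (by linarith) e he0
  obtain ⟨C, hC⟩ := hb e he0
  have hC' : ∀ n : ℕ, 1 ≤ n → |∑ i ∈ Finset.range (n + 1), sg i +
      ∑ i ∈ Finset.range (n + 1), (wt A δ ω i - 1) * sg i| ≤ C * (n : ℝ) ^ (1 / 2 + y + e) := by
    intro n hn
    have h2 := hC 0 n (by exact_mod_cast hn)
    rw [S_zero, abs_zero, add_zero, Real.one_rpow, mul_one] at h2
    exact h2
  have h3 : Tendsto (fun n : ℕ => (n : ℝ) ^ e) atTop atTop :=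
    (tendsto_rpow_atTop he0).comp tendsto_natCast_atTop_atTop
  obtain ⟨n, hn1, hn2, hn3⟩ := (h1.and_eventually ((h3.eventually_gt_atTop |C|).and
    (eventually_ge_atTop 2))).exists
  obtain ⟨m, rfl⟩ : ∃ m, n = m + 1 := ⟨n - 1, by omega⟩
  have h4 := hC' m (by omega)
  have hm0 : (0 : ℝ) < ((m + 1 : ℕ) : ℝ) := by positivity
  have h5 : (m : ℝ) ^ (1 / 2 + y + e) ≤ ((m + 1 : ℕ) : ℝ) ^ (1 / 2 + y + e) :=
    Real.rpow_le_rpow (Nat.cast_nonneg m) (by push_cast; linarith) (by linarith)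
  have h6 : ((m + 1 : ℕ) : ℝ) ^ (1 / 2 + η - e) =
      ((m + 1 : ℕ) : ℝ) ^ e * ((m + 1 : ℕ) : ℝ) ^ (1 / 2 + y + e) := by
    rw [← Real.rpow_add hm0]
    congr 1
    rw [he]
    ring
  have h7 : 0 < ((m + 1 : ℕ) : ℝ) ^ (1 / 2 + y + e) := by positivity
  have h8 : C * (m : ℝ) ^ (1 / 2 + y + e) ≤ |C| * ((m + 1 : ℕ) : ℝ) ^ (1 / 2 + y + e) :=
    mul_le_mul (le_abs_self C) h5 (by positivity) (abs_nonneg C)
  rw [h6] at hn1
  have h9 : |C| * ((m + 1 : ℕ) : ℝ) ^ (1 / 2 + y + e) <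
      ((m + 1 : ℕ) : ℝ) ^ e * ((m + 1 : ℕ) : ℝ) ^ (1 / 2 + y + e) :=
    mul_lt_mul_of_pos_right hn2 h7
  linarith

open Classical in
theorem used_eq (x : ℝ) : used (ws A δ ω) x ≤ (((Finset.range (⌊x⌋₊ + 1)).filter
    fun p => 0 < p ∧ ω ∈ A p).card : ℝ) := by
  unfold used
  refine Nat.cast_le.2 (Finset.card_le_card fun p hp => ?_)
  simp only [Finset.mem_filter, Finset.mem_range, Finset.mem_Icc] at hp ⊢
  obtain ⟨⟨h1, h2⟩, h3⟩ := hp
  refine ⟨by omega, by omega, ?_⟩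
  by_contra hcon
  apply h3
  unfold ws wt
  rw [if_neg hcon, Complex.ofReal_zero]

/-- the bound of the noise of the sums of the weights -/
def NoiseOne (A : ℕ → Set Ω) (δ : ℕ → ℝ) (η : ℝ) (ω : Ω) : Prop :=
  ∀ ε : ℝ, 0 < ε → ∃ C : ℝ, ∀ n : ℕ,
      ‖∑ p ∈ Finset.range n, ((wt A δ ω p : ℂ) - 1)‖ ≤ C * ((n : ℝ) + 1) ^ (1 / 2 + η + ε)

theorem normalised (hη : 0 ≤ η) (hη1 : η < 1 / 2) (h : NoiseOne A δ η ω) :
    Normalised (ws A δ ω) := by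
  intro ε hε
  set e : ℝ := min ε ((1 / 2 - η) / 2) with he
  have he0 : 0 < e := lt_min hε (by linarith)
  have he1 : e ≤ ε := min_le_left _ _
  have he2 : e ≤ (1 / 2 - η) / 2 := min_le_right _ _
  obtain ⟨C, hC⟩ := h ((1 / 2 - η) / 2) (by linarith)
  set r : ℝ := (1 / 2 - η) / 2 with hr
  have hr0 : 0 < r := by linarith
  set D : ℝ := |C| * 3 ^ (1 - r) + ‖((wt A δ ω 0 : ℂ) - 1)‖ + 1 with hD
  have hD0 : 0 ≤ D := by positivity
  filter_upwards [eventually_ge_atTop 1, (tendsto_rpow_atTop hr0).eventually_ge_atTop (2 * D),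
    (tendsto_rpow_atTop hε).eventually_ge_atTop 2] with x hx h2 h3
  have hx0 : 0 < x := by linarith
  set n : ℕ := ⌊x⌋₊ with hn
  have hnx : (n : ℝ) ≤ x := Nat.floor_le hx0.le
  have hxn : x < n + 1 := Nat.lt_floor_add_one x
  have h4 := hC (n + 1)
  have e0 : ∑ p ∈ Finset.range (n + 1), ((wt A δ ω p : ℂ) - 1) =
      ((wt A δ ω 0 : ℂ) - 1) + ∑ p ∈ Finset.Icc 1 n, ((wt A δ ω p : ℂ) - 1) := by
    rw [Finset.range_eq_Ico, Finset.sum_eq_sum_Ico_succ_bot (Nat.succ_pos _)]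
    congr 1
  have e1 : ∑ p ∈ Finset.Icc 1 n, ((wt A δ ω p : ℂ) - 1) =
      ∑ p ∈ Finset.Icc 1 n, ws A δ ω p - n := by
    rw [Finset.sum_sub_distrib, Finset.sum_const, Nat.card_Icc, Nat.add_sub_cancel, nsmul_eq_mul,
      mul_one]
    rfl
  have e2 : ∑ p ∈ Finset.Icc 1 n, ws A δ ω p = (n : ℂ) -
      (((wt A δ ω 0 : ℂ) - 1) - ∑ p ∈ Finset.range (n + 1), ((wt A δ ω p : ℂ) - 1)) := by
    rw [e0, e1]
    ring
  rw [e2]
  have h5 := norm_sub_norm_le (n : ℂ)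
    (((wt A δ ω 0 : ℂ) - 1) - ∑ p ∈ Finset.range (n + 1), ((wt A δ ω p : ℂ) - 1))
  rw [Complex.norm_natCast] at h5
  have h6 := norm_sub_le ((wt A δ ω 0 : ℂ) - 1)
    (∑ p ∈ Finset.range (n + 1), ((wt A δ ω p : ℂ) - 1))
  have h7 : C * (((n + 1 : ℕ) : ℝ) + 1) ^ (1 / 2 + η + r) ≤ |C| * 3 ^ (1 - r) * x ^ (1 - r) := by
    have e3 : 1 / 2 + η + r = 1 - r := by rw [hr]; ring
    rw [e3, mul_assoc, ← Real.mul_rpow (by norm_num) hx0.le]
    refine mul_le_mul (le_abs_self C) (Real.rpow_le_rpow (by positivity) ?_ (by linarith))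
      (by positivity) (abs_nonneg C)
    push_cast
    linarith
  have h8 : 1 ≤ x ^ (1 - r) := Real.one_le_rpow hx (by linarith)
  have h9 : |C| * 3 ^ (1 - r) * x ^ (1 - r) + ‖((wt A δ ω 0 : ℂ) - 1)‖ + 1 ≤ D * x ^ (1 - r) := by
    rw [hD]
    have := norm_nonneg ((wt A δ ω 0 : ℂ) - 1)
    nlinarith
  have h10 : 2 * (D * x ^ (1 - r)) ≤ x := by
    calc 2 * (D * x ^ (1 - r)) = (2 * D) * x ^ (1 - r) := by ring
      _ ≤ x ^ r * x ^ (1 - r) := mul_le_mul_of_nonneg_right h2 (by positivity)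
      _ = x := by rw [← Real.rpow_add hx0, add_sub_cancel, Real.rpow_one]
  have h11 : 2 * x ^ (1 - ε) ≤ x := by
    calc 2 * x ^ (1 - ε) ≤ x ^ ε * x ^ (1 - ε) := mul_le_mul_of_nonneg_right h3 (by positivity)
      _ = x := by rw [← Real.rpow_add hx0, add_sub_cancel, Real.rpow_one]
  linarith

end deterministic

/-- The weight `w` uses at most `x^(1 - 2η + ε)` integers, it is normalised, and its sums see
exactly the growth of `ζ(1/2 + y + it)`, within the limits given by `η`. -/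
def Decides (w : ℕ → ℂ) (η : ℝ) : Prop :=
  (∀ ε : ℝ, 0 < ε → ∀ᶠ x : ℝ in atTop, used w x ≤ x ^ (1 - 2 * η + ε)) ∧
  Normalised w ∧
  (∀ y κ : ℝ, 0 ≤ y → y < 1 / 2 → 0 ≤ κ → κ ≤ 1 / 4 →
    ((Growth y κ ∧ η ≤ y) ↔ Bound w y κ) ∧ ((Growth y κ ∧ η ≤ y + κ) ↔ BoundShort w y κ)) ∧
  (∀ y : ℝ, 0 ≤ y → y < 1 / 2 → Local w η y)

theorem almost_surely {Ω : Type*} [MeasurableSpace Ω] (μ : Measure Ω) [IsProbabilityMeasure μ]
    (A : ℕ → Set Ω) (δ : ℕ → ℝ) (η : ℝ) (hA : ∀ p, MeasurableSet (A p)) (hind : iIndepSet A μ)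
    (hδ : ∀ p, 0 < δ p) (hμ : ∀ p, μ (A p) = ENNReal.ofReal (δ p)) (hη : 0 ≤ η) (hη1 : η < 1 / 2)
    (hd : Dens δ η) : ∀ᵐ ω ∂μ, Decides (ws A δ ω) η := by
  have hδ1 : ∀ p, δ p ≤ 1 := by
    intro p
    have h1 : μ (A p) ≤ 1 := prob_le_one
    rw [hμ, ENNReal.ofReal_le_one] at h1
    exact h1
  have hone : ∀ᵐ ω ∂μ, NoiseOne A δ η ω := by
    filter_upwards [noise_unif (μ := μ) hA hind hδ hδ1 hμ hη hη1 hd (ι := fun _ => Unit)
      (fun _ _ _ => 1) (fun _ _ _ => by simp) (B := 0) (fun q => by simp)] with ω hω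
    intro ε hε
    obtain ⟨C, hC⟩ := hω ε hε
    refine ⟨C, fun n => ?_⟩
    have := hC 0 () n
    simpa using this
  have hlow : ∀ᵐ ω ∂μ, 0 < η → ∀ ε : ℝ, 0 < ε → ∃ᶠ n : ℕ in atTop,
      (n : ℝ) ^ (1 / 2 + η - ε) ≤ |∑ i ∈ Finset.range n, sg i +
        ∑ i ∈ Finset.range n, (wt A δ ω i - 1) * sg i| := by
    by_cases h3 : 0 < η
    swap
    · exact ae_of_all _ fun ω h => absurd h h3
    filter_upwards [noise_low (μ := μ) hA hind hδ hδ1 hμ h3 hη1 hd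
      (fun n => ∑ i ∈ Finset.range n, sg i)] with ω hω _
    exact hω
  filter_upwards [count_up hA hind hδ hδ1 hμ hη hη1 hd, hone,
    noise_grid hA hind hδ hδ1 hμ hη hη1 hd, hlow] with ω h0 h1 h2 h3
  have hu : ∀ ε : ℝ, 0 < ε → ∀ᶠ x : ℝ in atTop, used (ws A δ ω) x ≤ x ^ (1 - 2 * η + ε) := by
    intro ε hε
    filter_upwards [h0 ε hε] with x hx
    exact (used_eq x).trans hx
  have hn := normalised hη hη1 h1
  have hres : ∀ y κ : ℝ, 0 ≤ κ → BoundShort (ws A δ ω) y κ → η ≤ y + κ := by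
    intro y κ hκ h
    by_contra hcon
    push Not at hcon
    set e : ℝ := (η - y - κ) / 2 with he
    have he0 : 0 < e := by rw [he]; linarith
    obtain ⟨x, hx1, hx2, hx3⟩ := ((optimal hκ hn h e he0).and ((hu e he0).and
      (eventually_gt_atTop 1))).exists
    have h3 : x ^ (1 - 2 * η + e) < x ^ (1 - 2 * y - 2 * κ - e) :=
      Real.rpow_lt_rpow_of_exponent_lt hx3 (by rw [he]; linarith)
    linarith
  refine ⟨hu, hn, fun y κ hy0 hy hκ0 hκ => ⟨⟨fun h => ?_, fun h => ?_⟩, ⟨fun h => ?_, fun h => ?_⟩⟩,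
    fun y hy0 hy => sample_local h2 hη hy0 hy⟩
  · exact up_all h2 hη hy0 hy hκ0 hκ h.2 h.1
  · have h4 := short_of_bound h
    exact ⟨sample_down h2 hη hy0 hy hκ0 (hres y κ hκ0 h4) h4, sample_res hy0 h3 h⟩
  · exact up_short h2 hη hy0 hy hκ0 hκ h.2 h.1
  · have h4 := hres y κ hκ0 h
    exact ⟨sample_down h2 hη hy0 hy hκ0 h4 h, h4⟩

end Pool.Agent.H564.LH
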