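import Pool.Agent.H564.LH.Count

/-! The noise of the sums with `n^(-it)`, uniformly in `t`. -/

set_option autoImplicit false

namespace Pool.Agent.H564.LH

open Finset Filter Topology MeasureTheory ProbabilityTheory
open Pool.Agent.H564.BSD (wt)

/-- the coefficients `(-1)^(n+1) n^(-it)`, `n ≥ 1` -/
noncomputable def cf (t : ℝ) (n : ℕ) : ℂ :=
  if n = 0 then 0 else (-1) ^ (n + 1) * (n : ℂ) ^ (-((t : ℂ) * Complex.I))

theorem cf_zero (t : ℝ) : cf t 0 = 0 := if_pos rfl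

theorem cpow_eq (t : ℝ) {n : ℕ} (hn : n ≠ 0) :
    (n : ℂ) ^ (-((t : ℂ) * Complex.I)) = Complex.exp (-((t * Real.log n : ℝ) : ℂ) * Complex.I) := by
  rw [Complex.cpow_def_of_ne_zero (Nat.cast_ne_zero.2 hn), ← Complex.natCast_log]
  congr 1
  push_cast
  ring

theorem norm_cpow_one (t : ℝ) {n : ℕ} (hn : n ≠ 0) : ‖(n : ℂ) ^ (-((t : ℂ) * Complex.I))‖ = 1 := by
  rw [cpow_eq t hn, ← Complex.ofReal_neg, Complex.norm_exp_ofReal_mul_I]

theorem norm_cf_le (t : ℝ) (n : ℕ) : ‖cf t n‖ ≤ 1 := by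
  unfold cf
  split_ifs with h
  · simp
  · rw [norm_mul, norm_pow, norm_neg, norm_one, one_pow, one_mul, norm_cpow_one t h]

theorem cf_sub_le (t t' : ℝ) (n : ℕ) : ‖cf t n - cf t' n‖ ≤ |t - t'| * n := by
  rcases Nat.eq_zero_or_pos n with rfl | hn
  · rw [cf_zero, cf_zero]; simp
  · have h : n ≠ 0 := hn.ne'
    unfold cf
    rw [if_neg h, if_neg h, ← mul_sub, norm_mul, norm_pow, norm_neg, norm_one, one_pow, one_mul,
      cpow_eq t h, cpow_eq t' h]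
    have e1 : Complex.exp (-((t * Real.log n : ℝ) : ℂ) * Complex.I) -
        Complex.exp (-((t' * Real.log n : ℝ) : ℂ) * Complex.I) =
        Complex.exp (((-(t' * Real.log n) : ℝ) : ℂ) * Complex.I) *
          (Complex.exp (Complex.I * (((t' - t) * Real.log n : ℝ) : ℂ)) - 1) := by
      rw [mul_sub, ← Complex.exp_add, mul_one]
      congr 2
      · push_cast
        ring
      · push_cast
        ring
    rw [e1, norm_mul, Complex.norm_exp_ofReal_mul_I, one_mul]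
    refine (Real.norm_exp_I_mul_ofReal_sub_one_le).trans ?_
    rw [Real.norm_eq_abs, abs_mul, abs_sub_comm]
    refine mul_le_mul_of_nonneg_left ?_ (abs_nonneg _)
    have hn1 : (1 : ℝ) ≤ n := by exact_mod_cast hn
    rw [abs_of_nonneg (Real.log_nonneg hn1)]
    exact (Real.log_le_sub_one_of_pos (by linarith)).trans (by linarith)

/-- the points of the grid -/
noncomputable def gp (q : ℕ) (k : Fin ((q + 1) ^ 3)) : ℝ := ((k : ℕ) : ℝ) / ((q : ℝ) + 1) - ((q : ℝ) + 1)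

theorem exists_gp {t : ℝ} {q : ℕ} (h : |t| ≤ q) (hq : 1 ≤ q) :
    ∃ k : Fin ((q + 1) ^ 3), |t - gp q k| ≤ 1 / ((q : ℝ) + 1) := by
  have hq0 : (0 : ℝ) < (q : ℝ) + 1 := by positivity
  have hq1 : (1 : ℝ) ≤ q := by exact_mod_cast hq
  obtain ⟨h1, h2⟩ := abs_le.1 h
  set x : ℝ := (t + ((q : ℝ) + 1)) * ((q : ℝ) + 1) with hx
  have hx0 : 0 ≤ x := mul_nonneg (by linarith) hq0.le
  have hlt : ⌊x⌋₊ < (q + 1) ^ 3 := by
    rw [Nat.floor_lt hx0]
    push_cast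
    have h3 : x ≤ (2 * (q : ℝ) + 1) * ((q : ℝ) + 1) := by
      rw [hx]
      exact mul_le_mul_of_nonneg_right (by linarith) hq0.le
    have h4 : (2 * (q : ℝ) + 1) * ((q : ℝ) + 1) < ((q : ℝ) + 1) ^ 3 := by
      have : ((q : ℝ) + 1) ^ 3 = ((q : ℝ) + 1) ^ 2 * ((q : ℝ) + 1) := by ring
      rw [this]
      refine mul_lt_mul_of_pos_right ?_ hq0
      nlinarith
    linarith
  refine ⟨⟨⌊x⌋₊, hlt⟩, ?_⟩
  unfold gp
  simp only
  have h5 : (⌊x⌋₊ : ℝ) ≤ x := Nat.floor_le hx0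
  have h6 : x < ⌊x⌋₊ + 1 := Nat.lt_floor_add_one x
  have e : t - ((⌊x⌋₊ : ℝ) / ((q : ℝ) + 1) - ((q : ℝ) + 1)) = (x - ⌊x⌋₊) / ((q : ℝ) + 1) := by
    rw [hx]
    field_simp
    ring
  rw [e, abs_of_nonneg (div_nonneg (by linarith) hq0.le)]
  exact div_le_div_of_nonneg_right (by linarith) hq0.le

variable {Ω : Type*} [mΩ : MeasurableSpace Ω] {μ : Measure Ω} [IsProbabilityMeasure μ]
  {A : ℕ → Set Ω} {δ : ℕ → ℝ} {η : ℝ}

/-- the bound of the noise, for all `t` -/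
def NoiseUp (A : ℕ → Set Ω) (δ : ℕ → ℝ) (η : ℝ) (ω : Ω) : Prop :=
  ∀ ε : ℝ, 0 < ε → ∃ C : ℝ, 0 ≤ C ∧ ∀ (t : ℝ) (n : ℕ),
      ‖∑ p ∈ range n, ((wt A δ ω p : ℂ) - 1) * cf t p‖ ≤
        C * (1 + Real.log (1 + |t|)) * ((n : ℝ) + 1) ^ (1 / 2 + η + ε)

theorem noise_grid (hA : ∀ p, MeasurableSet (A p)) (hind : iIndepSet A μ)
    (hδ0 : ∀ p, 0 < δ p) (hδ1 : ∀ p, δ p ≤ 1) (hμ : ∀ p, μ (A p) = ENNReal.ofReal (δ p))
    (hη : 0 ≤ η) (hη1 : η < 1 / 2) (hd : Dens δ η) : ∀ᵐ ω ∂μ, NoiseUp A δ η ω := by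
  have key := noise_unif (μ := μ) hA hind hδ0 hδ1 hμ hη hη1 hd
    (ι := fun q => Fin ((q + 1) ^ 3)) (fun q k p => cf (gp q k) p)
    (fun q k p => norm_cf_le _ _) (B := 3) fun q => by rw [Fintype.card_fin]
  filter_upwards [key] with ω hω
  intro ε hε
  obtain ⟨C, hC⟩ := hω (ε / 2) (by positivity)
  obtain ⟨C₀, hC₀, hinv⟩ := hd.inv_le hδ0 hη hε
  refine ⟨|C| * (5 + 4 / ε) + C₀, by positivity, fun t n => ?_⟩
  have hn0 : (0 : ℝ) ≤ n := Nat.cast_nonneg n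
  have hn1 : (1 : ℝ) ≤ (n : ℝ) + 1 := by linarith
  have hL : 0 ≤ Real.log (1 + |t|) := Real.log_nonneg (by linarith [abs_nonneg t])
  set q : ℕ := n ^ 2 + ⌈|t|⌉₊ + 1 with hq
  have hqt : |t| ≤ q := by
    rw [hq]
    push_cast
    have := Nat.le_ceil |t|
    nlinarith
  obtain ⟨k, hk⟩ := exists_gp hqt (by rw [hq]; omega)
  have h1 := hC q k n
  have hqu : (q : ℝ) + 1 ≤ 4 * (((n : ℝ) + 1) ^ 2 * (1 + |t|)) := by
    rw [hq]
    push_cast
    have h2 := (Nat.ceil_lt_add_one (abs_nonneg t)).le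
    have h3 := abs_nonneg t
    have h4 : (1 + |t|) * 1 ≤ (1 + |t|) * ((n : ℝ) + 1) ^ 2 :=
      mul_le_mul_of_nonneg_left (by nlinarith) (by linarith)
    nlinarith [mul_nonneg hn0 h3]
  have hlogq : 1 + Real.log ((q : ℝ) + 1) ≤ (5 + 2 * Real.log ((n : ℝ) + 1)) *
      (1 + Real.log (1 + |t|)) := by
    have h2 : Real.log ((q : ℝ) + 1) ≤ Real.log 4 + (2 * Real.log ((n : ℝ) + 1) +
        Real.log (1 + |t|)) := by
      have h3 : (0 : ℝ) < 1 + |t| := by linarith [abs_nonneg t]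
      refine (Real.log_le_log (by positivity) hqu).trans (le_of_eq ?_)
      rw [Real.log_mul (by norm_num) (by positivity), Real.log_mul (by positivity) h3.ne',
        Real.log_pow]
      push_cast
      ring
    have h4 : Real.log 4 ≤ 3 := (Real.log_le_sub_one_of_pos (by norm_num)).trans (by norm_num)
    have h5 : 0 ≤ Real.log ((n : ℝ) + 1) := Real.log_nonneg hn1
    nlinarith [mul_nonneg hL h5]
  have hlogn : 5 + 2 * Real.log ((n : ℝ) + 1) ≤ (5 + 4 / ε) * ((n : ℝ) + 1) ^ (ε / 2) := by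
    have h2 : Real.log ((n : ℝ) + 1) ≤ ((n : ℝ) + 1) ^ (ε / 2) / (ε / 2) :=
      Real.log_le_rpow_div (by linarith) (by positivity)
    have h3 : 1 ≤ ((n : ℝ) + 1) ^ (ε / 2) := Real.one_le_rpow hn1 (by positivity)
    have h4 : 2 * (((n : ℝ) + 1) ^ (ε / 2) / (ε / 2)) = 4 / ε * ((n : ℝ) + 1) ^ (ε / 2) := by
      field_simp
      ring
    nlinarith
  have h2 : ‖∑ p ∈ range n, ((wt A δ ω p : ℂ) - 1) * cf (gp q k) p‖ ≤
      |C| * (5 + 4 / ε) * (1 + Real.log (1 + |t|)) * ((n : ℝ) + 1) ^ (1 / 2 + η + ε) := by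
    refine h1.trans ?_
    have e1 : ((n : ℝ) + 1) ^ (1 / 2 + η + ε) =
        ((n : ℝ) + 1) ^ (ε / 2) * ((n : ℝ) + 1) ^ (1 / 2 + η + ε / 2) := by
      rw [← Real.rpow_add (by linarith)]
      congr 1
      ring
    rw [e1]
    calc C * (1 + Real.log ((q : ℝ) + 1)) * ((n : ℝ) + 1) ^ (1 / 2 + η + ε / 2) ≤
        |C| * (1 + Real.log ((q : ℝ) + 1)) * ((n : ℝ) + 1) ^ (1 / 2 + η + ε / 2) := by
          refine mul_le_mul_of_nonneg_right (mul_le_mul_of_nonneg_right (le_abs_self C) ?_)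
            (by positivity)
          have : 0 ≤ Real.log ((q : ℝ) + 1) := Real.log_nonneg (by
            have : (0 : ℝ) ≤ q := Nat.cast_nonneg q
            linarith)
          linarith
      _ ≤ |C| * ((5 + 2 * Real.log ((n : ℝ) + 1)) * (1 + Real.log (1 + |t|))) *
          ((n : ℝ) + 1) ^ (1 / 2 + η + ε / 2) := by gcongr
      _ ≤ |C| * (((5 + 4 / ε) * ((n : ℝ) + 1) ^ (ε / 2)) * (1 + Real.log (1 + |t|))) *
          ((n : ℝ) + 1) ^ (1 / 2 + η + ε / 2) := by gcongr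
      _ = _ := by ring
  have h3 : ‖∑ p ∈ range n, ((wt A δ ω p : ℂ) - 1) * (cf t p - cf (gp q k) p)‖ ≤
      C₀ * ((n : ℝ) + 1) ^ (1 / 2 + η + ε) := by
    have h4 : ∀ p ∈ range n, ‖((wt A δ ω p : ℂ) - 1) * (cf t p - cf (gp q k) p)‖ ≤
        C₀ * ((n : ℝ) + 1) ^ (2 * η + ε) * (n / ((q : ℝ) + 1)) := by
      intro p hp
      rw [mem_range] at hp
      have hpn : (p : ℝ) + 1 ≤ (n : ℝ) + 1 := by
        have : (p : ℝ) < n := by exact_mod_cast hp
        linarith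
      have a1 : 1 ≤ 1 / δ p := by
        rw [le_div_iff₀ (hδ0 p)]
        linarith [hδ1 p]
      have a2 : ‖((wt A δ ω p : ℂ) - 1)‖ ≤ 1 / δ p := by
        rw [← Complex.ofReal_one, ← Complex.ofReal_sub, Complex.norm_real, Real.norm_eq_abs]
        unfold wt
        split_ifs
        · rw [abs_of_nonneg (by linarith)]; linarith
        · rw [zero_sub, abs_neg, abs_one]; exact a1
      have a3 : 1 / δ p ≤ C₀ * ((n : ℝ) + 1) ^ (2 * η + ε) := by
        refine (hinv p).trans (mul_le_mul_of_nonneg_left ?_ hC₀.le)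
        exact Real.rpow_le_rpow (by positivity) hpn (by linarith)
      have a4 : ‖cf t p - cf (gp q k) p‖ ≤ n / ((q : ℝ) + 1) := by
        refine (cf_sub_le _ _ _).trans ?_
        calc |t - gp q k| * (p : ℝ) ≤ 1 / ((q : ℝ) + 1) * n :=
              mul_le_mul hk (by linarith) (Nat.cast_nonneg p) (by positivity)
          _ = _ := by ring
      rw [norm_mul]
      exact mul_le_mul (a2.trans a3) a4 (norm_nonneg _) (by positivity)
    refine (norm_sum_le_of_le _ h4).trans ?_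
    rw [sum_const, card_range, nsmul_eq_mul]
    have h5 : (n : ℝ) * (n / ((q : ℝ) + 1)) ≤ 1 := by
      rw [mul_div_assoc', div_le_one (by positivity), hq]
      push_cast
      have : (0 : ℝ) ≤ ⌈|t|⌉₊ := Nat.cast_nonneg _
      nlinarith
    have h6 : ((n : ℝ) + 1) ^ (2 * η + ε) ≤ ((n : ℝ) + 1) ^ (1 / 2 + η + ε) :=
      Real.rpow_le_rpow_of_exponent_le hn1 (by linarith)
    calc (n : ℝ) * (C₀ * ((n : ℝ) + 1) ^ (2 * η + ε) * (n / ((q : ℝ) + 1))) =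
        C₀ * ((n : ℝ) + 1) ^ (2 * η + ε) * ((n : ℝ) * (n / ((q : ℝ) + 1))) := by ring
      _ ≤ C₀ * ((n : ℝ) + 1) ^ (2 * η + ε) * 1 :=
          mul_le_mul_of_nonneg_left h5 (by positivity)
      _ ≤ _ := by
          rw [mul_one]
          exact mul_le_mul_of_nonneg_left h6 hC₀.le
  have e2 : ∑ p ∈ range n, ((wt A δ ω p : ℂ) - 1) * cf t p =
      ∑ p ∈ range n, ((wt A δ ω p : ℂ) - 1) * cf (gp q k) p +
        ∑ p ∈ range n, ((wt A δ ω p : ℂ) - 1) * (cf t p - cf (gp q k) p) := by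
    rw [← sum_add_distrib]
    exact sum_congr rfl fun p _ => by ring
  rw [e2]
  refine (norm_add_le _ _).trans ((add_le_add h2 h3).trans ?_)
  have h7 : 0 ≤ ((n : ℝ) + 1) ^ (1 / 2 + η + ε) := by positivity
  have h8 : C₀ * ((n : ℝ) + 1) ^ (1 / 2 + η + ε) ≤
      C₀ * (1 + Real.log (1 + |t|)) * ((n : ℝ) + 1) ^ (1 / 2 + η + ε) := by
    refine mul_le_mul_of_nonneg_right (le_mul_of_one_le_right hC₀.le (by linarith)) h7
  calc _ ≤ |C| * (5 + 4 / ε) * (1 + Real.log (1 + |t|)) * ((n : ℝ) + 1) ^ (1 / 2 + η + ε) +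
      C₀ * (1 + Real.log (1 + |t|)) * ((n : ℝ) + 1) ^ (1 / 2 + η + ε) := by linarith
    _ = _ := by ring

end Pool.Agent.H564.LH
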