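import Pool.Agent.H564.SC.Noise

/-! The noise of a sparse random sample of the integers is small uniformly in large families of
bounded sequences. -/

set_option autoImplicit false

namespace Pool.Agent.H564.LH

open Finset Filter Topology MeasureTheory ProbabilityTheory
open Pool.Agent.H564.BSD (wt)
open Pool.Agent.H564.SC (chernoff)

variable {Ω : Type*} [mΩ : MeasurableSpace Ω] {μ : Measure Ω} [IsProbabilityMeasure μ]
  {A : ℕ → Set Ω} {δ : ℕ → ℝ} {η : ℝ}

/-- `δ_n = n^{-2η + o(1)}`. -/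
def Dens (δ : ℕ → ℝ) (η : ℝ) : Prop :=
  ∀ ε : ℝ, 0 < ε → ∀ᶠ n : ℕ in atTop,
    (n : ℝ) ^ (-(2 * η) - ε) ≤ δ n ∧ δ n ≤ (n : ℝ) ^ (-(2 * η) + ε)

theorem Dens.inv_le (h : Dens δ η) (hδ0 : ∀ p, 0 < δ p) (hη : 0 ≤ η) {ε : ℝ} (hε : 0 < ε) :
    ∃ C : ℝ, 0 < C ∧ ∀ n : ℕ, 1 / δ n ≤ C * ((n : ℝ) + 1) ^ (2 * η + ε) := by
  obtain ⟨N, hN⟩ := eventually_atTop.1 ((h ε hε).and (eventually_ge_atTop 1))
  have hs : 0 ≤ ∑ i ∈ Finset.range N, 1 / δ i :=
    Finset.sum_nonneg fun i _ => (one_div_pos.2 (hδ0 i)).le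
  refine ⟨1 + ∑ i ∈ Finset.range N, 1 / δ i, by linarith, fun n => ?_⟩
  have hn1 : (1 : ℝ) ≤ (n : ℝ) + 1 := by
    have : (0 : ℝ) ≤ n := Nat.cast_nonneg n
    linarith
  have hp1 : 1 ≤ ((n : ℝ) + 1) ^ (2 * η + ε) := Real.one_le_rpow hn1 (by linarith)
  rcases lt_or_ge n N with h1 | h1
  · have h2 := Finset.single_le_sum (f := fun i => 1 / δ i)
      (fun i _ => (one_div_pos.2 (hδ0 i)).le) (Finset.mem_range.2 h1)
    have h3 : 1 / δ n ≤ 1 + ∑ i ∈ Finset.range N, 1 / δ i := by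
      linarith
    refine h3.trans (le_mul_of_one_le_right (by linarith) hp1)
  · have h2 := (hN n h1).1.1
    have h4 : (0 : ℝ) < n := by exact_mod_cast (hN n h1).2
    have h3 : 1 / δ n ≤ (n : ℝ) ^ (2 * η + ε) := by
      rw [div_le_iff₀ (hδ0 n)]
      calc (1 : ℝ) = (n : ℝ) ^ (2 * η + ε) * (n : ℝ) ^ (-(2 * η) - ε) := by
            rw [← Real.rpow_add h4]
            rw [show 2 * η + ε + (-(2 * η) - ε) = 0 by ring, Real.rpow_zero]
        _ ≤ (n : ℝ) ^ (2 * η + ε) * δ n := mul_le_mul_of_nonneg_left h2 (by positivity)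
    have h5 : (n : ℝ) ^ (2 * η + ε) ≤ ((n : ℝ) + 1) ^ (2 * η + ε) :=
      Real.rpow_le_rpow h4.le (by linarith) (by linarith)
    refine (h3.trans h5).trans (le_mul_of_one_le_left (by linarith) (by linarith))

/-- **Uniform bound for the noise.** -/
theorem noise_unif (hA : ∀ p, MeasurableSet (A p)) (hind : iIndepSet A μ)
    (hδ0 : ∀ p, 0 < δ p) (hδ1 : ∀ p, δ p ≤ 1) (hμ : ∀ p, μ (A p) = ENNReal.ofReal (δ p))
    (hη : 0 ≤ η) (hη1 : η < 1 / 2) (hd : Dens δ η)
    {ι : ℕ → Type} [∀ q, Fintype (ι q)] (f : ∀ q, ι q → ℕ → ℂ) (hf : ∀ q i p, ‖f q i p‖ ≤ 1)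
    {B : ℕ} (hcard : ∀ q, Fintype.card (ι q) ≤ (q + 1) ^ B) :
    ∀ᵐ ω ∂μ, ∀ ε : ℝ, 0 < ε → ∃ C : ℝ, ∀ (q : ℕ) (i : ι q) (n : ℕ),
      ‖∑ p ∈ range n, ((wt A δ ω p : ℂ) - 1) * f q i p‖ ≤
        C * (1 + Real.log ((q : ℝ) + 1)) * ((n : ℝ) + 1) ^ (1 / 2 + η + ε) := by
  have key : ∀ e : ℝ, 0 < e → e ≤ 1 → ∀ᵐ ω ∂μ, ∃ C : ℝ, ∀ (q : ℕ) (i : ι q) (n : ℕ),
      ‖∑ p ∈ range n, ((wt A δ ω p : ℂ) - 1) * f q i p‖ ≤
        C * (1 + Real.log ((q : ℝ) + 1)) * ((n : ℝ) + 1) ^ (1 / 2 + η + 2 * e) := by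
    intro e he he1
    obtain ⟨C₀, hC₀, hinv⟩ := hd.inv_le hδ0 hη he
    set C₁ : ℝ := max C₀ 1 with hC₁
    have hC₁1 : 1 ≤ C₁ := le_max_right _ _
    have hC₁0 : 0 < C₁ := by linarith
    set s : ℕ → Finset ℕ := fun n => range n with hs
    have hsn : ∀ n, ∀ p ∈ s n, 1 / δ p ≤ C₁ * ((n : ℝ) + 1) ^ (2 * η + e) := by
      intro n p hp
      simp only [hs, mem_range] at hp
      have h1 := hinv p
      have h2 : (p : ℝ) + 1 ≤ (n : ℝ) + 1 := by
        have : (p : ℝ) < n := by exact_mod_cast hp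
        linarith
      refine h1.trans (mul_le_mul (le_max_left _ _) ?_ (by positivity) hC₁0.le)
      exact Real.rpow_le_rpow (by positivity) h2 (by linarith)
    set l : ℕ → ℝ := fun n => ((n : ℝ) + 1) ^ (-(1 / 2 + η + e)) / C₁ with hl
    have hl0 : ∀ n, 0 ≤ l n := fun n => by simp only [hl]; positivity
    have hl1 : ∀ n, ∀ p ∈ s n, l n / δ p ≤ 1 := by
      intro n p hp
      have hn : (0 : ℝ) < (n : ℝ) + 1 := by positivity
      calc l n / δ p = l n * (1 / δ p) := by ring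
        _ ≤ l n * (C₁ * ((n : ℝ) + 1) ^ (2 * η + e)) :=
            mul_le_mul_of_nonneg_left (hsn n p hp) (hl0 n)
        _ = ((n : ℝ) + 1) ^ (-(1 / 2 + η + e)) * ((n : ℝ) + 1) ^ (2 * η + e) := by
            simp only [hl]
            field_simp
        _ = ((n : ℝ) + 1) ^ (η - 1 / 2) := by
            rw [← Real.rpow_add hn]
            congr 1
            ring
        _ ≤ 1 := Real.rpow_le_one_of_one_le_of_nonpos (by
            have : (0 : ℝ) ≤ n := Nat.cast_nonneg n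
            linarith) (by linarith)
    have hl2 : ∀ n, l n ^ 2 * ∑ p ∈ s n, 1 / δ p ≤ 1 := by
      intro n
      have hn : (0 : ℝ) < (n : ℝ) + 1 := by positivity
      have h1 : ∑ p ∈ s n, 1 / δ p ≤ ((n : ℝ) + 1) * (C₁ * ((n : ℝ) + 1) ^ (2 * η + e)) := by
        refine (sum_le_card_nsmul _ _ _ (hsn n)).trans ?_
        rw [nsmul_eq_mul]
        refine mul_le_mul_of_nonneg_right ?_ (by positivity)
        have h2 : (s n).card ≤ n := (card_range n).le
        have : ((s n).card : ℝ) ≤ n := by exact_mod_cast h2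
        linarith
      calc l n ^ 2 * ∑ p ∈ s n, 1 / δ p ≤
          l n ^ 2 * (((n : ℝ) + 1) * (C₁ * ((n : ℝ) + 1) ^ (2 * η + e))) :=
            mul_le_mul_of_nonneg_left h1 (sq_nonneg _)
        _ = 1 / C₁ * ((((n : ℝ) + 1) ^ (-(1 / 2 + η + e))) ^ 2 *
              (((n : ℝ) + 1) ^ (1 : ℝ) * ((n : ℝ) + 1) ^ (2 * η + e))) := by
            rw [Real.rpow_one]
            simp only [hl]
            field_simp
        _ = 1 / C₁ * ((n : ℝ) + 1) ^ (-e) := by
            rw [← Real.rpow_natCast, ← Real.rpow_mul hn.le, ← Real.rpow_add hn, ← Real.rpow_add hn]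
            congr 2
            push_cast
            ring
        _ ≤ 1 * 1 := by
            refine mul_le_mul ?_ ?_ (by positivity) (by norm_num)
            · rw [div_le_one hC₁0]; exact hC₁1
            · refine Real.rpow_le_one_of_one_le_of_nonpos ?_ (by linarith)
              have : (0 : ℝ) ≤ n := Nat.cast_nonneg n
              linarith
        _ = 1 := one_mul 1
    set K : ℝ := ((B : ℝ) + 4) * (2 / e) with hK
    have h2e : 1 ≤ 2 / e := by rw [le_div_iff₀ he]; linarith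
    have hK0 : 0 < K := by positivity
    set t : ℕ → ℕ → ℝ := fun q n =>
      K * C₁ * (1 + Real.log ((q : ℝ) + 1)) * ((n : ℝ) + 1) ^ (1 / 2 + η + 2 * e) with ht
    have hlog : ∀ q : ℕ, 0 ≤ Real.log ((q : ℝ) + 1) := fun q =>
      Real.log_nonneg (by have : (0 : ℝ) ≤ q := Nat.cast_nonneg q; linarith)
    have hlt : ∀ q n : ℕ, ((B : ℝ) + 4) * Real.log ((q : ℝ) + 1) + 2 * Real.log ((n : ℝ) + 1) ≤
        l n * t q n := by
      intro q n
      have hn : (0 : ℝ) < (n : ℝ) + 1 := by positivity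
      have e1 : l n * t q n = K * (1 + Real.log ((q : ℝ) + 1)) * ((n : ℝ) + 1) ^ e := by
        have : ((n : ℝ) + 1) ^ (-(1 / 2 + η + e)) * ((n : ℝ) + 1) ^ (1 / 2 + η + 2 * e) =
            ((n : ℝ) + 1) ^ e := by
          rw [← Real.rpow_add hn]
          congr 1
          ring
        simp only [hl, ht]
        rw [← this]
        field_simp
      rw [e1]
      have h3 : 1 ≤ ((n : ℝ) + 1) ^ e := Real.one_le_rpow (by
        have : (0 : ℝ) ≤ n := Nat.cast_nonneg n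
        linarith) he.le
      have h4 : Real.log ((n : ℝ) + 1) ≤ ((n : ℝ) + 1) ^ e / e := Real.log_le_rpow_div hn.le he
      have h5 : 2 * Real.log ((n : ℝ) + 1) ≤ K * ((n : ℝ) + 1) ^ e := by
        calc 2 * Real.log ((n : ℝ) + 1) ≤ 2 * (((n : ℝ) + 1) ^ e / e) := by linarith
          _ = 1 * (2 / e) * ((n : ℝ) + 1) ^ e := by ring
          _ ≤ K * ((n : ℝ) + 1) ^ e := by
              refine mul_le_mul_of_nonneg_right ?_ (by linarith)
              rw [hK]
              refine mul_le_mul_of_nonneg_right ?_ (by positivity)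
              have : (0 : ℝ) ≤ B := Nat.cast_nonneg B
              linarith
      have h6 : ((B : ℝ) + 4) * Real.log ((q : ℝ) + 1) ≤
          K * Real.log ((q : ℝ) + 1) * ((n : ℝ) + 1) ^ e := by
        have h7 : ((B : ℝ) + 4) ≤ K := by
          rw [hK]
          exact le_mul_of_one_le_right (by positivity) h2e
        calc ((B : ℝ) + 4) * Real.log ((q : ℝ) + 1) ≤ K * Real.log ((q : ℝ) + 1) :=
              mul_le_mul_of_nonneg_right h7 (hlog q)
          _ ≤ _ := le_mul_of_one_le_right (mul_nonneg hK0.le (hlog q)) h3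
      calc _ ≤ K * Real.log ((q : ℝ) + 1) * ((n : ℝ) + 1) ^ e + K * ((n : ℝ) + 1) ^ e :=
            add_le_add h6 h5
        _ = _ := by ring
    -- one event
    have hone : ∀ (q n : ℕ) (u : ℕ → ℝ), (∀ p, |u p| ≤ 1) →
        μ {ω | t q n ≤ ∑ p ∈ s n, (wt A δ ω p - 1) * u p} ≤ ENNReal.ofReal
          (Real.exp 1 * (((q : ℝ) + 1) ^ (B + 4))⁻¹ * (((n : ℝ) + 1) ^ 2)⁻¹) := by
      intro q n u hu
      have h3 := chernoff (μ := μ) hA hind hδ0 hδ1 hμ u hu (s n) (hl0 n) (hl1 n) (t q n)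
      rw [← ofReal_measureReal]
      refine ENNReal.ofReal_le_ofReal (h3.trans ?_)
      have hq0 : (0 : ℝ) < (q : ℝ) + 1 := by positivity
      have hn0 : (0 : ℝ) < (n : ℝ) + 1 := by positivity
      have e1 : Real.exp 1 * (((q : ℝ) + 1) ^ (B + 4))⁻¹ * (((n : ℝ) + 1) ^ 2)⁻¹ =
          Real.exp (1 - (((B : ℝ) + 4) * Real.log ((q : ℝ) + 1) + 2 * Real.log ((n : ℝ) + 1))) := by
        rw [Real.exp_sub, Real.exp_add, div_eq_mul_inv, mul_inv, ← mul_assoc]
        congr 3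
        · rw [mul_comm, Real.exp_mul, Real.exp_log hq0, ← Real.rpow_natCast]
          push_cast
          rfl
        · rw [mul_comm, Real.exp_mul, Real.exp_log hn0, ← Real.rpow_natCast]
          push_cast
          rfl
      rw [e1]
      exact Real.exp_le_exp.2 (by linarith [hl2 n, hlt q n])
    -- the exceptional events
    set E : ℕ × ℕ → Set Ω := fun x => ⋃ i : ι x.1,
      ({ω | t x.1 x.2 ≤ ∑ p ∈ s x.2, (wt A δ ω p - 1) * (f x.1 i p).re} ∪
        {ω | t x.1 x.2 ≤ ∑ p ∈ s x.2, (wt A δ ω p - 1) * (-(f x.1 i p).re)}) ∪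
      ({ω | t x.1 x.2 ≤ ∑ p ∈ s x.2, (wt A δ ω p - 1) * (f x.1 i p).im} ∪
        {ω | t x.1 x.2 ≤ ∑ p ∈ s x.2, (wt A δ ω p - 1) * (-(f x.1 i p).im)}) with hE
    have hEμ : ∀ x, μ (E x) ≤ ENNReal.ofReal (4 * Real.exp 1 *
        ((((x.1 : ℝ) + 1) ^ 4)⁻¹ * (((x.2 : ℝ) + 1) ^ 2)⁻¹)) := by
      rintro ⟨q, n⟩
      simp only [hE]
      set b : ℝ := Real.exp 1 * (((q : ℝ) + 1) ^ (B + 4))⁻¹ * (((n : ℝ) + 1) ^ 2)⁻¹ with hb
      have hb0 : 0 ≤ b := by positivity
      refine (measure_iUnion_fintype_le _ _).trans ?_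
      have h4 : ∀ i : ι q, μ (({ω | t q n ≤ ∑ p ∈ s n, (wt A δ ω p - 1) * (f q i p).re} ∪
          {ω | t q n ≤ ∑ p ∈ s n, (wt A δ ω p - 1) * (-(f q i p).re)}) ∪
          ({ω | t q n ≤ ∑ p ∈ s n, (wt A δ ω p - 1) * (f q i p).im} ∪
          {ω | t q n ≤ ∑ p ∈ s n, (wt A δ ω p - 1) * (-(f q i p).im)})) ≤
          ENNReal.ofReal (4 * b) := by
        intro i
        have r1 : ∀ p, |(f q i p).re| ≤ 1 := fun p =>
          (Complex.abs_re_le_norm _).trans (hf q i p)
        have r2 : ∀ p, |(f q i p).im| ≤ 1 := fun p =>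
          (Complex.abs_im_le_norm _).trans (hf q i p)
        have a1 := hone q n _ r1
        have a2 := hone q n (fun p => -(f q i p).re) (fun p => by rw [abs_neg]; exact r1 p)
        have a3 := hone q n _ r2
        have a4 := hone q n (fun p => -(f q i p).im) (fun p => by rw [abs_neg]; exact r2 p)
        have e4 : ENNReal.ofReal (4 * b) = (ENNReal.ofReal b + ENNReal.ofReal b) +
            (ENNReal.ofReal b + ENNReal.ofReal b) := by
          rw [← ENNReal.ofReal_add hb0 hb0, ← ENNReal.ofReal_add (by positivity) (by positivity)]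
          congr 1
          ring
        rw [e4]
        refine (measure_union_le _ _).trans (add_le_add ?_ ?_)
        · exact (measure_union_le _ _).trans (add_le_add a1 a2)
        · exact (measure_union_le _ _).trans (add_le_add a3 a4)
      refine (sum_le_sum fun i _ => h4 i).trans ?_
      rw [sum_const, card_univ, nsmul_eq_mul, ← ENNReal.ofReal_natCast, ← ENNReal.ofReal_mul
        (Nat.cast_nonneg _)]
      refine ENNReal.ofReal_le_ofReal ?_
      have h5 : (Fintype.card (ι q) : ℝ) ≤ ((q : ℝ) + 1) ^ B := by exact_mod_cast hcard q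
      calc (Fintype.card (ι q) : ℝ) * (4 * b) ≤ ((q : ℝ) + 1) ^ B * (4 * b) :=
            mul_le_mul_of_nonneg_right h5 (by positivity)
        _ = _ := by
            rw [hb, pow_add]
            have : ((q : ℝ) + 1) ^ B ≠ 0 := by positivity
            field_simp
    have hsum : ∑' x, μ (E x) ≠ ⊤ := by
      have h4 : Summable fun x : ℕ × ℕ => 4 * Real.exp 1 *
          ((((x.1 : ℝ) + 1) ^ 4)⁻¹ * (((x.2 : ℝ) + 1) ^ 2)⁻¹) := by
        refine Summable.mul_left _ ?_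
        refine Summable.mul_of_nonneg (f := fun q : ℕ => (((q : ℝ) + 1) ^ 4)⁻¹)
          (g := fun n : ℕ => (((n : ℝ) + 1) ^ 2)⁻¹) ?_ ?_ (fun _ => by positivity)
          (fun _ => by positivity)
        · have := (summable_nat_add_iff 1).2 (Real.summable_nat_pow_inv.2 (by norm_num : 1 < 4))
          simpa using this
        · have := (summable_nat_add_iff 1).2 (Real.summable_nat_pow_inv.2 (by norm_num : 1 < 2))
          simpa using this
      exact ne_top_of_le_ne_top h4.tsum_ofReal_ne_top (ENNReal.tsum_le_tsum hEμ)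
    filter_upwards [ae_finite_setOfPred_mem hsum] with ω hω
    set T : Finset (ℕ × ℕ) := hω.toFinset with hT
    set D : ℕ → ℝ := fun n => ∑ p ∈ s n, |wt A δ ω p - 1| with hD
    have hD0 : ∀ n, 0 ≤ D n := fun n => sum_nonneg fun _ _ => abs_nonneg _
    refine ⟨2 * (K * C₁) + ∑ x ∈ T, D x.2, fun q i n => ?_⟩
    have hC0 : 0 ≤ ∑ x ∈ T, D x.2 := sum_nonneg fun x _ => hD0 _
    have hn0 : (0 : ℝ) < (n : ℝ) + 1 := by positivity
    have hR1 : 1 ≤ (1 + Real.log ((q : ℝ) + 1)) * ((n : ℝ) + 1) ^ (1 / 2 + η + 2 * e) := by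
      have h6 : 1 ≤ ((n : ℝ) + 1) ^ (1 / 2 + η + 2 * e) := Real.one_le_rpow (by
        have : (0 : ℝ) ≤ n := Nat.cast_nonneg n
        linarith) (by positivity)
      have h7 := hlog q
      nlinarith
    by_cases hx : (q, n) ∈ T
    · have h6 : ‖∑ p ∈ s n, ((wt A δ ω p : ℂ) - 1) * f q i p‖ ≤ D n := by
        refine (norm_sum_le _ _).trans (sum_le_sum fun p _ => ?_)
        rw [norm_mul]
        have e1 : ‖((wt A δ ω p : ℂ) - 1)‖ = |wt A δ ω p - 1| := by
          rw [← Complex.ofReal_one, ← Complex.ofReal_sub, Complex.norm_real, Real.norm_eq_abs]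
        rw [e1]
        exact mul_le_of_le_one_right (abs_nonneg _) (hf q i p)
      refine h6.trans ?_
      have h7 : D n ≤ ∑ x ∈ T, D x.2 :=
        single_le_sum (f := fun x : ℕ × ℕ => D x.2) (fun x _ => hD0 _) hx
      have h8 : D n ≤ 2 * (K * C₁) + ∑ x ∈ T, D x.2 := by
        have : 0 ≤ K * C₁ := by positivity
        linarith
      rw [mul_assoc]
      exact h8.trans (le_mul_of_one_le_right (by positivity) hR1)
    · have hx' : ω ∉ E (q, n) := by
        intro h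
        exact hx (by rw [hT, Set.Finite.mem_toFinset]; exact h)
      simp only [hE, Set.mem_iUnion, Set.mem_union, Set.mem_ofPred_eq, not_exists, not_or,
        not_le] at hx'
      obtain ⟨⟨a1, a2⟩, a3, a4⟩ := hx' i
      set N : ℂ := ∑ p ∈ s n, ((wt A δ ω p : ℂ) - 1) * f q i p with hN
      have hre : N.re = ∑ p ∈ s n, (wt A δ ω p - 1) * (f q i p).re := by
        rw [hN, Complex.re_sum]
        refine sum_congr rfl fun p _ => ?_
        rw [← Complex.ofReal_one, ← Complex.ofReal_sub, Complex.re_ofReal_mul]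
      have him : N.im = ∑ p ∈ s n, (wt A δ ω p - 1) * (f q i p).im := by
        rw [hN, Complex.im_sum]
        refine sum_congr rfl fun p _ => ?_
        rw [← Complex.ofReal_one, ← Complex.ofReal_sub, Complex.im_ofReal_mul]
      have e2 : ∑ p ∈ s n, (wt A δ ω p - 1) * (-(f q i p).re) = -N.re := by
        rw [hre, ← sum_neg_distrib]
        exact sum_congr rfl fun p _ => by ring
      have e3 : ∑ p ∈ s n, (wt A δ ω p - 1) * (-(f q i p).im) = -N.im := by
        rw [him, ← sum_neg_distrib]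
        exact sum_congr rfl fun p _ => by ring
      rw [← hre] at a1
      rw [← him] at a3
      rw [e2] at a2
      rw [e3] at a4
      have h6 : ‖N‖ ≤ |N.re| + |N.im| := Complex.norm_le_abs_re_add_abs_im N
      have h7 : |N.re| ≤ t q n := abs_le.2 ⟨by linarith, by linarith⟩
      have h8 : |N.im| ≤ t q n := abs_le.2 ⟨by linarith, by linarith⟩
      refine h6.trans ((add_le_add h7 h8).trans ?_)
      simp only [ht]
      have h9 : 0 ≤ (∑ x ∈ T, D x.2) * ((1 + Real.log ((q : ℝ) + 1)) *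
          ((n : ℝ) + 1) ^ (1 / 2 + η + 2 * e)) := mul_nonneg hC0 (by linarith)
      nlinarith
  have key2 : ∀ᵐ ω ∂μ, ∀ k : ℕ, ∃ C : ℝ, ∀ (q : ℕ) (i : ι q) (n : ℕ),
      ‖∑ p ∈ range n, ((wt A δ ω p : ℂ) - 1) * f q i p‖ ≤
        C * (1 + Real.log ((q : ℝ) + 1)) * ((n : ℝ) + 1) ^ (1 / 2 + η + 2 * (1 / ((k : ℝ) + 1))) := by
    rw [ae_all_iff]
    intro k
    refine key _ (by positivity) ?_
    rw [div_le_one (by positivity)]
    linarith [Nat.cast_nonneg (α := ℝ) k]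
  filter_upwards [key2] with ω hω ε hε
  obtain ⟨k, hk⟩ := exists_nat_one_div_lt (show 0 < ε / 2 by positivity)
  obtain ⟨C, hC⟩ := hω k
  refine ⟨|C|, fun q i n => (hC q i n).trans ?_⟩
  have hl0 : 0 ≤ Real.log ((q : ℝ) + 1) := Real.log_nonneg (by
    have : (0 : ℝ) ≤ q := Nat.cast_nonneg q
    linarith)
  have hn1 : (1 : ℝ) ≤ (n : ℝ) + 1 := by
    have : (0 : ℝ) ≤ n := Nat.cast_nonneg n
    linarith
  have h1 : ((n : ℝ) + 1) ^ (1 / 2 + η + 2 * (1 / ((k : ℝ) + 1))) ≤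
      ((n : ℝ) + 1) ^ (1 / 2 + η + ε) := Real.rpow_le_rpow_of_exponent_le hn1 (by linarith)
  have h2 : 0 ≤ ((n : ℝ) + 1) ^ (1 / 2 + η + 2 * (1 / ((k : ℝ) + 1))) := by positivity
  calc _ ≤ |C| * (1 + Real.log ((q : ℝ) + 1)) *
        ((n : ℝ) + 1) ^ (1 / 2 + η + 2 * (1 / ((k : ℝ) + 1))) := by
        refine mul_le_mul_of_nonneg_right (mul_le_mul_of_nonneg_right (le_abs_self C) ?_) h2
        linarith
    _ ≤ _ := mul_le_mul_of_nonneg_left h1 (mul_nonneg (abs_nonneg _) (by linarith))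

end Pool.Agent.H564.LH
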