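import Pool.Agent.H564.LH.Down2

/-! Optimality: a weight with small exponential sums uses many integers. -/

set_option autoImplicit false

open MeasureTheory Filter Topology Set Complex

namespace Pool.Agent.H564.LH

/-- the sums `∑_{n ≤ x} w(n) (-1)^(n+1) n^(-it)` -/
noncomputable def S (w : ℕ → ℂ) (t x : ℝ) : ℂ :=
  ∑ n ∈ Finset.Icc 1 ⌊x⌋₊, w n * (-1) ^ (n + 1) * (n : ℂ) ^ (-((t : ℂ) * I))

theorem S_eq (w : ℕ → ℂ) (t x : ℝ) : S w t x = ∑ n ∈ Finset.range (⌊x⌋₊ + 1), w n * cf t n := by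
  rw [Finset.range_eq_Ico, Finset.sum_eq_sum_Ico_succ_bot (Nat.succ_pos _), cf_zero, mul_zero,
    zero_add]
  unfold S
  have e : Finset.Ico (0 + 1) (⌊x⌋₊ + 1) = Finset.Icc 1 ⌊x⌋₊ := by
    ext k
    simp only [Finset.mem_Icc, Finset.mem_Ico]
    omega
  rw [e]
  refine Finset.sum_congr rfl fun n hn => ?_
  rw [Finset.mem_Icc] at hn
  unfold cf
  rw [if_neg (by omega)]
  ring

/-- `|∑_{n ≤ x} w(n)| ≥ x^(1-ε)` for all large `x` -/
def Normalised (w : ℕ → ℂ) : Prop := ∀ ε : ℝ, 0 < ε → ∀ᶠ x : ℝ in atTop,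
  x ^ (1 - ε) ≤ ‖∑ n ∈ Finset.Icc 1 ⌊x⌋₊, w n‖

open Classical in
/-- the number of the integers `1 ≤ n ≤ x` with `w(n) ≠ 0` -/
noncomputable def used (w : ℕ → ℂ) (x : ℝ) : ℝ :=
  (((Finset.Icc 1 ⌊x⌋₊).filter fun n => w n ≠ 0).card : ℝ)

/-- the uniform bound -/
def Bound (w : ℕ → ℂ) (y κ : ℝ) : Prop := ∀ ε : ℝ, 0 < ε → ∃ C : ℝ, ∀ t x : ℝ, 1 ≤ x →
  ‖S w t x‖ ≤ C * (1 + |t|) ^ (κ + ε) * x ^ (1 / 2 + y + ε)

/-- the uniform bound for the short sums, `x ≤ 1 + |t|` -/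
def BoundShort (w : ℕ → ℂ) (y κ : ℝ) : Prop := ∀ ε : ℝ, 0 < ε → ∃ C : ℝ, ∀ t x : ℝ, 1 ≤ x →
  x ≤ 1 + |t| → ‖S w t x‖ ≤ C * (1 + |t|) ^ (κ + ε) * x ^ (1 / 2 + y + ε)

theorem log_sep {N m n : ℕ} (hm : 1 ≤ m) (hn : 1 ≤ n) (hmN : m ≤ N) (hnN : n ≤ N) (h : m ≠ n) :
    |(m : ℝ) - n| / (N : ℝ) ≤ |Real.log m - Real.log n| := by
  wlog hlt : m < n generalizing m n
  · rw [abs_sub_comm, abs_sub_comm (Real.log m)]
    exact this hn hm hnN hmN h.symm (by omega)
  have hm0 : (0 : ℝ) < m := by exact_mod_cast hm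
  have hn0 : (0 : ℝ) < n := by exact_mod_cast hn
  have hN0 : (0 : ℝ) < N := by exact_mod_cast (by omega : 0 < N)
  have hmn : (m : ℝ) < n := by exact_mod_cast hlt
  have h1 : Real.log m - Real.log n ≤ m / n - 1 := by
    rw [← Real.log_div hm0.ne' hn0.ne']
    exact Real.log_le_sub_one_of_pos (by positivity)
  have h2 : (m : ℝ) / n - 1 ≤ -((n - m) / N) := by
    have h4 : (n : ℝ) ≤ N := by exact_mod_cast hnN
    have h5 : (m : ℝ) / n - 1 = -((n - m) / n) := by field_simp; ring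
    rw [h5]
    apply neg_le_neg
    exact div_le_div_of_nonneg_left (by linarith) hn0 h4
  have h3 : 0 < ((n : ℝ) - m) / N := div_pos (by linarith) hN0
  rw [abs_of_neg (by linarith : (m : ℝ) - n < 0), abs_of_neg (by linarith)]
  have e : -((m : ℝ) - n) / N = (n - m) / N := by ring
  rw [e]
  linarith

theorem int_exp {N m n : ℕ} (hm : 1 ≤ m) (hn : 1 ≤ n) (hmN : m ≤ N) (hnN : n ≤ N) (h : m ≠ n)
    (a b : ℝ) :
    ‖∫ v in a..b, cexp ((((Real.log m - Real.log n : ℝ) : ℂ) * I) * v)‖ ≤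
      2 * N * (1 / |(n : ℝ) - m|) := by
  have h1 := log_sep hm hn hmN hnN h
  have hN0 : (0 : ℝ) < N := by exact_mod_cast (by omega : 0 < N)
  have hmn : (m : ℝ) - n ≠ 0 := sub_ne_zero.2 (by exact_mod_cast h)
  have hmn0 : 0 < |(m : ℝ) - n| := abs_pos.2 hmn
  have h2 : 0 < |Real.log m - Real.log n| := lt_of_lt_of_le (div_pos hmn0 hN0) h1
  have h3 : Real.log m - Real.log n ≠ 0 := abs_pos.1 h2
  have h4 : (((Real.log m - Real.log n : ℝ) : ℂ) * I) ≠ 0 :=
    mul_ne_zero (Complex.ofReal_ne_zero.2 h3) I_ne_zero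
  rw [integral_exp_mul_complex h4, norm_div, norm_mul, Complex.norm_real, norm_I, mul_one,
    Real.norm_eq_abs, div_le_iff₀ h2]
  have h5 : ∀ x : ℝ, ‖cexp ((((Real.log m - Real.log n : ℝ) : ℂ) * I) * x)‖ = 1 := by
    intro x
    have : (((Real.log m - Real.log n : ℝ) : ℂ) * I) * x =
        (((Real.log m - Real.log n) * x : ℝ) : ℂ) * I := by
      push_cast
      ring
    rw [this, Complex.norm_exp_ofReal_mul_I]
  refine (norm_sub_le _ _).trans ?_
  rw [h5, h5, abs_sub_comm (n : ℝ)]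
  have h6 : 2 ≤ 2 * N * (1 / |(m : ℝ) - n|) * (|(m : ℝ) - n| / N) := by
    apply le_of_eq
    field_simp
  calc (1 : ℝ) + 1 = 2 := by norm_num
    _ ≤ _ := h6
    _ ≤ _ := mul_le_mul_of_nonneg_left h1 (by positivity)

/-- the sum over `k ≤ N` of `1/k` -/
theorem harm_le {N : ℕ} (hN : 1 ≤ N) : ∑ k ∈ Finset.Icc 1 N, 1 / (k : ℝ) ≤ 1 + Real.log N := by
  have h := harmonic_le_one_add_log N
  have e : ((harmonic N : ℚ) : ℝ) = ∑ k ∈ Finset.Icc 1 N, 1 / (k : ℝ) := by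
    rw [harmonic_eq_sum_Icc]
    push_cast
    exact Finset.sum_congr rfl fun k _ => by rw [one_div]
  rwa [e] at h

/-- row sums -/
theorem row {N n : ℕ} (hN : 1 ≤ N) (hn : 1 ≤ n) (hnN : n ≤ N) :
    ∑ m ∈ Finset.Icc 1 N, (if n = m then 0 else 1 / |(n : ℝ) - m|) ≤ 2 * (1 + Real.log N) := by
  have h1 : ∑ m ∈ Finset.Icc 1 N, (if n = m then 0 else 1 / |(n : ℝ) - m|) ≤
      ∑ m ∈ Finset.Icc 1 N, (if m < n then 1 / ((n - m : ℕ) : ℝ) else 0) +
        ∑ m ∈ Finset.Icc 1 N, (if n < m then 1 / ((m - n : ℕ) : ℝ) else 0) := by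
    rw [← Finset.sum_add_distrib]
    refine Finset.sum_le_sum fun m _ => ?_
    rcases lt_trichotomy n m with h | h | h
    · have h' : (n : ℝ) < m := by exact_mod_cast h
      rw [if_neg h.ne, if_neg (by omega), if_pos h, zero_add, Nat.cast_sub h.le,
        abs_of_neg (by linarith), neg_sub]
    · rw [if_pos h, if_neg (by omega), if_neg (by omega)]
      simp
    · have h' : (m : ℝ) < n := by exact_mod_cast h
      rw [if_neg h.ne', if_pos h, if_neg (by omega), add_zero, Nat.cast_sub h.le,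
        abs_of_pos (by linarith)]
  have h2 : ∑ m ∈ Finset.Icc 1 N, (if m < n then 1 / ((n - m : ℕ) : ℝ) else 0) ≤
      ∑ k ∈ Finset.Icc 1 N, 1 / (k : ℝ) := by
    rw [← Finset.sum_filter]
    have h3 : ∑ m ∈ (Finset.Icc 1 N).filter (fun m => m < n), 1 / ((n - m : ℕ) : ℝ) =
        ∑ k ∈ ((Finset.Icc 1 N).filter (fun m => m < n)).image (fun m => n - m), 1 / (k : ℝ) := by
      rw [Finset.sum_image]
      intro a ha b hb hab
      simp only [Finset.coe_filter, Finset.mem_Icc, Set.mem_setOf_eq] at ha hb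
      simp only at hab
      omega
    rw [h3]
    refine Finset.sum_le_sum_of_subset_of_nonneg ?_ fun _ _ _ => by positivity
    intro k hk
    rw [Finset.mem_image] at hk
    obtain ⟨m, hm, rfl⟩ := hk
    rw [Finset.mem_filter, Finset.mem_Icc] at hm
    rw [Finset.mem_Icc]
    omega
  have h2' : ∑ m ∈ Finset.Icc 1 N, (if n < m then 1 / ((m - n : ℕ) : ℝ) else 0) ≤
      ∑ k ∈ Finset.Icc 1 N, 1 / (k : ℝ) := by
    rw [← Finset.sum_filter]
    have h3 : ∑ m ∈ (Finset.Icc 1 N).filter (fun m => n < m), 1 / ((m - n : ℕ) : ℝ) =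
        ∑ k ∈ ((Finset.Icc 1 N).filter (fun m => n < m)).image (fun m => m - n), 1 / (k : ℝ) := by
      rw [Finset.sum_image]
      intro a ha b hb hab
      simp only [Finset.coe_filter, Finset.mem_Icc, Set.mem_setOf_eq] at ha hb
      simp only at hab
      omega
    rw [h3]
    refine Finset.sum_le_sum_of_subset_of_nonneg ?_ fun _ _ _ => by positivity
    intro k hk
    rw [Finset.mem_image] at hk
    obtain ⟨m, hm, rfl⟩ := hk
    rw [Finset.mem_filter, Finset.mem_Icc] at hm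
    rw [Finset.mem_Icc]
    omega
  have := harm_le hN
  linarith

/-- **mean values** -/
theorem mean_value {N : ℕ} (hN : 1 ≤ N) (a : ℕ → ℂ) :
    ∃ v : ℝ, v ∈ Icc (16 * (N * (1 + Real.log N))) (32 * (N * (1 + Real.log N))) ∧
    ∑ n ∈ Finset.Icc 1 N, ‖a n‖ ^ 2 ≤
      2 * ‖∑ n ∈ Finset.Icc 1 N, a n * (n : ℂ) ^ (-((v : ℂ) * I))‖ ^ 2 := by
  by_contra hcon
  push Not at hcon
  have hN0 : (0 : ℝ) < N := by exact_mod_cast hN
  have hlog : 0 ≤ Real.log N := Real.log_natCast_nonneg N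
  set T : ℝ := 16 * (N * (1 + Real.log N)) with hT
  have hT0 : 0 < T := by positivity
  set s : Finset ℕ := Finset.Icc 1 N with hs
  set Q : ℝ := ∑ n ∈ s, ‖a n‖ ^ 2 with hQ
  set F : ℝ → ℂ := fun v => ∑ n ∈ s, a n * (n : ℂ) ^ (-((v : ℂ) * I)) with hF
  have hlt : ∀ v ∈ Icc T (T + T), 2 * ‖F v‖ ^ 2 < Q := by
    intro v hv
    refine hcon v ⟨hv.1, hv.2.trans (le_of_eq ?_)⟩
    rw [hT]
    ring
  have hQ0 : 0 < Q := by
    have := hlt T ⟨le_rfl, by linarith⟩
    have h2 : 0 ≤ 2 * ‖F T‖ ^ 2 := by positivity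
    linarith
  have hterm : ∀ n ∈ s, ∀ v : ℝ, a n * (n : ℂ) ^ (-((v : ℂ) * I)) =
      a n * cexp ((((-Real.log n : ℝ) : ℂ) * I) * v) := by
    intro n hn v
    rw [hs, Finset.mem_Icc] at hn
    rw [cpow_eq v (by omega)]
    congr 2
    push_cast
    ring
  have hFc : Continuous F := by
    have : F = fun v : ℝ => ∑ n ∈ s, a n * cexp ((((-Real.log n : ℝ) : ℂ) * I) * v) := by
      funext v
      exact Finset.sum_congr rfl fun n hn => hterm n hn v
    rw [this]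
    fun_prop
  have hint : IntervalIntegrable (fun v => ‖F v‖ ^ 2) volume T (T + T) :=
    ((hFc.norm).pow 2).intervalIntegrable _ _
  -- upper bound
  have hup : ∫ v in T..(T + T), ‖F v‖ ^ 2 ≤ T * (Q / 2) := by
    have h1 : ∫ v in T..(T + T), ‖F v‖ ^ 2 ≤ ∫ v in T..(T + T), (Q / 2) := by
      refine intervalIntegral.integral_mono_on (by linarith) hint
        (intervalIntegrable_const) fun v hv => ?_
      linarith [hlt v hv]
    rw [intervalIntegral.integral_const, smul_eq_mul] at h1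
    calc _ ≤ _ := h1
      _ = _ := by ring
  -- expansion
  have hexp : ((∫ v in T..(T + T), ‖F v‖ ^ 2 : ℝ) : ℂ) = ∑ n ∈ s, ∑ m ∈ s,
      a n * (starRingEnd ℂ) (a m) *
        ∫ v in T..(T + T), cexp ((((Real.log m - Real.log n : ℝ) : ℂ) * I) * v) := by
    rw [← intervalIntegral.integral_ofReal]
    have h1 : ∀ v : ℝ, ((‖F v‖ ^ 2 : ℝ) : ℂ) = ∑ n ∈ s, ∑ m ∈ s,
        a n * (starRingEnd ℂ) (a m) * cexp ((((Real.log m - Real.log n : ℝ) : ℂ) * I) * v) := by
      intro v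
      rw [Complex.ofReal_pow, ← Complex.mul_conj', hF]
      simp only
      rw [map_sum, Finset.sum_mul_sum]
      refine Finset.sum_congr rfl fun n hn => Finset.sum_congr rfl fun m hm => ?_
      rw [hterm n hn v, hterm m hm v, map_mul, ← Complex.exp_conj]
      have e1 : (starRingEnd ℂ) ((((-Real.log m : ℝ) : ℂ) * I) * v) =
          (((Real.log m : ℝ) : ℂ) * I) * v := by
        rw [map_mul, map_mul, Complex.conj_ofReal, Complex.conj_ofReal, Complex.conj_I]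
        push_cast
        ring
      rw [e1]
      have e2 : cexp ((((Real.log m - Real.log n : ℝ) : ℂ) * I) * v) =
          cexp ((((-Real.log n : ℝ) : ℂ) * I) * v) * cexp ((((Real.log m : ℝ) : ℂ) * I) * v) := by
        rw [← Complex.exp_add]
        congr 1
        push_cast
        ring
      rw [e2]
      ring
    simp only [h1]
    rw [intervalIntegral.integral_finsetSum fun n _ => by
      apply Continuous.intervalIntegrable
      fun_prop]
    refine Finset.sum_congr rfl fun n _ => ?_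
    rw [intervalIntegral.integral_finsetSum fun m _ => by
      apply Continuous.intervalIntegrable
      fun_prop]
    refine Finset.sum_congr rfl fun m _ => ?_
    rw [intervalIntegral.integral_const_mul]
  -- the difference from the diagonal
  have hdiag : ∀ n ∈ s, ∀ m ∈ s, ‖a n * (starRingEnd ℂ) (a m) *
        (∫ v in T..(T + T), cexp ((((Real.log m - Real.log n : ℝ) : ℂ) * I) * v)) -
        (if n = m then ((T * ‖a n‖ ^ 2 : ℝ) : ℂ) else 0)‖ ≤
        2 * N * (‖a n‖ * ‖a m‖ * (if n = m then 0 else 1 / |(n : ℝ) - m|)) := by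
    intro n hn m hm
    rw [hs, Finset.mem_Icc] at hn hm
    split_ifs with h
    · subst h
      have e1 : ∫ v in T..(T + T), cexp ((((Real.log n - Real.log n : ℝ) : ℂ) * I) * v) = T := by
        simp only [sub_self, Complex.ofReal_zero, zero_mul, Complex.exp_zero]
        rw [intervalIntegral.integral_const]
        simp
      rw [e1]
      have e2 : a n * (starRingEnd ℂ) (a n) * (T : ℂ) - ((T * ‖a n‖ ^ 2 : ℝ) : ℂ) = 0 := by
        rw [Complex.mul_conj']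
        push_cast
        ring
      rw [e2, norm_zero, mul_zero, mul_zero]
    · rw [sub_zero, norm_mul, norm_mul, Complex.norm_conj]
      have := int_exp hm.1 hn.1 hm.2 hn.2 (Ne.symm h) T (T + T)
      calc _ ≤ ‖a n‖ * ‖a m‖ * (2 * N * (1 / |(n : ℝ) - m|)) :=
            mul_le_mul_of_nonneg_left this (by positivity)
        _ = _ := by ring
  have hlow : T * Q - T * Q / 4 ≤ ∫ v in T..(T + T), ‖F v‖ ^ 2 := by
    have h1 : ((∫ v in T..(T + T), ‖F v‖ ^ 2 : ℝ) : ℂ) - ((T * Q : ℝ) : ℂ) = ∑ n ∈ s, ∑ m ∈ s,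
        (a n * (starRingEnd ℂ) (a m) *
        (∫ v in T..(T + T), cexp ((((Real.log m - Real.log n : ℝ) : ℂ) * I) * v)) -
        (if n = m then ((T * ‖a n‖ ^ 2 : ℝ) : ℂ) else 0)) := by
      rw [hexp]
      simp only [Finset.sum_sub_distrib]
      congr 1
      rw [hQ, Finset.mul_sum, Complex.ofReal_sum]
      refine Finset.sum_congr rfl fun n hn => ?_
      rw [Finset.sum_ite_eq, if_pos hn]
    set c : ℕ → ℕ → ℝ := fun n m => if n = m then 0 else 1 / |(n : ℝ) - m| with hc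
    have hc0 : ∀ n m, 0 ≤ c n m := by
      intro n m
      simp only [hc]
      split_ifs <;> positivity
    have hcs : ∀ n m, c n m = c m n := by
      intro n m
      simp only [hc]
      by_cases h : n = m
      · rw [if_pos h, if_pos h.symm]
      · rw [if_neg h, if_neg (Ne.symm h), abs_sub_comm]
    have h2 : |(∫ v in T..(T + T), ‖F v‖ ^ 2) - T * Q| ≤ T * Q / 4 := by
      rw [← Real.norm_eq_abs, ← Complex.norm_real, Complex.ofReal_sub, h1]
      refine (norm_sum_le_of_le _ fun n hn => norm_sum_le_of_le _ fun m hm =>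
        hdiag n hn m hm).trans ?_
      have e1 : ∑ n ∈ s, ∑ m ∈ s, 2 * (N : ℝ) * (‖a n‖ * ‖a m‖ * c n m) ≤
          ∑ n ∈ s, ∑ m ∈ s, ((N : ℝ) * (‖a n‖ ^ 2 * c n m) + (N : ℝ) * (‖a m‖ ^ 2 * c n m)) := by
        refine Finset.sum_le_sum fun n _ => Finset.sum_le_sum fun m _ => ?_
        have h3 : 2 * (‖a n‖ * ‖a m‖) ≤ ‖a n‖ ^ 2 + ‖a m‖ ^ 2 := by
          nlinarith [sq_nonneg (‖a n‖ - ‖a m‖)]
        have h4 : 0 ≤ (N : ℝ) * c n m := mul_nonneg hN0.le (hc0 n m)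
        calc 2 * (N : ℝ) * (‖a n‖ * ‖a m‖ * c n m) = 2 * (‖a n‖ * ‖a m‖) * (N * c n m) := by ring
          _ ≤ (‖a n‖ ^ 2 + ‖a m‖ ^ 2) * (N * c n m) := mul_le_mul_of_nonneg_right h3 h4
          _ = _ := by ring
      refine e1.trans ?_
      have e2 : ∑ n ∈ s, ∑ m ∈ s, ((N : ℝ) * (‖a n‖ ^ 2 * c n m) + (N : ℝ) * (‖a m‖ ^ 2 * c n m)) =
          2 * N * ∑ n ∈ s, ‖a n‖ ^ 2 * ∑ m ∈ s, c n m := by
        have f1 : ∑ n ∈ s, ∑ m ∈ s, (N : ℝ) * (‖a m‖ ^ 2 * c n m) =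
            ∑ n ∈ s, ∑ m ∈ s, (N : ℝ) * (‖a n‖ ^ 2 * c n m) := by
          rw [Finset.sum_comm]
          exact Finset.sum_congr rfl fun n _ => Finset.sum_congr rfl fun m _ => by rw [hcs m n]
        simp only [Finset.sum_add_distrib]
        rw [f1, ← two_mul, mul_assoc]
        congr 1
        rw [Finset.mul_sum]
        refine Finset.sum_congr rfl fun n _ => ?_
        rw [Finset.mul_sum, Finset.mul_sum]
      rw [e2]
      have e3 : ∑ n ∈ s, ‖a n‖ ^ 2 * ∑ m ∈ s, c n m ≤ ∑ n ∈ s, ‖a n‖ ^ 2 * (2 * (1 + Real.log N)) := by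
        refine Finset.sum_le_sum fun n hn => mul_le_mul_of_nonneg_left ?_ (by positivity)
        have hn' := hn
        rw [hs, Finset.mem_Icc] at hn'
        exact row hN hn'.1 hn'.2
      rw [← Finset.sum_mul] at e3
      calc 2 * (N : ℝ) * ∑ n ∈ s, ‖a n‖ ^ 2 * ∑ m ∈ s, c n m ≤
          2 * N * (Q * (2 * (1 + Real.log N))) := mul_le_mul_of_nonneg_left e3 (by positivity)
        _ = _ := by rw [hT]; ring
    linarith [(abs_le.1 h2).1]
  nlinarith [mul_pos hT0 hQ0]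

/-- **optimality** -/
theorem optimal {w : ℕ → ℂ} {y κ : ℝ} (hκ : 0 ≤ κ) (hw : Normalised w) (hb : BoundShort w y κ) :
    ∀ ε : ℝ, 0 < ε → ∀ᶠ x : ℝ in atTop, x ^ (1 - 2 * y - 2 * κ - ε) ≤ used w x := by
  intro ε hε
  set e : ℝ := min 1 (ε / (20 * (1 + κ))) with he
  have he0 : 0 < e := lt_min one_pos (by positivity)
  have he1 : e ≤ 1 := min_le_left _ _
  have he2 : e * (1 + κ) ≤ ε / 20 := by
    have h1 : e ≤ ε / (20 * (1 + κ)) := min_le_right _ _
    rw [le_div_iff₀ (by positivity)] at h1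
    linarith
  have heκ : 0 ≤ e * κ := by positivity
  obtain ⟨C, hC⟩ := hb e he0
  set C' : ℝ := |C| + 1 with hC'
  have hC'0 : 0 < C' := by positivity
  set L : ℝ := 33 * (1 + 1 / e) with hL
  have hL0 : 0 < L := by positivity
  set ρ : ℝ := κ + e with hρ
  have hρ0 : 0 < ρ := by positivity
  filter_upwards [hw e he0, eventually_ge_atTop 1,
    (tendsto_rpow_atTop (show 0 < 2 * e by positivity)).eventually_ge_atTop
      (2 * (C' ^ 2 * L ^ (2 * ρ)))] with x h1 hx h2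
  have hx0 : 0 < x := by linarith
  set n : ℕ := ⌊x⌋₊ with hn
  have hnx : (n : ℝ) ≤ x := Nat.floor_le hx0.le
  have hxn : x < n + 1 := Nat.lt_floor_add_one x
  have hn1 : 1 ≤ n := (Nat.one_le_floor_iff x).2 hx
  have hn1' : (1 : ℝ) ≤ n := by exact_mod_cast hn1
  have hlog : 0 ≤ Real.log n := Real.log_natCast_nonneg n
  obtain ⟨v, hv, hQ⟩ := mean_value hn1 fun k => w k * (-1) ^ (k + 1)
  have hnorm : ∀ k, ‖w k * (-1) ^ (k + 1)‖ = ‖w k‖ := by
    intro k
    rw [norm_mul, norm_pow, norm_neg, norm_one, one_pow, mul_one]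
  simp only [hnorm] at hQ
  have hv0 : 0 ≤ v := le_trans (by positivity) hv.1
  have hvx : x ≤ 1 + |v| := by
    rw [abs_of_nonneg hv0]
    have h3 : 16 * (n * (1 + Real.log n)) ≤ v := hv.1
    nlinarith
  have h3 := hC v x hx hvx
  change ‖∑ k ∈ Finset.Icc 1 n, w k * (-1) ^ (k + 1) * (k : ℂ) ^ (-((v : ℂ) * I))‖ ≤ _ at h3
  set B : ℝ := ‖∑ k ∈ Finset.Icc 1 n, w k * (-1) ^ (k + 1) * (k : ℂ) ^ (-((v : ℂ) * I))‖ with hB
  have hB0 : 0 ≤ B := norm_nonneg _
  set Q : ℝ := ∑ k ∈ Finset.Icc 1 n, ‖w k‖ ^ 2 with hQd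
  have hxe : 1 ≤ x ^ e := Real.one_le_rpow hx he0.le
  have hv2 : (1 + |v|) ≤ L * (x * x ^ e) := by
    rw [abs_of_nonneg hv0]
    have h4 : v ≤ 32 * (n * (1 + Real.log n)) := hv.2
    have h5 : Real.log n ≤ x ^ e / e := by
      refine (Real.log_le_log (by linarith) hnx).trans ?_
      exact Real.log_le_rpow_div hx0.le he0
    have h6 : 1 + Real.log n ≤ (1 + 1 / e) * x ^ e := by
      calc 1 + Real.log n ≤ x ^ e + x ^ e / e := add_le_add hxe h5
        _ = _ := by ring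
    have h7 : n * (1 + Real.log n) ≤ x * ((1 + 1 / e) * x ^ e) :=
      mul_le_mul hnx h6 (by linarith) hx0.le
    have h8 : 1 ≤ x * ((1 + 1 / e) * x ^ e) := by
      have h9 : (1 : ℝ) ≤ (1 + 1 / e) * x ^ e := by
        have : 0 < 1 / e := by positivity
        nlinarith
      nlinarith
    calc 1 + v ≤ x * ((1 + 1 / e) * x ^ e) + 32 * (x * ((1 + 1 / e) * x ^ e)) := by linarith
      _ = _ := by rw [hL]; ring
  have hvρ : (1 + |v|) ^ ρ ≤ L ^ ρ * (x ^ ((1 + e) * ρ)) := by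
    calc (1 + |v|) ^ ρ ≤ (L * (x * x ^ e)) ^ ρ :=
          Real.rpow_le_rpow (by positivity) hv2 hρ0.le
      _ = _ := by
          rw [Real.mul_rpow hL0.le (by positivity)]
          congr 1
          nth_rewrite 1 [← Real.rpow_one x]
          rw [← Real.rpow_add hx0, ← Real.rpow_mul hx0.le]
  have hBle : B ≤ C' * (L ^ ρ * (x ^ ((1 + e) * ρ))) * x ^ (1 / 2 + y + e) := by
    refine h3.trans ?_
    refine mul_le_mul_of_nonneg_right ?_ (by positivity)
    calc C * (1 + |v|) ^ ρ ≤ C' * (1 + |v|) ^ ρ := by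
          refine mul_le_mul_of_nonneg_right ?_ (by positivity)
          rw [hC']
          linarith [le_abs_self C]
      _ ≤ _ := mul_le_mul_of_nonneg_left hvρ hC'0.le
  set P : ℝ := 1 + 2 * y + 2 * e + 2 * ((1 + e) * ρ) with hP
  have hB2 : B ^ 2 ≤ C' ^ 2 * L ^ (2 * ρ) * x ^ P := by
    refine (pow_le_pow_left₀ hB0 hBle 2).trans (le_of_eq ?_)
    have e1 : (L ^ ρ) ^ 2 = L ^ (2 * ρ) := by
      rw [← Real.rpow_natCast, ← Real.rpow_mul hL0.le]
      congr 1; push_cast; ring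
    have e2 : (x ^ ((1 + e) * ρ)) ^ 2 * (x ^ (1 / 2 + y + e)) ^ 2 = x ^ P := by
      rw [← mul_pow, ← Real.rpow_add hx0, ← Real.rpow_natCast, ← Real.rpow_mul hx0.le]
      congr 1; rw [hP]; push_cast; ring
    calc _ = C' ^ 2 * (L ^ ρ) ^ 2 * ((x ^ ((1 + e) * ρ)) ^ 2 * (x ^ (1 / 2 + y + e)) ^ 2) := by
          ring
      _ = _ := by rw [e1, e2]
  -- Cauchy-Schwarz
  set W : ℝ := ‖∑ k ∈ Finset.Icc 1 n, w k‖ with hW
  have hk : used w x = (((Finset.Icc 1 n).filter fun k => w k ≠ 0).card : ℝ) := by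
    unfold used
    congr 1
  set k : ℝ := used w x with hkd
  have hk0 : 0 ≤ k := by rw [hk]; exact Nat.cast_nonneg _
  have hCS : W ^ 2 ≤ k * Q := by
    have h4 : ∑ k ∈ Finset.Icc 1 n, w k = ∑ k ∈ (Finset.Icc 1 n).filter fun k => w k ≠ 0, w k :=
      (Finset.sum_filter_ne_zero _).symm
    have h5 : W ≤ ∑ k ∈ (Finset.Icc 1 n).filter fun k => w k ≠ 0, ‖w k‖ := by
      rw [hW, h4]
      exact norm_sum_le _ _
    have h6 := sq_sum_le_card_mul_sum_sq (s := (Finset.Icc 1 n).filter fun k => w k ≠ 0)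
      (f := fun k => ‖w k‖)
    have h7 : ∑ k ∈ (Finset.Icc 1 n).filter fun k => w k ≠ 0, ‖w k‖ ^ 2 ≤ Q := by
      rw [hQd]
      exact Finset.sum_le_sum_of_subset_of_nonneg (Finset.filter_subset _ _) fun _ _ _ =>
        by positivity
    calc W ^ 2 ≤ (∑ k ∈ (Finset.Icc 1 n).filter fun k => w k ≠ 0, ‖w k‖) ^ 2 :=
          pow_le_pow_left₀ (norm_nonneg _) h5 2
      _ ≤ _ := h6
      _ ≤ k * Q := by
          rw [← hk]
          exact mul_le_mul_of_nonneg_left h7 hk0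
  have hW2 : x ^ (2 - 2 * e) ≤ W ^ 2 := by
    have := pow_le_pow_left₀ (by positivity) h1 2
    refine le_trans (le_of_eq ?_) this
    rw [← Real.rpow_natCast, ← Real.rpow_mul hx0.le]
    congr 1; push_cast; ring
  have h8 : x ^ (2 - 2 * e) ≤ k * (2 * (C' ^ 2 * L ^ (2 * ρ) * x ^ P)) :=
    hW2.trans (hCS.trans (mul_le_mul_of_nonneg_left (hQ.trans (by linarith)) hk0))
  have h9 : x ^ (1 - 2 * y - 2 * κ - ε) * (x ^ P * x ^ (2 * e)) ≤ x ^ (2 - 2 * e) := by
    rw [← Real.rpow_add hx0, ← Real.rpow_add hx0]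
    refine Real.rpow_le_rpow_of_exponent_le hx ?_
    rw [hP, hρ]
    nlinarith
  have h11 : x ^ (1 - 2 * y - 2 * κ - ε) * (x ^ P * x ^ (2 * e)) ≤ k * (x ^ P * x ^ (2 * e)) := by
    refine h9.trans (h8.trans ?_)
    calc k * (2 * (C' ^ 2 * L ^ (2 * ρ) * x ^ P)) =
        (k * x ^ P) * (2 * (C' ^ 2 * L ^ (2 * ρ))) := by ring
      _ ≤ (k * x ^ P) * x ^ (2 * e) :=
          mul_le_mul_of_nonneg_left h2 (by positivity)
      _ = _ := by ring
  exact le_of_mul_le_mul_right h11 (by positivity)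

end Pool.Agent.H564.LH
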