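import Pool.Agent.H564.SC.Sharp

/-! Perron's formula for functions of larger growth. -/

set_option autoImplicit false

open MeasureTheory Filter Topology Set Complex
open Pool.Agent.H379R2.SW (vert vert_re vert_im vert_ne_zero continuous_vert)
open Pool.Agent.W66
open Pool.Agent.R429.DM.Up (norm_exp_vert exp_sub_one_le int_tail one_add_le_norm)

namespace Pool.Agent.H564.LH

open Pool.Agent.H564.SC

variable {lam : ℕ → ℝ} {c : ℕ → ℂ} {σ : ℝ}

/-- one term of the bound on the line `x` -/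
theorem term_bd {x B a ε h : ℝ} (hx : 0 < x) (hε : 0 < ε) (ha0 : 0 ≤ a) (ha : a + ε ≤ 1)
    (hB : 0 ≤ B) (hh : 0 ≤ h) (hh1 : h ≤ 1) (t : ℝ) {s : ℂ} (hsre : s.re = x) (hsim : s.im = t) :
    ‖cexp (s * h) - 1‖ * (B * (1 + |t|) ^ a) / ‖s‖ ^ 2 ≤
      2 * Real.exp x * (1 + 1 / x) ^ (2 : ℝ) * B * h ^ (1 - a - ε) * (1 + |t|) ^ (-(1 + ε)) := by
  set θ : ℝ := 1 - a - ε with hθ
  have hθ0 : 0 ≤ θ := by rw [hθ]; linarith
  have hθ1 : θ ≤ 1 := by rw [hθ]; linarith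
  have hn : 0 < ‖s‖ := norm_pos_iff.2 (by
    rintro rfl
    rw [Complex.zero_re] at hsre
    linarith)
  have b2 : ‖cexp (s * h) - 1‖ ≤ 2 * Real.exp x * (‖s‖ ^ θ * h ^ θ) := by
    refine (exp_sub_one_le (by rw [hsre]; exact hx.le) hh hθ0 hθ1).trans ?_
    rw [Real.mul_rpow (norm_nonneg _) hh, hsre]
    have : Real.exp (x * h) ≤ Real.exp x := Real.exp_le_exp.2 (by nlinarith)
    gcongr
  have b4 : 1 + |t| ≤ (1 + 1 / x) * ‖s‖ := by
    have := one_add_le_norm hx (s := s) hsre.ge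
    rwa [hsim] at this
  have b5 : ‖s‖ ^ θ / ‖s‖ ^ 2 ≤ (1 + 1 / x) ^ (2 : ℝ) * (1 + |t|) ^ (θ - 2) := by
    have c1 : ‖s‖ ^ θ / ‖s‖ ^ 2 = ‖s‖ ^ (θ - 2) := by
      rw [← Real.rpow_natCast, ← Real.rpow_sub hn]
      norm_num
    have c2 : 0 < 1 + 1 / x := by positivity
    have c3 : (1 + |t|) / (1 + 1 / x) ≤ ‖s‖ := by
      rw [div_le_iff₀ c2]
      linarith
    have c4 : ‖s‖ ^ (θ - 2) ≤ ((1 + |t|) / (1 + 1 / x)) ^ (θ - 2) :=
      Real.rpow_le_rpow_of_nonpos (by positivity) c3 (by linarith)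
    rw [c1]
    refine c4.trans ?_
    rw [Real.div_rpow (by positivity) c2.le, div_eq_mul_inv, ← Real.rpow_neg c2.le, mul_comm,
      show -(θ - 2) = 2 - θ by ring]
    refine mul_le_mul_of_nonneg_right ?_ (by positivity)
    refine Real.rpow_le_rpow_of_exponent_le ?_ (by linarith)
    have : 0 < 1 / x := by positivity
    linarith
  have b6 : (1 + |t|) ^ (θ - 2) * (1 + |t|) ^ a = (1 + |t|) ^ (-(1 + ε)) := by
    rw [← Real.rpow_add (by positivity)]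
    congr 1
    rw [hθ]
    ring
  calc ‖cexp (s * h) - 1‖ * (B * (1 + |t|) ^ a) / ‖s‖ ^ 2 ≤
      (2 * Real.exp x * (‖s‖ ^ θ * h ^ θ)) * (B * (1 + |t|) ^ a) / ‖s‖ ^ 2 := by
        gcongr
    _ = 2 * Real.exp x * B * h ^ θ * (‖s‖ ^ θ / ‖s‖ ^ 2) * (1 + |t|) ^ a := by
        ring
    _ ≤ 2 * Real.exp x * B * h ^ θ *
        ((1 + 1 / x) ^ (2 : ℝ) * (1 + |t|) ^ (θ - 2)) * (1 + |t|) ^ a := by
        gcongr
    _ = 2 * Real.exp x * (1 + 1 / x) ^ (2 : ℝ) * B * h ^ θ *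
        ((1 + |t|) ^ (θ - 2) * (1 + |t|) ^ a) := by
        ring
    _ = _ := by rw [b6]

/-- **The bound of the difference of the first Riesz sums**, two terms. -/
theorem diff_le2 (hσ : 0 < σ) (hlam : ∀ n, 0 ≤ lam n)
    (hsum : Summable fun n => ‖c n‖ * Real.exp (-(σ * lam n)))
    {Λ : ℂ → ℂ} {x B₁ B₂ a₁ a₂ ε : ℝ} (hx : 0 < x) (hxσ : x < σ + 1)
    (hd : ∀ s : ℂ, x ≤ s.re → DifferentiableAt ℂ Λ s)
    (he : ∀ s : ℂ, σ < s.re → Λ s = DC lam c s) (hε : 0 < ε) (hε2 : ε ≤ 1 / 2)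
    (ha₁0 : 0 ≤ a₁) (ha₁ : a₁ ≤ 1 / 2) (ha₂0 : 0 ≤ a₂) (ha₂ : a₂ ≤ 1 / 2)
    (hB₁ : 0 ≤ B₁) (hB₂ : 0 ≤ B₂)
    (hb : ∀ s : ℂ, x ≤ s.re → s.re ≤ σ + 1 →
      ‖Λ s‖ ≤ B₁ * (1 + |s.im|) ^ a₁ + B₂ * (1 + |s.im|) ^ a₂) :
    ∀ T h : ℝ, 0 ≤ h → h ≤ 1 →
      ‖∑' n, c n * ((max (T + h - lam n) 0 - max (T - lam n) 0 : ℝ) : ℂ)‖ ≤
        ((2 * Real.pi)⁻¹ * (2 * Real.exp x * (1 + 1 / x) ^ (2 : ℝ) *
          ∫ t : ℝ, (1 + |t|) ^ (-(1 + ε)))) * (Real.exp (x * T) *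
            (B₁ * h ^ (1 - a₁ - ε) + B₂ * h ^ (1 - a₂ - ε))) := by
  set B : ℝ := B₁ + B₂ with hB
  have hb' : ∀ s : ℂ, x ≤ s.re → s.re ≤ σ + 1 → ‖Λ s‖ ≤ B * (1 + |s.im|) ^ (1 / 2 : ℝ) := by
    intro s h1 h2
    refine (hb s h1 h2).trans ?_
    have h3 : (1 + |s.im|) ^ a₁ ≤ (1 + |s.im|) ^ (1 / 2 : ℝ) :=
      Real.rpow_le_rpow_of_exponent_le (by linarith [abs_nonneg s.im]) ha₁
    have h4 : (1 + |s.im|) ^ a₂ ≤ (1 + |s.im|) ^ (1 / 2 : ℝ) :=
      Real.rpow_le_rpow_of_exponent_le (by linarith [abs_nonneg s.im]) ha₂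
    rw [hB, add_mul]
    exact add_le_add (mul_le_mul_of_nonneg_left h3 hB₁) (mul_le_mul_of_nonneg_left h4 hB₂)
  set I₁ : ℝ := ∫ t : ℝ, (1 + |t|) ^ (-(1 + ε)) with hI₁
  have hI₁0 : 0 ≤ I₁ := integral_nonneg fun t => by positivity
  set C₂ : ℝ := 2 * Real.exp x * (1 + 1 / x) ^ (2 : ℝ) with hC₂
  have hC₂0 : 0 ≤ C₂ := by positivity
  intro T h hh hh1
  set D : ℝ := B₁ * h ^ (1 - a₁ - ε) + B₂ * h ^ (1 - a₂ - ε) with hD
  set H : ℂ → ℂ := fun s => cexp (s * T) * (cexp (s * h) - 1) * Λ s / s ^ 2 with hH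
  -- the formula on the line `σ + 1`
  have h1 : (∑' n, c n * ((max (T + h - lam n) 0 - max (T - lam n) 0 : ℝ) : ℂ)) =
      (((2 * Real.pi)⁻¹ : ℝ) : ℂ) * ∫ t : ℝ, H (((σ + 1 : ℝ) : ℂ) + t * I) := by
    rw [perron hσ hlam hsum (x := σ + 1) (by linarith) T h,
      ← Pool.Agent.TH270.MS.PW.scale_integral]
    refine integral_congr_ae (Eventually.of_forall fun ξ => ?_)
    simp only
    have e1 : vert (σ + 1) ξ = ((σ + 1 : ℝ) : ℂ) + 2 * Real.pi * ξ * I := by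
      unfold vert
      push_cast
      ring
    rw [← e1, hH]
    simp only
    rw [he _ (by rw [vert_re]; linarith)]
  have hs0 : ∀ s : ℂ, x ≤ s.re → s ≠ 0 := fun s hs => by
    rintro rfl
    simp at hs
    linarith
  -- the shift
  have h2 : ∫ t : ℝ, H ((x : ℂ) + t * I) = ∫ t : ℝ, H (((σ + 1 : ℝ) : ℂ) + t * I) := by
    refine Pool.Agent.TH270.MS.PW.contour_shift (a := x) (b := σ + 1)
      (B := Real.exp ((σ + 1) * |T|) * (Real.exp (σ + 1) + 1) * B * (1 + 1 / x) ^ 2) hxσ.le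
      (fun s hs _ => ?_) (fun s hs hs2 => ?_)
    · have := hd s hs
      exact ((((by fun_prop : DifferentiableAt ℂ (fun s : ℂ => cexp (s * T)) s).mul
        (by fun_prop : DifferentiableAt ℂ (fun s : ℂ => cexp (s * h) - 1) s)).mul this).div
        (differentiableAt_id.pow 2) (pow_ne_zero 2 (hs0 s hs)))
    · have hn : 0 < ‖s‖ := norm_pos_iff.2 (hs0 s hs)
      have hre : 0 < s.re := hx.trans_le hs
      have a1 : ‖cexp (s * T)‖ ≤ Real.exp ((σ + 1) * |T|) := by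
        rw [Complex.norm_exp]
        apply Real.exp_le_exp.2
        have : (s * T).re = s.re * T := by simp
        rw [this]
        calc s.re * T ≤ s.re * |T| := mul_le_mul_of_nonneg_left (le_abs_self T) hre.le
          _ ≤ _ := mul_le_mul_of_nonneg_right hs2 (abs_nonneg T)
      have a2 : ‖cexp (s * h) - 1‖ ≤ Real.exp (σ + 1) + 1 := by
        refine (norm_sub_le _ _).trans ?_
        rw [Complex.norm_exp, norm_one]
        have : (s * h).re = s.re * h := by simp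
        rw [this]
        have : s.re * h ≤ σ + 1 := by nlinarith
        linarith [Real.exp_le_exp.2 this]
      have a3 := hb' s hs hs2
      have a4 : (1 + |s.im|) ^ (2 : ℕ) ≤ (1 + 1 / x) ^ 2 * ‖s‖ ^ 2 := by
        rw [← mul_pow]
        exact pow_le_pow_left₀ (by positivity) (one_add_le_norm hx hs) 2
      have a5 : (1 + |s.im|) ^ (-(3 / 2 : ℝ)) =
          (1 + |s.im|) ^ (1 / 2 : ℝ) / (1 + |s.im|) ^ (2 : ℕ) := by
        rw [← Real.rpow_natCast, ← Real.rpow_sub (by positivity)]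
        norm_num
      have hp : 0 < (1 + |s.im|) ^ (2 : ℕ) := by positivity
      rw [hH]
      simp only
      rw [norm_div, norm_mul, norm_mul, norm_pow, div_le_iff₀ (by positivity), a5]
      have a6 : 1 ≤ (1 + 1 / x) ^ 2 * ‖s‖ ^ 2 / (1 + |s.im|) ^ (2 : ℕ) := by
        rw [le_div_iff₀ hp, one_mul]
        exact a4
      calc ‖cexp (s * T)‖ * ‖cexp (s * h) - 1‖ * ‖Λ s‖ ≤
          Real.exp ((σ + 1) * |T|) * (Real.exp (σ + 1) + 1) * (B * (1 + |s.im|) ^ (1 / 2 : ℝ)) := by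
            gcongr
        _ ≤ Real.exp ((σ + 1) * |T|) * (Real.exp (σ + 1) + 1) * (B * (1 + |s.im|) ^ (1 / 2 : ℝ)) *
            ((1 + 1 / x) ^ 2 * ‖s‖ ^ 2 / (1 + |s.im|) ^ (2 : ℕ)) :=
          le_mul_of_one_le_right (by positivity) a6
        _ = _ := by ring
  -- the bound on the line `x`
  have h3 : ∀ t : ℝ, ‖H ((x : ℂ) + t * I)‖ ≤
      C₂ * Real.exp (x * T) * D * (1 + |t|) ^ (-(1 + ε)) := by
    intro t
    set s : ℂ := (x : ℂ) + t * I with hs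
    have hsre : s.re = x := by simp [hs]
    have hsim : s.im = t := by simp [hs]
    have b1 : ‖cexp (s * T)‖ = Real.exp (x * T) := by
      rw [Complex.norm_exp]
      congr 1
      simp [hsre]
    have b3 := hb s hsre.ge (by rw [hsre]; exact hxσ.le)
    rw [hsim] at b3
    have t1 := term_bd hx hε ha₁0 (by linarith) hB₁ hh hh1 t hsre hsim
    have t2 := term_bd hx hε ha₂0 (by linarith) hB₂ hh hh1 t hsre hsim
    rw [hH]
    simp only
    rw [norm_div, norm_mul, norm_mul, norm_pow, b1]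
    calc Real.exp (x * T) * ‖cexp (s * h) - 1‖ * ‖Λ s‖ / ‖s‖ ^ 2 ≤
        Real.exp (x * T) * ‖cexp (s * h) - 1‖ *
          (B₁ * (1 + |t|) ^ a₁ + B₂ * (1 + |t|) ^ a₂) / ‖s‖ ^ 2 := by
          gcongr
      _ = Real.exp (x * T) * (‖cexp (s * h) - 1‖ * (B₁ * (1 + |t|) ^ a₁) / ‖s‖ ^ 2 +
          ‖cexp (s * h) - 1‖ * (B₂ * (1 + |t|) ^ a₂) / ‖s‖ ^ 2) := by ring
      _ ≤ Real.exp (x * T) * (2 * Real.exp x * (1 + 1 / x) ^ (2 : ℝ) * B₁ * h ^ (1 - a₁ - ε) *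
            (1 + |t|) ^ (-(1 + ε)) + 2 * Real.exp x * (1 + 1 / x) ^ (2 : ℝ) * B₂ *
            h ^ (1 - a₂ - ε) * (1 + |t|) ^ (-(1 + ε))) := by
          refine mul_le_mul_of_nonneg_left (add_le_add t1 t2) (Real.exp_pos _).le
      _ = _ := by
          rw [hC₂, hD]
          ring
  have h4 : ‖∫ t : ℝ, H ((x : ℂ) + t * I)‖ ≤ C₂ * Real.exp (x * T) * D * I₁ := by
    rw [hI₁, ← integral_const_mul]
    exact norm_integral_le_of_norm_le ((int_tail (by linarith)).const_mul _)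
      (Eventually.of_forall h3)
  rw [h1, norm_mul, ← h2]
  have h5 : ‖(((2 * Real.pi)⁻¹ : ℝ) : ℂ)‖ = (2 * Real.pi)⁻¹ := by
    rw [Complex.norm_real, Real.norm_of_nonneg (by positivity)]
  rw [h5]
  calc (2 * Real.pi)⁻¹ * ‖∫ t : ℝ, H ((x : ℂ) + t * I)‖ ≤
      (2 * Real.pi)⁻¹ * (C₂ * Real.exp (x * T) * D * I₁) := by
        gcongr
    _ = _ := by ring

/-- the constant -/
noncomputable def K2 (x ε : ℝ) : ℝ := (2 * Real.pi)⁻¹ * (2 * Real.exp x *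
  (1 + 1 / x) ^ (2 : ℝ) * ∫ t : ℝ, (1 + |t|) ^ (-(1 + ε)))

theorem K2_nonneg {x ε : ℝ} (hx : 0 < x) : 0 ≤ K2 x ε := by
  unfold K2
  have : 0 ≤ ∫ t : ℝ, (1 + |t|) ^ (-(1 + ε)) := integral_nonneg fun t => by positivity
  positivity

/-- **The sharp sums.** -/
theorem sharp2 {c : ℕ → ℂ} (hc : ∀ n, ‖c n‖ ≤ 1) (h0 : c 0 = 0) {Λ : ℂ → ℂ}
    {x B₁ B₂ a₁ a₂ ε : ℝ}
    (hx : 0 < x) (hx3 : x < 3) (hd : ∀ s : ℂ, x ≤ s.re → DifferentiableAt ℂ Λ s)
    (he : ∀ s : ℂ, 2 < s.re → Λ s = DC lg c s) (hε : 0 < ε) (hε2 : ε ≤ 1 / 2)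
    (ha₁0 : 0 ≤ a₁) (ha₁ : a₁ ≤ 1 / 2) (ha₂0 : 0 ≤ a₂) (ha₂ : a₂ ≤ 1 / 2)
    (hB₁ : 0 ≤ B₁) (hB₂ : 0 ≤ B₂)
    (hb : ∀ s : ℂ, x ≤ s.re → s.re ≤ 3 →
      ‖Λ s‖ ≤ B₁ * (1 + |s.im|) ^ a₁ + B₂ * (1 + |s.im|) ^ a₂) {X : ℝ} (hX : 1 ≤ X) :
    ‖∑ n ∈ Finset.range (⌊X⌋₊ + 1), c n‖ ≤ K2 x ε * (B₁ * X ^ (x + (a₁ + ε) / 2) +
      B₂ * X ^ (x + (a₂ + ε) / 2)) + 3 * X ^ (1 / 2 : ℝ) := by
  have hX0 : 0 < X := by linarith
  set T : ℝ := Real.log X with hT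
  set h : ℝ := X ^ (-(1 / 2) : ℝ) with hh
  have hh0 : 0 < h := by positivity
  have hh1 : h ≤ 1 := Real.rpow_le_one_of_one_le_of_nonpos hX (by norm_num)
  have key := diff_le2 (lam := lg) (c := c) (σ := 2) (by norm_num) lg_nonneg (sum_two hc h0)
    (Λ := Λ) hx (by linarith) hd he hε hε2 ha₁0 ha₁ ha₂0 ha₂ hB₁ hB₂ (by norm_num; exact hb)
    T h hh0.le hh1
  change _ ≤ K2 x ε * _ at key
  set N : ℕ := ⌊X⌋₊ with hN
  set M : ℕ := ⌊X * Real.exp h⌋₊ with hM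
  have hexp1 : 1 ≤ Real.exp h := Real.one_le_exp hh0.le
  have hNM : N ≤ M := Nat.floor_le_floor (le_mul_of_one_le_right hX0.le hexp1)
  set g : ℕ → ℝ := fun n => max (T + h - lg n) 0 - max (T - lg n) 0 with hg
  have hgz : ∀ n, M < n → g n = 0 := by
    intro n hn
    have h1 : X * Real.exp h < n := (Nat.floor_lt (by positivity)).1 hn
    have h2 : T + h < lg n := by
      have := Real.log_lt_log (by positivity) h1
      rwa [Real.log_mul hX0.ne' (Real.exp_pos h).ne', Real.log_exp] at this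
    simp only [hg]
    rw [max_eq_right (by linarith), max_eq_right (by linarith), sub_zero]
  have hg1 : ∀ n, 1 ≤ n → n ≤ N → g n = h := by
    intro n hn1 hn
    have hn0 : (0 : ℝ) < n := by exact_mod_cast hn1
    have h1 : (n : ℝ) ≤ X := (Nat.cast_le.2 hn).trans (Nat.floor_le hX0.le)
    have h2 : lg n ≤ T := Real.log_le_log hn0 h1
    simp only [hg]
    rw [max_eq_left (by linarith), max_eq_left (by linarith)]
    ring
  have hgb : ∀ n, |g n| ≤ h := by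
    intro n
    simp only [hg]
    rw [abs_le]
    rcases le_total 0 (T - lg n) with h2 | h2
    · rw [max_eq_left h2, max_eq_left (by linarith)]
      constructor <;> linarith
    · rw [max_eq_right h2, sub_zero]
      constructor
      · linarith [le_max_right (T + h - lg n) 0]
      · exact max_le (by linarith) hh0.le
  have hts : (∑' n, c n * ((max (T + h - lg n) 0 - max (T - lg n) 0 : ℝ) : ℂ)) =
      ∑ n ∈ Finset.range (M + 1), c n * (g n : ℂ) := by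
    refine tsum_eq_sum fun n hn => ?_
    rw [Finset.mem_range, not_lt] at hn
    have := hgz n (by omega)
    simp only [hg] at this
    rw [this, Complex.ofReal_zero, mul_zero]
  rw [hts] at key
  have hsplit : ∑ n ∈ Finset.range (M + 1), c n * (g n : ℂ) =
      (∑ n ∈ Finset.range (N + 1), c n) * (h : ℂ) +
        ∑ n ∈ Finset.Ico (N + 1) (M + 1), c n * (g n : ℂ) := by
    rw [← Finset.sum_range_add_sum_Ico _ (show N + 1 ≤ M + 1 by omega), Finset.sum_mul]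
    congr 1
    refine Finset.sum_congr rfl fun n hn => ?_
    rw [Finset.mem_range] at hn
    rcases Nat.eq_zero_or_pos n with rfl | hn1
    · rw [h0]; simp
    · rw [hg1 n hn1 (by omega)]
  have htail : ‖∑ n ∈ Finset.Ico (N + 1) (M + 1), c n * (g n : ℂ)‖ ≤ ((M : ℝ) - N) * h := by
    have h1 : ∀ n ∈ Finset.Ico (N + 1) (M + 1), ‖c n * (g n : ℂ)‖ ≤ h := by
      intro n _
      rw [norm_mul, Complex.norm_real, Real.norm_eq_abs]
      calc ‖c n‖ * |g n| ≤ 1 * h := mul_le_mul (hc n) (hgb n) (abs_nonneg _) zero_le_one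
        _ = h := one_mul h
    refine (norm_sum_le_of_le _ h1).trans (le_of_eq ?_)
    rw [Finset.sum_const, Nat.card_Ico, nsmul_eq_mul]
    congr 1
    have : M + 1 - (N + 1) = M - N := by omega
    rw [this, Nat.cast_sub hNM]
  have hMN : (M : ℝ) - N ≤ 3 * X ^ (1 / 2 : ℝ) := by
    have h1 : (M : ℝ) ≤ X * Real.exp h := Nat.floor_le (by positivity)
    have h2 : X < N + 1 := Nat.lt_floor_add_one X
    have h3 : Real.exp h ≤ 1 + 2 * h := by
      have := Real.abs_exp_sub_one_le (x := h) (by rw [abs_of_pos hh0]; exact hh1)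
      rw [abs_of_nonneg (by linarith), abs_of_pos hh0] at this
      linarith
    have h4 : X * h = X ^ (1 / 2 : ℝ) := by
      rw [hh]
      nth_rewrite 1 [← Real.rpow_one X]
      rw [← Real.rpow_add hX0]
      norm_num
    have h5 : 1 ≤ X ^ (1 / 2 : ℝ) := Real.one_le_rpow hX (by norm_num)
    have h6 : X * Real.exp h ≤ X + 2 * (X * h) := by nlinarith
    rw [h4] at h6
    linarith
  have hkey2 : ‖∑ n ∈ Finset.range (N + 1), c n‖ * h ≤
      K2 x ε * (Real.exp (x * T) * (B₁ * h ^ (1 - a₁ - ε) + B₂ * h ^ (1 - a₂ - ε))) +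
        (3 * X ^ (1 / 2 : ℝ)) * h := by
    have h1 : (∑ n ∈ Finset.range (N + 1), c n) * (h : ℂ) =
        ∑ n ∈ Finset.range (M + 1), c n * (g n : ℂ) -
          ∑ n ∈ Finset.Ico (N + 1) (M + 1), c n * (g n : ℂ) := by rw [hsplit]; ring
    have h2 : ‖∑ n ∈ Finset.range (N + 1), c n‖ * h =
        ‖(∑ n ∈ Finset.range (N + 1), c n) * (h : ℂ)‖ := by
      rw [norm_mul, Complex.norm_real, Real.norm_of_nonneg hh0.le]
    rw [h2, h1]
    refine (norm_sub_le _ _).trans (add_le_add key (htail.trans ?_))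
    exact mul_le_mul_of_nonneg_right hMN hh0.le
  have h7 : ∀ a : ℝ, Real.exp (x * T) * h ^ (1 - a - ε) = X ^ (x + (a + ε) / 2) * h := by
    intro a
    have e1 : Real.exp (x * T) = X ^ x := by
      rw [Real.rpow_def_of_pos hX0, mul_comm]
    rw [e1, hh, ← Real.rpow_mul hX0.le, ← Real.rpow_add hX0, ← Real.rpow_add hX0]
    congr 1
    ring
  have h8 : ‖∑ n ∈ Finset.range (N + 1), c n‖ * h ≤
      (K2 x ε * (B₁ * X ^ (x + (a₁ + ε) / 2) + B₂ * X ^ (x + (a₂ + ε) / 2)) +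
        3 * X ^ (1 / 2 : ℝ)) * h := by
    refine hkey2.trans (le_of_eq ?_)
    have e1 : Real.exp (x * T) * (B₁ * h ^ (1 - a₁ - ε) + B₂ * h ^ (1 - a₂ - ε)) =
        B₁ * (Real.exp (x * T) * h ^ (1 - a₁ - ε)) + B₂ * (Real.exp (x * T) * h ^ (1 - a₂ - ε)) := by
      ring
    rw [e1, h7, h7]
    ring
  exact le_of_mul_le_mul_right h8 hh0

end Pool.Agent.H564.LH
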