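import Pool.Agent.H564.LH.Eta
import Pool.Agent.H564.LH.Grid
import Pool.Agent.H564.LH.Perron2

/-! From the growth of zeta to the exponential sums. -/

set_option autoImplicit false

open MeasureTheory Filter Topology Set Complex

namespace Pool.Agent.H564.LH

open Pool.Agent.H564.SC (lg DC)

/-- `ζ(1/2 + y + it) = O((1 + |t|)^(κ + ε))` for all `ε > 0` -/
def Growth (y κ : ℝ) : Prop := ∀ ε : ℝ, 0 < ε → ∃ C : ℝ, ∀ t : ℝ,
  ‖riemannZeta (1 / 2 + y + t * I)‖ ≤ C * (1 + |t|) ^ (κ + ε)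

/-- the same for the alternating function -/
def GrowthE (y κ : ℝ) : Prop := ∀ ε : ℝ, 0 < ε → ∃ C : ℝ, 0 ≤ C ∧ ∀ s : ℂ, s.re = 1 / 2 + y →
  ‖E s‖ ≤ C * (1 + |s.im|) ^ (κ + ε)

theorem norm_two (s : ℂ) : ‖(2 : ℂ) ^ (1 - s)‖ = 2 ^ (1 - s.re) := by
  have := Complex.norm_cpow_eq_rpow_re_of_pos (show (0 : ℝ) < 2 by norm_num) (1 - s)
  rwa [Complex.ofReal_ofNat, Complex.sub_re, Complex.one_re] at this

theorem ne_one {y : ℝ} (hy : y < 1 / 2) {s : ℂ} (hs : s.re = 1 / 2 + y) : s ≠ 1 := by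
  rintro rfl
  rw [Complex.one_re] at hs
  linarith

theorem E_le_zeta {y : ℝ} (hy0 : 0 ≤ y) (hy : y < 1 / 2) {s : ℂ} (hs : s.re = 1 / 2 + y) :
    ‖E s‖ ≤ 3 * ‖riemannZeta s‖ := by
  have h3 : (2 : ℝ) ^ (1 / 2 - y) ≤ 2 := by
    calc (2 : ℝ) ^ (1 / 2 - y) ≤ 2 ^ (1 : ℝ) :=
          Real.rpow_le_rpow_of_exponent_le (by norm_num) (by linarith)
      _ = 2 := Real.rpow_one 2
  rw [E_zeta (by linarith) (ne_one hy hs), norm_mul]
  refine mul_le_mul_of_nonneg_right ?_ (norm_nonneg _)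
  refine (norm_sub_le _ _).trans ?_
  rw [norm_one, norm_two, hs, show 1 - (1 / 2 + y) = 1 / 2 - y by ring]
  linarith

theorem two_pos {y : ℝ} (hy : y < 1 / 2) : 0 < (2 : ℝ) ^ (1 / 2 - y) - 1 := by
  have : (1 : ℝ) < 2 ^ (1 / 2 - y) := Real.one_lt_rpow (by norm_num) (by linarith)
  linarith

theorem zeta_le_E {y : ℝ} (hy0 : 0 ≤ y) (hy : y < 1 / 2) {s : ℂ} (hs : s.re = 1 / 2 + y) :
    ‖riemannZeta s‖ ≤ ‖E s‖ / (2 ^ (1 / 2 - y) - 1) := by
  have h6 := two_pos hy
  rw [le_div_iff₀ h6, mul_comm, E_zeta (by linarith) (ne_one hy hs), norm_mul]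
  refine mul_le_mul_of_nonneg_right ?_ (norm_nonneg _)
  have := norm_sub_norm_le ((2 : ℂ) ^ (1 - s)) 1
  rw [norm_sub_rev]
  rw [norm_one, norm_two, hs, show 1 - (1 / 2 + y) = 1 / 2 - y by ring] at this
  exact this

theorem line_re (y t : ℝ) : (1 / 2 + (y : ℂ) + (t : ℂ) * I).re = 1 / 2 + y := by simp

theorem line_im (y t : ℝ) : (1 / 2 + (y : ℂ) + (t : ℂ) * I).im = t := by simp

theorem growth_iff {y : ℝ} (hy0 : 0 ≤ y) (hy : y < 1 / 2) (κ : ℝ) : Growth y κ ↔ GrowthE y κ := by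
  constructor
  · intro h ε hε
    obtain ⟨C, hC⟩ := h ε hε
    refine ⟨3 * |C|, by positivity, fun s hs => ?_⟩
    have e1 : s = 1 / 2 + (y : ℂ) + (s.im : ℂ) * I := by
      apply Complex.ext
      · simp [hs]
      · simp
    have h4 := hC s.im
    rw [← e1] at h4
    have h6 : 0 ≤ (1 + |s.im|) ^ (κ + ε) := by positivity
    calc _ ≤ 3 * (C * (1 + |s.im|) ^ (κ + ε)) :=
          (E_le_zeta hy0 hy hs).trans (mul_le_mul_of_nonneg_left h4 (by norm_num))
      _ ≤ 3 * (|C| * (1 + |s.im|) ^ (κ + ε)) := by gcongr; exact le_abs_self C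
      _ = _ := by ring
  · intro h ε hε
    obtain ⟨C, hC0, hC⟩ := h ε hε
    refine ⟨C / (2 ^ (1 / 2 - y) - 1), fun t => ?_⟩
    have h4 := hC _ (line_re y t)
    rw [line_im] at h4
    have h6 := two_pos hy
    refine (zeta_le_E hy0 hy (line_re y t)).trans ?_
    rw [div_mul_eq_mul_div]
    exact div_le_div_of_nonneg_right h4 h6.le

/-- bound on the line `Re s = 3` -/
theorem E_three : ∃ K : ℝ, 0 ≤ K ∧ ∀ s : ℂ, s.re = 3 → ‖E s‖ ≤ K := by
  refine ⟨∑' n, ‖LSeries.term al 3 n‖, tsum_nonneg fun _ => norm_nonneg _, fun s hs => ?_⟩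
  have h3 : Summable fun n => ‖LSeries.term al 3 n‖ :=
    (al_summable (s := 3) (by norm_num)).norm
  rw [← LSeries_al (by rw [hs]; norm_num)]
  have e : ∀ n, ‖LSeries.term al s n‖ = ‖LSeries.term al 3 n‖ := by
    intro n
    rw [LSeries.norm_term_eq, LSeries.norm_term_eq, hs]
    norm_num
  unfold LSeries
  refine tsum_of_norm_bounded h3.hasSum fun n => (e n).le

theorem low_norm {s : ℂ} (hs : 0 ≤ s.re) : (1 + |s.im|) / 2 ≤ ‖s + 1‖ := by
  have h1 := Complex.abs_im_le_norm (s + 1)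
  have h2 := (le_abs_self _).trans (Complex.abs_re_le_norm (s + 1))
  rw [Complex.add_im, Complex.one_im, add_zero] at h1
  rw [Complex.add_re, Complex.one_re] at h2
  linarith

theorem up_norm {s : ℂ} (hs : 0 ≤ s.re) (hs3 : s.re ≤ 3) : ‖s + 1‖ ≤ 4 * (1 + |s.im|) := by
  have h1 := Complex.norm_le_abs_re_add_abs_im (s + 1)
  rw [Complex.add_im, Complex.one_im, add_zero, Complex.add_re, Complex.one_re,
    abs_of_nonneg (by linarith)] at h1
  have := abs_nonneg s.im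
  linarith

/-- **the bound in the strip** -/
theorem strip {y : ℝ} (hy0 : 0 ≤ y) (hy : y < 1 / 2) {ε : ℝ} (hε : 0 < ε)
    (h : ∃ C : ℝ, 0 ≤ C ∧ ∀ s : ℂ, s.re = 1 / 2 + y → ‖E s‖ ≤ C * (1 + |s.im|) ^ ε) :
    ∃ B : ℝ, 0 ≤ B ∧ ∀ s : ℂ, 1 / 2 + y ≤ s.re → s.re ≤ 3 → ‖E s‖ ≤ B * (1 + |s.im|) ^ ε := by
  obtain ⟨C, hC0, hC⟩ := h
  obtain ⟨K, hK0, hK⟩ := E_three
  set f : ℂ → ℂ := fun s => E s * (s + 1) ^ (((-ε : ℝ)) : ℂ) with hf
  have hn : ∀ s : ℂ, ‖f s‖ = ‖E s‖ * ‖s + 1‖ ^ (-ε) := by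
    intro s
    rw [hf]
    simp only
    rw [norm_mul, Complex.norm_cpow_real]
  set D : ℝ := max (C * 2 ^ ε) K with hD
  have hD0 : 0 ≤ D := hK0.trans (le_max_right _ _)
  have hcl : closure (re ⁻¹' Ioo (1 / 2 + y) 3) ⊆ {s : ℂ | 0 < s.re} := by
    intro s hs
    have h1 : s ∈ re ⁻¹' Icc (1 / 2 + y) 3 := by
      refine closure_minimal (preimage_mono Ioo_subset_Icc_self) ?_ hs
      exact isClosed_Icc.preimage Complex.continuous_re
    have h2 := h1.1
    simp only [Set.mem_ofPred_eq]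
    linarith
  have key : ∀ s : ℂ, 1 / 2 + y ≤ s.re → s.re ≤ 3 → ‖f s‖ ≤ D := by
    intro s hs1 hs2
    refine PhragmenLindelof.vertical_strip (a := 1 / 2 + y) (b := 3) (f := f) ?_ ?_ ?_ ?_ hs1 hs2
    · refine DifferentiableOn.diffContOnCl fun z hz => ?_
      have hz0 : 0 < z.re := hcl hz
      have h1 : DifferentiableAt ℂ (fun s : ℂ => (s + 1) ^ (((-ε : ℝ)) : ℂ)) z := by
        refine DifferentiableAt.cpow_const (differentiableAt_id.add_const 1) ?_
        left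
        simp only [Complex.add_re, Complex.one_re]
        linarith
      exact ((E_diff hz0).mul h1).differentiableWithinAt
    · refine ⟨1, ?_, 1, ?_⟩
      · rw [lt_div_iff₀ (by linarith)]
        linarith [Real.pi_gt_three]
      · refine Asymptotics.IsBigO.of_bound 8 ?_
        rw [eventually_inf_principal]
        refine Eventually.of_forall fun z hz => ?_
        have hz1 : 1 / 2 + y < z.re := hz.1
        have hz2 : z.re < 3 := hz.2
        rw [hn, Real.norm_of_nonneg (Real.exp_pos _).le]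
        have h1 : ‖E z‖ ≤ 2 * (‖z + 1‖) := by
          refine (E_le (by linarith)).trans ?_
          have h2 : 1 / z.re ≤ 2 := by
            rw [div_le_iff₀ (by linarith)]
            linarith
          have h3 : ‖z‖ ≤ ‖z + 1‖ := by
            rw [← sq_le_sq₀ (norm_nonneg _) (norm_nonneg _), Complex.sq_norm, Complex.sq_norm,
              Complex.normSq_apply, Complex.normSq_apply]
            simp only [Complex.add_re, Complex.one_re, Complex.add_im, Complex.one_im, add_zero]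
            nlinarith
          calc ‖z‖ * (1 / z.re) ≤ ‖z + 1‖ * 2 :=
                mul_le_mul h3 h2 (one_div_pos.2 (by linarith)).le (norm_nonneg _)
            _ = _ := by ring
        have h4 : ‖z + 1‖ ^ (-ε) ≤ 1 := by
          refine Real.rpow_le_one_of_one_le_of_nonpos ?_ (by linarith)
          have h5 := (le_abs_self _).trans (Complex.abs_re_le_norm (z + 1))
          rw [Complex.add_re, Complex.one_re] at h5
          linarith
        have h6 := up_norm (s := z) (by linarith) hz2.le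
        have h7 : 1 + |z.im| ≤ Real.exp (1 * Real.exp (1 * |z.im|)) := by
          rw [one_mul, one_mul]
          have a1 := Real.add_one_le_exp |z.im|
          have a2 := Real.add_one_le_exp (Real.exp |z.im|)
          linarith
        calc ‖E z‖ * ‖z + 1‖ ^ (-ε) ≤ 2 * ‖z + 1‖ * 1 :=
              mul_le_mul h1 h4 (by positivity) (by positivity)
          _ ≤ 8 * (1 + |z.im|) := by linarith
          _ ≤ _ := mul_le_mul_of_nonneg_left h7 (by norm_num)
    · intro z hz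
      rw [hn]
      refine le_trans ?_ (le_max_left _ _)
      have h1 := hC z hz
      have h2 := low_norm (s := z) (by linarith)
      have h3 : 0 < ‖z + 1‖ := by
        have : 0 ≤ |z.im| := abs_nonneg _
        linarith
      have h4 : (1 + |z.im|) ^ ε ≤ 2 ^ ε * ‖z + 1‖ ^ ε := by
        rw [← Real.mul_rpow (by norm_num) h3.le]
        exact Real.rpow_le_rpow (by positivity) (by linarith) hε.le
      calc ‖E z‖ * ‖z + 1‖ ^ (-ε) ≤ C * (2 ^ ε * ‖z + 1‖ ^ ε) * ‖z + 1‖ ^ (-ε) := by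
            refine mul_le_mul_of_nonneg_right (h1.trans ?_) (by positivity)
            exact mul_le_mul_of_nonneg_left h4 hC0
        _ = C * 2 ^ ε * (‖z + 1‖ ^ ε * ‖z + 1‖ ^ (-ε)) := by ring
        _ = C * 2 ^ ε := by
            rw [← Real.rpow_add h3, add_neg_cancel, Real.rpow_zero, mul_one]
    · intro z hz
      rw [hn]
      refine le_trans ?_ (le_max_right _ _)
      have h4 : ‖z + 1‖ ^ (-ε) ≤ 1 := by
        refine Real.rpow_le_one_of_one_le_of_nonpos ?_ (by linarith)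
        have h5 := (le_abs_self _).trans (Complex.abs_re_le_norm (z + 1))
        rw [Complex.add_re, Complex.one_re] at h5
        linarith
      calc ‖E z‖ * ‖z + 1‖ ^ (-ε) ≤ K * 1 := mul_le_mul (hK z hz) h4 (by positivity) hK0
        _ = K := mul_one K
  refine ⟨D * 4 ^ ε, by positivity, fun s hs1 hs2 => ?_⟩
  have h1 := key s hs1 hs2
  rw [hn] at h1
  have h2 := low_norm (s := s) (by linarith)
  have h3 : 0 < ‖s + 1‖ := by
    have : 0 ≤ |s.im| := abs_nonneg _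
    linarith
  have h4 : ‖E s‖ = ‖E s‖ * ‖s + 1‖ ^ (-ε) * ‖s + 1‖ ^ ε := by
    rw [mul_assoc, ← Real.rpow_add h3, neg_add_cancel, Real.rpow_zero, mul_one]
  have h5 : ‖s + 1‖ ^ ε ≤ 4 ^ ε * (1 + |s.im|) ^ ε := by
    rw [← Real.mul_rpow (by norm_num) (by positivity)]
    exact Real.rpow_le_rpow h3.le (up_norm (by linarith) hs2) hε.le
  rw [h4]
  calc _ ≤ D * (4 ^ ε * (1 + |s.im|) ^ ε) := mul_le_mul h1 h5 (by positivity) hD0
    _ = _ := by ring

theorem DC_eq (t : ℝ) {s : ℂ} (hs : 2 < s.re) : E (s + t * I) = DC lg (cf t) s := by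
  have h1 : 1 < (s + t * I).re := by
    simp only [Complex.add_re, Complex.mul_re, Complex.ofReal_re, Complex.I_re, mul_zero,
      Complex.ofReal_im, Complex.I_im, mul_one, sub_self, add_zero]
    linarith
  rw [← LSeries_al h1]
  unfold LSeries DC
  refine tsum_congr fun n => ?_
  rcases Nat.eq_zero_or_pos n with rfl | hn
  · rw [cf_zero, LSeries.term_zero, zero_mul]
  · have h : n ≠ 0 := hn.ne'
    rw [LSeries.term_of_ne_zero h]
    unfold cf al lg
    rw [if_neg h, div_eq_mul_inv, ← Complex.cpow_neg, mul_assoc]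
    congr 1
    rw [neg_add, add_comm, Complex.cpow_add _ _ (Nat.cast_ne_zero.2 h)]
    congr 1
    rw [Complex.cpow_def_of_ne_zero (Nat.cast_ne_zero.2 h), ← Complex.natCast_log]
    congr 1
    ring

/-- **the bound of the sums** -/
theorem sums_up {y κ : ℝ} (hy0 : 0 ≤ y) (hy : y < 1 / 2) (hκ0 : 0 ≤ κ) (hκ : κ ≤ 1 / 4)
    (h : GrowthE y κ) {ε : ℝ} (hε : 0 < ε) (hε2 : ε ≤ 1 / 4) :
    ∃ C : ℝ, 0 ≤ C ∧ ∀ t x : ℝ, 1 ≤ x → x ≤ 1 + |t| →
      ‖∑ n ∈ Finset.range (⌊x⌋₊ + 1), cf t n‖ ≤ C * (1 + |t|) ^ (κ + ε) * x ^ (1 / 2 + y + ε) := by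
  obtain ⟨B, hB0, hB⟩ := strip hy0 hy (show 0 < κ + ε by linarith) (h ε hε)
  have hK := K2_nonneg (x := 1 / 2 + y) (ε := ε) (by linarith)
  refine ⟨K2 (1 / 2 + y) ε * (B + B) + 3, by positivity, fun t x hx hxt => ?_⟩
  have hx0 : 0 < x := by linarith
  have ht := abs_nonneg t
  have hre : ∀ s : ℂ, (s + t * I).re = s.re := fun s => by simp
  have him : ∀ s : ℂ, (s + t * I).im = s.im + t := fun s => by simp
  have h1 := sharp2 (c := cf t) (norm_cf_le t) (cf_zero t) (Λ := fun s => E (s + t * I))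
    (x := 1 / 2 + y) (B₁ := B * (1 + |t|) ^ (κ + ε)) (B₂ := B) (a₁ := 0) (a₂ := κ + ε) (ε := ε)
    (by linarith) (by linarith)
    (fun s hs => ?_) (fun s hs => DC_eq t hs) hε (by linarith) le_rfl (by norm_num) (by linarith)
    (by linarith) (by positivity) hB0 (fun s hs1 hs2 => ?_) hx
  · refine h1.trans ?_
    have a1 : 1 ≤ (1 + |t|) ^ (κ + ε) := Real.one_le_rpow (by linarith) (by linarith)
    have h2 : x ^ (1 / 2 : ℝ) ≤ (1 + |t|) ^ (κ + ε) * x ^ (1 / 2 + y + ε) := by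
      have a2 : x ^ (1 / 2 : ℝ) ≤ x ^ (1 / 2 + y + ε) :=
        Real.rpow_le_rpow_of_exponent_le hx (by linarith)
      exact a2.trans (le_mul_of_one_le_left (by positivity) a1)
    have h3 : x ^ (1 / 2 + y + (0 + ε) / 2) ≤ x ^ (1 / 2 + y + ε) :=
      Real.rpow_le_rpow_of_exponent_le hx (by linarith)
    have h4 : x ^ (1 / 2 + y + (κ + ε + ε) / 2) ≤ (1 + |t|) ^ (κ + ε) * x ^ (1 / 2 + y + ε) := by
      have e1 : x ^ (1 / 2 + y + (κ + ε + ε) / 2) = x ^ (κ / 2) * x ^ (1 / 2 + y + ε) := by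
        rw [← Real.rpow_add hx0]
        congr 1
        ring
      rw [e1]
      refine mul_le_mul_of_nonneg_right ?_ (by positivity)
      calc x ^ (κ / 2) ≤ (1 + |t|) ^ (κ / 2) := Real.rpow_le_rpow hx0.le hxt (by linarith)
        _ ≤ (1 + |t|) ^ (κ + ε) := Real.rpow_le_rpow_of_exponent_le (by linarith) (by linarith)
    calc K2 (1 / 2 + y) ε * (B * (1 + |t|) ^ (κ + ε) * x ^ (1 / 2 + y + (0 + ε) / 2) +
          B * x ^ (1 / 2 + y + (κ + ε + ε) / 2)) + 3 * x ^ (1 / 2 : ℝ) ≤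
        K2 (1 / 2 + y) ε * (B * (1 + |t|) ^ (κ + ε) * x ^ (1 / 2 + y + ε) +
          B * ((1 + |t|) ^ (κ + ε) * x ^ (1 / 2 + y + ε))) +
          3 * ((1 + |t|) ^ (κ + ε) * x ^ (1 / 2 + y + ε)) := by gcongr
      _ = _ := by ring
  · have h2 : DifferentiableAt ℂ E (s + t * I) := E_diff (by rw [hre]; linarith)
    exact h2.comp s (differentiableAt_id.add_const _)
  · have h2 := hB (s + t * I) (by rw [hre]; exact hs1) (by rw [hre]; exact hs2)
    rw [him] at h2
    refine h2.trans ?_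
    have h3 := abs_add_le s.im t
    have h4 : (1 + |s.im + t|) ^ (κ + ε) ≤ (1 + |t|) ^ (κ + ε) + |s.im| ^ (κ + ε) := by
      refine le_trans ?_ (Real.rpow_add_le_add_rpow (by positivity) (abs_nonneg _) (by linarith)
        (by linarith))
      exact Real.rpow_le_rpow (by positivity) (by linarith) (by linarith)
    have h5 : |s.im| ^ (κ + ε) ≤ (1 + |s.im|) ^ (κ + ε) :=
      Real.rpow_le_rpow (abs_nonneg _) (by linarith) (by linarith)
    rw [Real.rpow_zero, mul_one]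
    calc B * (1 + |s.im + t|) ^ (κ + ε) ≤ B * ((1 + |t|) ^ (κ + ε) + (1 + |s.im|) ^ (κ + ε)) :=
          mul_le_mul_of_nonneg_left (h4.trans (by linarith)) hB0
      _ = _ := by ring

end Pool.Agent.H564.LH
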